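import Mathlib
import Pool.Agent.Helper281.ConfDefs

/-!
Conformal equivalence of the domains `ℂ \ S`, where `S` ranges over the closed subsets of `ℂ`
without accumulation point, is an essentially hyperfinite Borel equivalence relation.

Outline of the proof.
* A biholomorphism `ℂ \ S → ℂ \ T` is affine, or `S` is finite and it is a Moebius map with its
  pole in `S` (`conf_cases`).
* The normalised sets (those containing `0` and `1`, and two trivial ones) form a Borel section
  `YSet`; the induced relation `EY` has countable classes, enumerated by Borel maps `psi`.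
* For infinite `S`, the members of the class of `S` in the section correspond to the pairs `(z, w)`
  of distinct points of `S`, that is, to points `(z, |w - z|)` of hyperbolic three-space. We take a
  Borel maximal separated family `M` of pairs (`exists_M`) and the map `phi` which moves a pair up to
  the lowest pair of `M` in the cone above it. Any two vertical rays are asymptotic, so by a packing
  bound (`UpMap.window`, `exists_pack`) every class contains boundedly many tail classes of `phi`.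
* The tail equivalence relation of a Borel map is hyperfinite (`hyperfinite_tail`), and so is a
  countable Borel equivalence relation each of whose classes contains only finitely many classes of a
  hyperfinite subrelation (`hyperfinite_finite_index`).
-/

open Set Filter Topology Function Bornology

namespace Pool.Agent.Helper281.Conformal

/-! ### Increasing unions of smooth relations with nested selectors -/

section HS

variable {X : Type} [MeasurableSpace X]

theorem hyperfinite_of_nested [StandardBorelSpace X]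
    (ψ : ℕ → X → X) (hψ : ∀ i, Measurable (ψ i))
    (s : ℕ → X → X) (hs : ∀ n, Measurable (s n)) (hs0 : ∀ x, s 0 x = x)
    (hnest : ∀ n x y, s n x = s n y → s (n+1) x = s (n+1) y)
    (hidx : ∀ n x, ∃ i, ψ i (s (n+1) x) = s n x)
    (R : X → X → Prop) (hR : ∀ x y, R x y ↔ ∃ n, s n x = s n y) : Hyperfinite R := by
  classical
  have hnest' : ∀ n m, n ≤ m → ∀ x y, s n x = s n y → s m x = s m y := by
    intro n m hnm x y h
    induction m, hnm using Nat.le_induction with
    | base => exact h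
    | succ m _ ih => exact hnest m x y ih
  let c : ℕ → X → ℕ := fun n x => Nat.find (hidx n x)
  have hc : ∀ n x, ψ (c n x) (s (n+1) x) = s n x := fun n x => Nat.find_spec (hidx n x)
  have hcm : ∀ n, Measurable (c n) := by
    intro n
    apply measurable_find
    intro k
    exact measurableSet_eq_fun ((hψ k).comp (hs (n+1))) (hs n)
  have hceq : ∀ n m, n ≤ m → ∀ x y, s n x = s n y → c m x = c m y := by
    intro n m hnm x y h
    have h1 := hnest' n m hnm x y h
    have h2 := hnest' n (m+1) (by omega) x y h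
    simp only [c]
    congr 1
    ext i
    rw [h1, h2]
  refine ⟨fun n x y => ∃ k ≤ n, s k x = s k y ∧ ∀ m < k, c m x ≤ n ∧ c m y ≤ n, ?_, ?_, ?_, ?_, ?_⟩
  · intro n
    refine ⟨?_, ?_, ?_⟩
    · intro x
      exact ⟨0, Nat.zero_le _, rfl, fun m hm => absurd hm (Nat.not_lt_zero _)⟩
    · rintro x y ⟨k, hk, h, hm⟩
      exact ⟨k, hk, h.symm, fun m hmk => ⟨(hm m hmk).2, (hm m hmk).1⟩⟩
    · rintro x y z ⟨k, hk, h, hm⟩ ⟨k', hk', h', hm'⟩
      refine ⟨max k k', max_le hk hk', ?_, ?_⟩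
      · exact (hnest' k _ (le_max_left _ _) x y h).trans (hnest' k' _ (le_max_right _ _) y z h')
      · intro m hmk
        constructor
        · by_cases h1 : m < k
          · exact (hm m h1).1
          · have h2 : m < k' := by omega
            rw [hceq k m (by omega) x y h]
            exact (hm' m h2).1
        · by_cases h1 : m < k'
          · exact (hm' m h1).2
          · have h2 : m < k := by omega
            rw [← hceq k' m (by omega) y z h']
            exact (hm m h2).2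
  · intro n
    have : {p : X × X | ∃ k ≤ n, s k p.1 = s k p.2 ∧ ∀ m < k, c m p.1 ≤ n ∧ c m p.2 ≤ n} =
        ⋃ k, ⋃ (_ : k ≤ n), ({p : X × X | s k p.1 = s k p.2} ∩
          ⋂ m, ⋂ (_ : m < k), ({p : X × X | c m p.1 ≤ n} ∩ {p : X × X | c m p.2 ≤ n})) := by
      ext p
      simp only [mem_setOf_eq, mem_iUnion, mem_inter_iff, mem_iInter, exists_prop]
    rw [this]
    refine MeasurableSet.iUnion fun k => MeasurableSet.iUnion fun _ => MeasurableSet.inter ?_ ?_
    · exact measurableSet_eq_fun ((hs k).comp measurable_fst) ((hs k).comp measurable_snd)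
    · refine MeasurableSet.iInter fun m => MeasurableSet.iInter fun _ => MeasurableSet.inter ?_ ?_
      · exact ((hcm m).comp measurable_fst) (measurableSet_Iic)
      · exact ((hcm m).comp measurable_snd) (measurableSet_Iic)
  · intro n x
    have hsub : {y | ∃ k ≤ n, s k x = s k y ∧ ∀ m < k, c m x ≤ n ∧ c m y ≤ n} ⊆
        ⋃ k ∈ Set.Iic n, {y | s k x = s k y ∧ ∀ m < k, c m y ≤ n} := by
      rintro y ⟨k, hk, h, hm⟩
      simp only [mem_iUnion]
      exact ⟨k, hk, h, fun m hmk => (hm m hmk).2⟩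
    refine Set.Finite.subset ?_ hsub
    refine Set.Finite.biUnion (Set.finite_Iic n) ?_
    intro k _
    have himg : ((fun y => (fun m : Fin k => c m y)) '' {y | s k x = s k y ∧ ∀ m < k, c m y ≤ n}).Finite := by
      refine Set.Finite.subset (Set.Finite.pi' (ι := Fin k) (κ := fun _ => ℕ) (t := fun _ => Set.Iic n) (fun _ => Set.finite_Iic n)) ?_
      rintro _ ⟨y, ⟨_, hy⟩, rfl⟩ m
      exact hy m m.2
    refine Set.Finite.of_finite_image himg ?_
    intro y hy y' hy' heq
    have key : ∀ j, j ≤ k → s (k - j) y = s (k - j) y' := by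
      intro j
      induction j with
      | zero => intro _; simpa using hy.1.symm.trans hy'.1
      | succ j ih =>
        intro hj
        have ih' := ih (by omega)
        have e : k - (j+1) + 1 = k - j := by omega
        have hlt : k - (j+1) < k := by omega
        have hcc : c (k - (j+1)) y = c (k - (j+1)) y' := congrFun heq ⟨k - (j+1), hlt⟩
        rw [← hc (k - (j+1)) y, ← hc (k - (j+1)) y', e, ih', hcc]
    have := key k le_rfl
    simpa [hs0] using this
  · rintro n x y ⟨k, hk, h, hm⟩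
    exact ⟨k, by omega, h, fun m hmk => ⟨(hm m hmk).1.trans (by omega), (hm m hmk).2.trans (by omega)⟩⟩
  · intro x y
    rw [hR]
    constructor
    · rintro ⟨k, h⟩
      obtain ⟨B, hB⟩ : ∃ B, ∀ m < k, c m x ≤ B ∧ c m y ≤ B := by
        refine ⟨(Finset.range k).sup (fun m => c m x) + (Finset.range k).sup (fun m => c m y), ?_⟩
        intro m hm
        have h1 := Finset.le_sup (f := fun m => c m x) (Finset.mem_range.2 hm)
        have h2 := Finset.le_sup (f := fun m => c m y) (Finset.mem_range.2 hm)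
        omega
      exact ⟨max k B, k, le_max_left _ _, h, fun m hm => ⟨(hB m hm).1.trans (le_max_right _ _), (hB m hm).2.trans (le_max_right _ _)⟩⟩
    · rintro ⟨n, k, _, h, _⟩
      exact ⟨k, h⟩

end HS

/-! ### Tail equivalence of a Borel map is hyperfinite -/

section STail

variable {X : Type} [MeasurableSpace X]

theorem measurable_apply_index {ψ : ℕ → X → X} (hψ : ∀ i, Measurable (ψ i))
    {N : X → ℕ} (hN : Measurable N) : Measurable (fun x => ψ (N x) x) := by
  have h : Measurable (fun p : X × ℕ => ψ p.2 p.1) :=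
    measurable_from_prod_countable_left (fun y => hψ y)
  exact h.comp (measurable_id.prodMk hN)

theorem hyperfinite_tail [StandardBorelSpace X]
    (ψ : ℕ → X → X) (hψ : ∀ i, Measurable (ψ i))
    (φ : X → X) (hφ : Measurable φ)
    (R : X → X → Prop) (hR : ∀ x y, R x y ↔ ∃ m n, φ^[m] x = φ^[n] y)
    (hen : ∀ x y, R x y → ∃ i, ψ i x = y) : Hyperfinite R := by
  classical
  have hiter : ∀ n, Measurable (φ^[n]) := fun n => hφ.iterate n
  -- R is an equivalence relation
  have hRrefl : ∀ x, R x x := fun x => (hR x x).2 ⟨0, 0, rfl⟩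
  have hRsymm : ∀ x y, R x y → R y x := by
    intro x y h
    obtain ⟨m, n, h⟩ := (hR x y).1 h
    exact (hR y x).2 ⟨n, m, h.symm⟩
  have hRtrans : ∀ x y z, R x y → R y z → R x z := by
    intro x y z h1 h2
    obtain ⟨m, n, h⟩ := (hR x y).1 h1
    obtain ⟨m', n', h'⟩ := (hR y z).1 h2
    refine (hR x z).2 ⟨m' + m, n + n', ?_⟩
    rw [iterate_add_apply, h, ← iterate_add_apply, add_comm m' n, iterate_add_apply, h',
      ← iterate_add_apply]
  have hRiter : ∀ x n, R x (φ^[n] x) := fun x n => (hR _ _).2 ⟨n, 0, rfl⟩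
  have hRm : MeasurableSet {p : X × X | R p.1 p.2} := by
    have : {p : X × X | R p.1 p.2} = ⋃ m, ⋃ n, {p : X × X | φ^[m] p.1 = φ^[n] p.2} := by
      ext p
      simp only [mem_ofPred_eq, mem_iUnion]
      exact hR _ _
    rw [this]
    exact MeasurableSet.iUnion fun m => MeasurableSet.iUnion fun n =>
      measurableSet_eq_fun ((hiter m).comp measurable_fst) ((hiter n).comp measurable_snd)
  -- bounded real coding
  obtain ⟨e, he⟩ := MeasureTheory.exists_measurableEmbedding_real X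
  let u : X → ℝ := fun x => Real.arctan (e x)
  have hum : Measurable u := Real.measurable_arctan.comp he.measurable
  have huinj : Injective u := Real.arctan_injective.comp he.injective
  have hub : ∀ x, |u x| ≤ 2 := by
    intro x
    have h1 := Real.neg_pi_div_two_lt_arctan (e x)
    have h2 := Real.arctan_lt_pi_div_two (e x)
    have h3 := Real.pi_lt_four
    rw [abs_le]
    constructor <;> simp only [u] <;> linarith
  let L : X → ℝ := fun x => liminf (fun k => u (φ^[k] x)) atTop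
  have hLm : Measurable L := Measurable.liminf (fun k => hum.comp (hiter k))
  have hbb : ∀ x, IsBoundedUnder (· ≥ ·) atTop (fun k => u (φ^[k] x)) := by
    intro x
    refine ⟨-2, ?_⟩
    rw [eventually_map]
    exact Eventually.of_forall fun k => (abs_le.1 (hub _)).1
  have hba : ∀ x, IsBoundedUnder (· ≤ ·) atTop (fun k => u (φ^[k] x)) := by
    intro x
    refine ⟨2, ?_⟩
    rw [eventually_map]
    exact Eventually.of_forall fun k => (abs_le.1 (hub _)).2
  have hfreq : ∀ x (ε : ℝ), 0 < ε → ∃ᶠ k in atTop, |u (φ^[k] x) - L x| < ε := by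
    intro x ε hε
    have h1 : ∃ᶠ k in atTop, u (φ^[k] x) < L x + ε :=
      frequently_lt_of_liminf_lt (hba x).isCoboundedUnder_flip (by simp only [L]; linarith)
    have h2 : ∀ᶠ k in atTop, L x - ε < u (φ^[k] x) :=
      eventually_lt_of_lt_liminf (by simp only [L]; linarith) (hbb x)
    refine (h1.and_eventually h2).mono ?_
    rintro k ⟨h3, h4⟩
    rw [abs_lt]
    constructor <;> linarith
  have hLiter : ∀ x m, L (φ^[m] x) = L x := by
    intro x m
    have := liminf_nat_add (fun k => u (φ^[k] x)) m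
    simp only [L]
    rw [← this]
    congr 1
    ext k
    rw [iterate_add_apply]
  have hLR : ∀ x y, R x y → L x = L y := by
    intro x y h
    obtain ⟨m, n, h⟩ := (hR x y).1 h
    rw [← hLiter x m, h, hLiter y n]
  have hex : ∀ (n : ℕ) x, ∃ k, |u (φ^[k] x) - L x| < 1 / ((n : ℝ) + 1) := by
    intro n x
    exact (hfreq x _ (by positivity)).exists
  let κ : ℕ → X → ℕ := fun n x => Nat.find (hex n x)
  have hκs : ∀ n x, |u (φ^[κ n x] x) - L x| < 1 / ((n : ℝ) + 1) := fun n x => Nat.find_spec (hex n x)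
  have hκmin : ∀ (n : ℕ) (x : X) (m : ℕ), |u (φ^[m] x) - L x| < 1 / ((n : ℝ) + 1) → κ n x ≤ m :=
    fun n x m h => Nat.find_min' (hex n x) h
  have hκm : ∀ n, Measurable (κ n) := by
    intro n
    apply measurable_find
    intro k
    exact measurableSet_lt ((measurable_norm.comp ((hum.comp (hiter k)).sub hLm))) measurable_const
  have hκmono : ∀ n x, κ n x ≤ κ (n+1) x := by
    intro n x
    apply hκmin
    refine (hκs (n+1) x).trans_le ?_
    push_cast
    apply one_div_le_one_div_of_le <;> [positivity; linarith]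
  have hκmono' : ∀ x, Monotone (fun n => κ n x) := fun x => monotone_nat_of_le_succ (fun n => hκmono n x)
  -- the smooth part
  let P : X → ℕ → Prop := fun x i => R x (ψ i x) ∧ u (ψ i x) = L x
  have hPm : ∀ i, MeasurableSet {x | P x i} := by
    intro i
    exact (hRm.preimage (measurable_id.prodMk (hψ i))).inter (measurableSet_eq_fun (hum.comp (hψ i)) hLm)
  let A : Set X := {x | ∃ i, P x i}
  have hAm : MeasurableSet A := by
    have : A = ⋃ i, {x | P x i} := by ext x; simp [A]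
    rw [this]
    exact MeasurableSet.iUnion hPm
  have hA : ∀ x, x ∈ A ↔ ∃ y, R x y ∧ u y = L x := by
    intro x
    constructor
    · rintro ⟨i, h1, h2⟩
      exact ⟨_, h1, h2⟩
    · rintro ⟨y, h1, h2⟩
      obtain ⟨i, rfl⟩ := hen x y h1
      exact ⟨i, h1, h2⟩
  have hAR : ∀ x y, R x y → x ∈ A → y ∈ A := by
    intro x y h hx
    obtain ⟨z, h1, h2⟩ := (hA x).1 hx
    exact (hA y).2 ⟨z, hRtrans _ _ _ (hRsymm _ _ h) h1, by rw [h2, hLR x y h]⟩
  have hexN : ∀ x, ∃ i, P x i ∨ x ∉ A := by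
    intro x
    by_cases hx : x ∈ A
    · obtain ⟨i, hi⟩ := hx
      exact ⟨i, Or.inl hi⟩
    · exact ⟨0, Or.inr hx⟩
  let N : X → ℕ := fun x => Nat.find (hexN x)
  have hNm : Measurable N := by
    apply measurable_find
    intro k
    exact (hPm k).union hAm.compl
  have hNs : ∀ x ∈ A, P x (N x) := by
    intro x hx
    rcases Nat.find_spec (hexN x) with h | h
    · exact h
    · exact absurd hx h
  let s' : ℕ → X → X := fun n => A.piecewise (fun x => ψ (N x) x) (fun x => φ^[κ n x] x)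
  have hs'm : ∀ n, Measurable (s' n) := by
    intro n
    refine Measurable.piecewise hAm (measurable_apply_index hψ hNm) ?_
    exact measurable_apply_index (ψ := fun k => φ^[k]) hiter (hκm n)
  have hs'A : ∀ n x, x ∈ A → R x (s' n x) ∧ u (s' n x) = L x := by
    intro n x hx
    simp only [s', Set.piecewise_eq_of_mem _ _ _ hx]
    exact hNs x hx
  have hs'nA : ∀ n x, x ∉ A → s' n x = φ^[κ n x] x := by
    intro n x hx
    simp only [s', Set.piecewise_eq_of_notMem _ _ _ hx]
  have hs'R : ∀ n x, R x (s' n x) := by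
    intro n x
    by_cases hx : x ∈ A
    · exact (hs'A n x hx).1
    · rw [hs'nA n x hx]; exact hRiter x _
  let s : ℕ → X → X := fun n => Nat.casesOn n id s'
  have hs0 : ∀ x, s 0 x = x := fun x => rfl
  have hs1 : ∀ n x, s (n+1) x = s' n x := fun n x => rfl
  have hsR : ∀ n x, R x (s n x) := by
    intro n x
    cases n with
    | zero => exact hRrefl x
    | succ n => exact hs'R n x
  have hsm : ∀ n, Measurable (s n) := by
    intro n
    cases n with
    | zero => exact measurable_id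
    | succ n => exact hs'm n
  -- first visit property
  have hfirst : ∀ n x a, a ≤ κ n x → φ^[κ n x] x = φ^[κ n (φ^[a] x)] (φ^[a] x) := by
    intro n x a ha
    have e1 : κ n x ≤ κ n (φ^[a] x) + a := by
      apply hκmin
      rw [iterate_add_apply, ← hLiter x a]
      exact hκs n _
    have e2 : κ n (φ^[a] x) ≤ κ n x - a := by
      apply hκmin
      rw [← iterate_add_apply, hLiter, Nat.sub_add_cancel ha]
      exact hκs n x
    have e3 : κ n (φ^[a] x) + a = κ n x := by omega
    rw [← iterate_add_apply, e3]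
  refine hyperfinite_of_nested ψ hψ s hsm hs0 ?_ ?_ R ?_
  · -- nested
    intro n x y h
    cases n with
    | zero => rw [hs0, hs0] at h; rw [h]
    | succ n =>
      have hxy : R x y := by
        have h1 := hsR (n+1) x
        have h2 := hsR (n+1) y
        rw [← h] at h2
        exact hRtrans _ _ _ h1 (hRsymm _ _ h2)
      rw [hs1, hs1] at h
      rw [hs1, hs1]
      by_cases hx : x ∈ A
      · have hy : y ∈ A := hAR x y hxy hx
        apply huinj
        rw [(hs'A (n+1) x hx).2, (hs'A (n+1) y hy).2, hLR x y hxy]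
      · have hy : y ∉ A := fun hy => hx (hAR y x (hRsymm _ _ hxy) hy)
        rw [hs'nA n x hx, hs'nA n y hy] at h
        rw [hs'nA _ x hx, hs'nA _ y hy, hfirst (n+1) x (κ n x) (hκmono n x),
          hfirst (n+1) y (κ n y) (hκmono n y), h]
  · intro n x
    exact hen _ _ (hRtrans _ _ _ (hRsymm _ _ (hsR (n+1) x)) (hsR n x))
  · intro x y
    constructor
    · intro hxy
      by_cases hx : x ∈ A
      · have hy : y ∈ A := hAR x y hxy hx
        refine ⟨1, ?_⟩
        change s' 0 x = s' 0 y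
        apply huinj
        rw [(hs'A 0 x hx).2, (hs'A 0 y hy).2, hLR x y hxy]
      · have hy : y ∉ A := fun hy => hx (hAR y x (hRsymm _ _ hxy) hy)
        have hunb : ∀ z, z ∉ A → ∀ B, ∃ n, B ≤ κ n z := by
          intro z hz
          by_contra hcon
          push Not at hcon
          obtain ⟨B, hB⟩ := hcon
          have : ∃ k ∈ Finset.range B, ∃ᶠ n in atTop, κ n z = k := by
            by_contra hcon2
            push Not at hcon2
            have h3 : ∀ᶠ n in atTop, ∀ k ∈ Finset.range B, κ n z ≠ k := by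
              rw [Filter.eventually_all_finset]
              intro k hk
              exact hcon2 k hk
            obtain ⟨n, hn⟩ := h3.exists
            exact hn (κ n z) (Finset.mem_range.2 (hB n)) rfl
          obtain ⟨k, _, hk⟩ := this
          apply hz
          rw [hA]
          refine ⟨φ^[k] z, hRiter z k, ?_⟩
          by_contra hne
          have hpos : 0 < |u (φ^[k] z) - L z| := abs_pos.2 (sub_ne_zero.2 hne)
          obtain ⟨n0, hn0⟩ := exists_nat_one_div_lt hpos
          obtain ⟨n, hn1, hn2⟩ := (hk.and_eventually (eventually_ge_atTop n0)).exists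
          have h4 := hκs n z
          rw [hn1] at h4
          have h5 : (1 : ℝ) / ((n : ℝ) + 1) ≤ 1 / ((n0 : ℝ) + 1) := by
            apply one_div_le_one_div_of_le (by positivity)
            have : (n0 : ℝ) ≤ n := by exact_mod_cast hn2
            linarith
          linarith
        obtain ⟨a, b, hab⟩ := (hR x y).1 hxy
        obtain ⟨n1, hn1⟩ := hunb x hx a
        obtain ⟨n2, hn2⟩ := hunb y hy b
        have e1 : a ≤ κ (max n1 n2) x := hn1.trans (hκmono' x (le_max_left _ _))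
        have e2 : b ≤ κ (max n1 n2) y := hn2.trans (hκmono' y (le_max_right _ _))
        refine ⟨max n1 n2 + 1, ?_⟩
        rw [hs1, hs1, hs'nA _ x hx, hs'nA _ y hy, hfirst _ x a e1, hfirst _ y b e2, hab]
    · rintro ⟨n, h⟩
      have h1 := hsR n x
      have h2 := hsR n y
      rw [← h] at h2
      exact hRtrans _ _ _ h1 (hRsymm _ _ h2)

end STail

/-! ### Finite index extensions -/

section SIndex

variable {X : Type} [MeasurableSpace X]

theorem hyperfinite_finite_index [StandardBorelSpace X]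
    (ψ : ℕ → X → X) (hψ : ∀ i, Measurable (ψ i)) (hψ0 : ∀ x, ψ 0 x = x)
    (E : X → X → Prop) (hE : Equivalence E) (hψE : ∀ x i, E x (ψ i x))
    (hEψ : ∀ x y, E x y → ∃ i, ψ i x = y)
    (R : X → X → Prop) (hR : Hyperfinite R) (hRE : ∀ x y, R x y → E x y)
    (hfin : ∀ x, ∃ N, ∀ i, ∃ j ≤ N, R (ψ i x) (ψ j x)) : Hyperfinite E := by
  classical
  obtain ⟨G, hGe, hGm, hGf, hGmono, hGR⟩ := hR
  have hGmono' : ∀ n m, n ≤ m → ∀ x y, G n x y → G m x y := by
    intro n m hnm x y h
    induction m, hnm using Nat.le_induction with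
    | base => exact h
    | succ m _ ih => exact hGmono m x y ih
  have hRm : MeasurableSet {p : X × X | R p.1 p.2} := by
    have : {p : X × X | R p.1 p.2} = ⋃ n, {p : X × X | G n p.1 p.2} := by
      ext p
      simp only [mem_ofPred_eq, mem_iUnion]
      exact hGR _ _
    rw [this]
    exact MeasurableSet.iUnion hGm
  have hEm : MeasurableSet {p : X × X | E p.1 p.2} := by
    have : {p : X × X | E p.1 p.2} = ⋃ i, {p : X × X | ψ i p.1 = p.2} := by
      ext p
      simp only [mem_ofPred_eq, mem_iUnion]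
      constructor
      · exact hEψ _ _
      · rintro ⟨i, hi⟩
        rw [← hi]
        exact hψE _ _
    rw [this]
    exact MeasurableSet.iUnion fun i => measurableSet_eq_fun ((hψ i).comp measurable_fst) measurable_snd
  let N : X → ℕ := fun x => Nat.find (hfin x)
  have hNs : ∀ x i, ∃ j ≤ N x, R (ψ i x) (ψ j x) := fun x => Nat.find_spec (hfin x)
  have hNm : Measurable N := by
    apply measurable_find
    intro k
    have : {x | ∀ i, ∃ j ≤ k, R (ψ i x) (ψ j x)} = ⋂ i, ⋃ j, ⋃ (_ : j ≤ k), {x | R (ψ i x) (ψ j x)} := by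
      ext x
      simp only [mem_ofPred_eq, mem_iUnion, mem_iInter, exists_prop]
    rw [this]
    exact MeasurableSet.iInter fun i => MeasurableSet.iUnion fun j => MeasurableSet.iUnion fun _ =>
      hRm.preimage ((hψ i).prodMk (hψ j))
  refine ⟨fun n x y => E x y ∧ (∀ i ≤ N x, ∃ j ≤ N y, G n (ψ i x) (ψ j y)) ∧
    (∀ j ≤ N y, ∃ i ≤ N x, G n (ψ i x) (ψ j y)), ?_, ?_, ?_, ?_, ?_⟩
  · intro n
    refine ⟨?_, ?_, ?_⟩
    · intro x
      exact ⟨hE.refl x, fun i hi => ⟨i, hi, (hGe n).refl _⟩, fun i hi => ⟨i, hi, (hGe n).refl _⟩⟩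
    · rintro x y ⟨h1, h2, h3⟩
      refine ⟨hE.symm h1, fun i hi => ?_, fun i hi => ?_⟩
      · obtain ⟨j, hj, h⟩ := h3 i hi
        exact ⟨j, hj, (hGe n).symm h⟩
      · obtain ⟨j, hj, h⟩ := h2 i hi
        exact ⟨j, hj, (hGe n).symm h⟩
    · rintro x y z ⟨h1, h2, h3⟩ ⟨h1', h2', h3'⟩
      refine ⟨hE.trans h1 h1', fun i hi => ?_, fun i hi => ?_⟩
      · obtain ⟨j, hj, h⟩ := h2 i hi
        obtain ⟨l, hl, h'⟩ := h2' j hj
        exact ⟨l, hl, (hGe n).trans h h'⟩
      · obtain ⟨j, hj, h⟩ := h3' i hi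
        obtain ⟨l, hl, h'⟩ := h3 j hj
        exact ⟨l, hl, (hGe n).trans h' h⟩
  · intro n
    have : {p : X × X | E p.1 p.2 ∧ (∀ i ≤ N p.1, ∃ j ≤ N p.2, G n (ψ i p.1) (ψ j p.2)) ∧
        (∀ j ≤ N p.2, ∃ i ≤ N p.1, G n (ψ i p.1) (ψ j p.2))} =
        {p : X × X | E p.1 p.2} ∩
          ((⋂ i, ({p : X × X | i ≤ N p.1}ᶜ ∪ ⋃ j, ({p : X × X | j ≤ N p.2} ∩
            {p : X × X | G n (ψ i p.1) (ψ j p.2)}))) ∩
          (⋂ j, ({p : X × X | j ≤ N p.2}ᶜ ∪ ⋃ i, ({p : X × X | i ≤ N p.1} ∩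
            {p : X × X | G n (ψ i p.1) (ψ j p.2)})))) := by
      ext p
      simp only [mem_ofPred_eq, mem_inter_iff, mem_iUnion, mem_iInter, mem_union, mem_compl_iff,
        imp_iff_not_or]
    rw [this]
    have hG2 : ∀ i j, MeasurableSet {p : X × X | G n (ψ i p.1) (ψ j p.2)} := fun i j =>
      (hGm n).preimage (((hψ i).comp measurable_fst).prodMk ((hψ j).comp measurable_snd))
    have hN1 : ∀ i, MeasurableSet {p : X × X | i ≤ N p.1} := fun i =>
      (hNm.comp measurable_fst) measurableSet_Ici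
    have hN2 : ∀ i, MeasurableSet {p : X × X | i ≤ N p.2} := fun i =>
      (hNm.comp measurable_snd) measurableSet_Ici
    refine hEm.inter (MeasurableSet.inter ?_ ?_)
    · exact MeasurableSet.iInter fun i => (hN1 i).compl.union
        (MeasurableSet.iUnion fun j => (hN2 j).inter (hG2 i j))
    · exact MeasurableSet.iInter fun j => (hN2 j).compl.union
        (MeasurableSet.iUnion fun i => (hN1 i).inter (hG2 i j))
  · intro n x
    refine Set.Finite.subset (Set.Finite.biUnion (Set.finite_Iic (N x)) (fun i _ => hGf n (ψ i x))) ?_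
    rintro y ⟨_, _, h3⟩
    obtain ⟨i, hi, h⟩ := h3 0 (Nat.zero_le _)
    rw [hψ0] at h
    simp only [mem_iUnion]
    exact ⟨i, hi, h⟩
  · rintro n x y ⟨h1, h2, h3⟩
    refine ⟨h1, fun i hi => ?_, fun i hi => ?_⟩
    · obtain ⟨j, hj, h⟩ := h2 i hi
      exact ⟨j, hj, hGmono n _ _ h⟩
    · obtain ⟨j, hj, h⟩ := h3 i hi
      exact ⟨j, hj, hGmono n _ _ h⟩
  · intro x y
    constructor
    · intro hxy
      have key : ∀ x y, E x y → ∀ i, ∃ j ≤ N y, R (ψ i x) (ψ j y) := by
        intro x y hxy i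
        have h1 : E y (ψ i x) := hE.trans (hE.symm hxy) (hψE x i)
        obtain ⟨k, hk⟩ := hEψ _ _ h1
        obtain ⟨j, hj, h⟩ := hNs y k
        exact ⟨j, hj, by rw [← hk]; exact h⟩
      have step : ∀ x y, E x y → ∃ n, ∀ i ≤ N x, ∃ j ≤ N y, G n (ψ i x) (ψ j y) := by
        intro x y hxy
        have : ∀ i, ∃ n, ∃ j ≤ N y, G n (ψ i x) (ψ j y) := by
          intro i
          obtain ⟨j, hj, h⟩ := key x y hxy i
          obtain ⟨n, hn⟩ := (hGR _ _).1 h
          exact ⟨n, j, hj, hn⟩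
        choose n hn using this
        refine ⟨(Finset.range (N x + 1)).sup n, fun i hi => ?_⟩
        obtain ⟨j, hj, h⟩ := hn i
        exact ⟨j, hj, hGmono' _ _ (Finset.le_sup (f := n) (Finset.mem_range.2 (by omega))) _ _ h⟩
      obtain ⟨n1, h1⟩ := step x y hxy
      obtain ⟨n2, h2⟩ := step y x (hE.symm hxy)
      refine ⟨max n1 n2, hxy, fun i hi => ?_, fun j hj => ?_⟩
      · obtain ⟨j, hj, h⟩ := h1 i hi
        exact ⟨j, hj, hGmono' _ _ (le_max_left _ _) _ _ h⟩
      · obtain ⟨i, hi, h⟩ := h2 j hj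
        exact ⟨i, hi, (hGe _).symm (hGmono' _ _ (le_max_right _ _) _ _ h)⟩
    · rintro ⟨n, h, _⟩
      exact h

end SIndex

/-! ### Borel maximal independent sets -/

section SMaxInd

variable {X : Type} [MeasurableSpace X]

theorem exists_maximal_independent [StandardBorelSpace X]
    (ψ : ℕ → X → X) (hψ : ∀ i, Measurable (ψ i))
    (Adj : X → X → Prop) (hAm : MeasurableSet {p : X × X | Adj p.1 p.2})
    (hsymm : ∀ x y, Adj x y → Adj y x) (hirr : ∀ x, ¬ Adj x x)
    (hfin : ∀ x, {y | Adj x y}.Finite) (hen : ∀ x y, Adj x y → ∃ i, ψ i x = y) :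
    ∃ M : Set X, MeasurableSet M ∧ (∀ x ∈ M, ∀ y ∈ M, ¬ Adj x y) ∧
      (∀ x, x ∈ M ∨ ∃ y ∈ M, Adj x y) := by
  classical
  obtain ⟨e, he⟩ := MeasureTheory.exists_measurableEmbedding_real X
  obtain ⟨f, hf⟩ := exists_surjective_nat (ℚ × ℚ)
  let B : ℕ → Set X := fun n => {x | ((f n).1 : ℝ) < e x ∧ e x < ((f n).2 : ℝ)}
  have hBm : ∀ n, MeasurableSet (B n) := fun n =>
    (measurableSet_lt measurable_const he.measurable).inter
      (measurableSet_lt he.measurable measurable_const)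
  have hex : ∀ x, ∃ n, x ∈ B n ∧ ∀ i, Adj x (ψ i x) → ψ i x ∉ B n := by
    intro x
    have hfin' : (e '' {y | Adj x y}).Finite := (hfin x).image e
    have hx : e x ∈ (e '' {y | Adj x y})ᶜ := by
      rintro ⟨y, hy, hxy⟩
      rw [he.injective hxy] at hy
      exact hirr x hy
    have hopen : IsOpen (e '' {y | Adj x y})ᶜ := hfin'.isClosed.isOpen_compl
    obtain ⟨ε, hε, hball⟩ := Metric.isOpen_iff.1 hopen (e x) hx
    obtain ⟨a, ha1, ha2⟩ := exists_rat_btwn (show e x - ε < e x by linarith)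
    obtain ⟨b, hb1, hb2⟩ := exists_rat_btwn (show e x < e x + ε by linarith)
    obtain ⟨n, hn⟩ := hf (a, b)
    refine ⟨n, ?_, ?_⟩
    · simp only [B, hn, mem_ofPred_eq]
      exact ⟨ha2, hb1⟩
    · intro i hi hmem
      simp only [B, hn, mem_ofPred_eq] at hmem
      have : e (ψ i x) ∈ Metric.ball (e x) ε := by
        rw [Metric.mem_ball, Real.dist_eq, abs_lt]
        constructor <;> linarith [hmem.1, hmem.2]
      exact hball this ⟨ψ i x, hi, rfl⟩
  let c : X → ℕ := fun x => Nat.find (hex x)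
  have hcs : ∀ x, x ∈ B (c x) ∧ ∀ i, Adj x (ψ i x) → ψ i x ∉ B (c x) := fun x => Nat.find_spec (hex x)
  have hadjm : ∀ i, MeasurableSet {x | Adj x (ψ i x)} := fun i =>
    hAm.preimage (measurable_id.prodMk (hψ i))
  have hstep : ∀ S : Set X, MeasurableSet S → MeasurableSet {x | ∀ i, Adj x (ψ i x) → ψ i x ∉ S} := by
    intro S hS
    have : {x | ∀ i, Adj x (ψ i x) → ψ i x ∉ S} = ⋂ i, ({x | Adj x (ψ i x)}ᶜ ∪ (ψ i ⁻¹' S)ᶜ) := by
      ext x
      simp only [mem_ofPred_eq, mem_iInter, mem_union, mem_compl_iff, mem_preimage, imp_iff_not_or]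
    rw [this]
    exact MeasurableSet.iInter fun i => (hadjm i).compl.union (hψ i hS).compl
  have hcm : Measurable c := by
    apply measurable_find
    intro n
    exact (hBm n).inter (hstep (B n) (hBm n))
  let S : ℕ → Set X := fun n => Nat.rec ∅ (fun k Sk => Sk ∪ ({x | c x = k} ∩ {x | ∀ i, Adj x (ψ i x) → ψ i x ∉ Sk})) n
  have hS0 : S 0 = ∅ := rfl
  have hS1 : ∀ n, S (n+1) = S n ∪ ({x | c x = n} ∩ {x | ∀ i, Adj x (ψ i x) → ψ i x ∉ S n}) := fun n => rfl
  have hSm : ∀ n, MeasurableSet (S n) := by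
    intro n
    induction n with
    | zero => rw [hS0]; exact MeasurableSet.empty
    | succ n ih =>
      rw [hS1]
      exact ih.union ((hcm (measurableSet_singleton n)).inter (hstep _ ih))
  have hchar : ∀ n x, x ∈ S n ↔ c x < n ∧ ∀ i, Adj x (ψ i x) → ψ i x ∉ S (c x) := by
    intro n x
    induction n with
    | zero => simp [hS0]
    | succ n ih =>
      rw [hS1, mem_union, ih]
      simp only [mem_inter_iff, mem_ofPred_eq]
      constructor
      · rintro (⟨h1, h2⟩ | ⟨h1, h2⟩)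
        · exact ⟨by omega, h2⟩
        · exact ⟨by omega, by rw [h1]; exact h2⟩
      · rintro ⟨h1, h2⟩
        rcases Nat.lt_succ_iff_lt_or_eq.1 h1 with h | h
        · exact Or.inl ⟨h, h2⟩
        · exact Or.inr ⟨h, by rw [← h]; exact h2⟩
  refine ⟨⋃ n, S n, MeasurableSet.iUnion hSm, ?_, ?_⟩
  · intro x hx y hy hxy
    rw [mem_iUnion] at hx hy
    obtain ⟨n, hx⟩ := hx
    obtain ⟨m, hy⟩ := hy
    obtain ⟨_, hx⟩ := (hchar n x).1 hx
    obtain ⟨_, hy⟩ := (hchar m y).1 hy
    obtain ⟨i, rfl⟩ := hen x y hxy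
    obtain ⟨j, hj⟩ := hen _ _ (hsymm _ _ hxy)
    have hne : c x ≠ c (ψ i x) := by
      intro heq
      have h1 := (hcs x).2 i hxy
      have h2 := (hcs (ψ i x)).1
      rw [← heq] at h2
      exact h1 h2
    rcases lt_or_gt_of_ne hne with h | h
    · refine hy j (by rw [hj]; exact hsymm _ _ hxy) ?_
      rw [hj]
      exact (hchar _ x).2 ⟨h, hx⟩
    · exact hx i hxy ((hchar _ _).2 ⟨h, hy⟩)
  · intro x
    rcases Classical.em (∀ i : ℕ, Adj x (ψ i x) → ψ i x ∉ S (c x)) with hx | hx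
    · left
      rw [mem_iUnion]
      exact ⟨c x + 1, (hchar (c x + 1) x).2 ⟨Nat.lt_succ_self _, hx⟩⟩
    · right
      push Not at hx
      obtain ⟨i, h1, h2⟩ := hx
      exact ⟨ψ i x, mem_iUnion.2 ⟨_, h2⟩, h1⟩

end SMaxInd

/-! ### The space of discrete sets -/

theorem DiscSet.ext {S T : DiscSet} (h : S.1 = T.1) : S = T := Subtype.ext h

theorem measurableSet_hit {U : Set ℂ} (hU : IsOpen U) :
    MeasurableSet {S : DiscSet | (S.1 ∩ U).Nonempty} :=
  MeasurableSpace.measurableSet_generateFrom ⟨U, hU, rfl⟩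

theorem DiscSet.finite_inter (S : DiscSet) (R : ℝ) : (S.1 ∩ Metric.closedBall 0 R).Finite := by
  by_contra h
  obtain ⟨x, _, hx⟩ := Set.Infinite.exists_accPt_of_subset_isCompact (s := S.1 ∩ Metric.closedBall 0 R)
    h (isCompact_closedBall (0 : ℂ) R) inter_subset_right
  exact S.2.2 x (hx.mono (principal_mono.2 inter_subset_left))

theorem disc_of_finite {S : Set ℂ} (h : ∀ R : ℝ, (S ∩ Metric.closedBall 0 R).Finite) :
    IsClosed S ∧ ∀ z : ℂ, ¬ AccPt z (𝓟 S) := by
  have hacc : ∀ z : ℂ, ¬ AccPt z (𝓟 S) := by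
    intro z hz
    rw [accPt_iff_nhds] at hz
    have hfin := h (‖z‖ + 1)
    have hfin' : ((S ∩ Metric.closedBall 0 (‖z‖ + 1)) \ {z}).Finite := hfin.subset sdiff_subset
    have hopen : IsOpen ((S ∩ Metric.closedBall 0 (‖z‖ + 1)) \ {z})ᶜ := hfin'.isClosed.isOpen_compl
    have hmem : z ∈ ((S ∩ Metric.closedBall 0 (‖z‖ + 1)) \ {z})ᶜ := by simp
    have hU : Metric.ball z 1 ∩ ((S ∩ Metric.closedBall 0 (‖z‖ + 1)) \ {z})ᶜ ∈ 𝓝 z :=
      inter_mem (Metric.ball_mem_nhds z one_pos) (hopen.mem_nhds hmem)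
    obtain ⟨y, ⟨⟨hy1, hy2⟩, hy3⟩, hy4⟩ := hz _ hU
    apply hy2
    refine ⟨⟨hy3, ?_⟩, hy4⟩
    rw [Metric.mem_closedBall, dist_zero_right]
    rw [Metric.mem_ball, dist_eq_norm] at hy1
    have := norm_sub_norm_le y z
    linarith
  refine ⟨?_, hacc⟩
  rw [isClosed_iff_derivedSet_subset]
  intro z hz
  exact absurd hz (hacc z)

theorem DiscSet.isolated (S : DiscSet) (z : ℂ) : ∃ ε > 0, ∀ w ∈ S.1, dist w z < ε → w = z := by
  have h := S.2.2 z
  rw [accPt_iff_nhds] at h
  push Not at h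
  obtain ⟨U, hU, h⟩ := h
  obtain ⟨ε, hε, hb⟩ := Metric.mem_nhds_iff.1 hU
  exact ⟨ε, hε, fun w hw hd => h w ⟨hb hd, hw⟩⟩

theorem exists_basis_seq : ∃ U : ℕ → Set ℂ, (∀ n, IsOpen (U n)) ∧
    ∀ (z : ℂ) (V : Set ℂ), IsOpen V → z ∈ V → ∃ n, z ∈ U n ∧ U n ⊆ V := by
  obtain ⟨b, hbc, _, hb⟩ := TopologicalSpace.exists_countable_basis ℂ
  have hne : b.Nonempty := by
    obtain ⟨u, hu, _⟩ := hb.exists_subset_of_mem_open (mem_univ (0 : ℂ)) isOpen_univ
    exact ⟨u, hu⟩
  obtain ⟨U, hU⟩ := hbc.exists_eq_range hne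
  refine ⟨U, fun n => hb.isOpen (hU ▸ mem_range_self n), ?_⟩
  intro z V hV hz
  obtain ⟨u, hu, h1, h2⟩ := hb.exists_subset_of_mem_open hz hV
  rw [hU] at hu
  obtain ⟨n, rfl⟩ := hu
  exact ⟨n, h1, h2⟩

/-- a countable basis -/
noncomputable def bU : ℕ → Set ℂ := exists_basis_seq.choose

theorem isOpen_bU (n : ℕ) : IsOpen (bU n) := exists_basis_seq.choose_spec.1 n

theorem exists_bU (z : ℂ) (V : Set ℂ) (hV : IsOpen V) (hz : z ∈ V) : ∃ n, z ∈ bU n ∧ bU n ⊆ V :=
  exists_basis_seq.choose_spec.2 z V hV hz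

/-- the `n`-th basic set contains exactly one point of `S` -/
def valid (n : ℕ) (S : DiscSet) : Prop := ∃! z, z ∈ S.1 ∩ bU n

open Classical in
/-- this point -/
noncomputable def pt (n : ℕ) (S : DiscSet) : ℂ := if h : valid n S then h.choose else 0

theorem pt_spec {n : ℕ} {S : DiscSet} (h : valid n S) :
    pt n S ∈ S.1 ∩ bU n ∧ ∀ w ∈ S.1 ∩ bU n, w = pt n S := by
  unfold pt
  rw [dif_pos h]
  exact h.choose_spec

theorem pt_mem {n : ℕ} {S : DiscSet} (h : valid n S) : pt n S ∈ S.1 := (pt_spec h).1.1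

theorem exists_pt {S : DiscSet} {z : ℂ} (hz : z ∈ S.1) : ∃ n, valid n S ∧ pt n S = z := by
  obtain ⟨ε, hε, h⟩ := S.isolated z
  obtain ⟨n, h1, h2⟩ := exists_bU z (Metric.ball z ε) Metric.isOpen_ball (Metric.mem_ball_self hε)
  have hv : valid n S := ⟨z, ⟨hz, h1⟩, fun w hw => h w hw.1 (h2 hw.2)⟩
  exact ⟨n, hv, ((pt_spec hv).2 z ⟨hz, h1⟩).symm⟩

theorem measurableSet_valid (n : ℕ) : MeasurableSet {S | valid n S} := by
  have : {S | valid n S} = {S : DiscSet | (S.1 ∩ bU n).Nonempty} ∩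
      ⋂ a, ⋂ b, ⋂ (_ : Disjoint (bU a) (bU b) ∧ bU a ⊆ bU n ∧ bU b ⊆ bU n),
        ({S : DiscSet | (S.1 ∩ bU a).Nonempty} ∩ {S : DiscSet | (S.1 ∩ bU b).Nonempty})ᶜ := by
    ext S
    simp only [mem_ofPred_eq, mem_inter_iff, mem_iInter, mem_compl_iff, not_and]
    constructor
    · rintro ⟨z, hz, huniq⟩
      refine ⟨⟨z, hz⟩, ?_⟩
      rintro a b ⟨hab, ha, hb⟩ ⟨x, hx⟩ ⟨y, hy⟩
      have h1 := huniq x ⟨hx.1, ha hx.2⟩
      have h2 := huniq y ⟨hy.1, hb hy.2⟩
      rw [h1] at hx
      rw [h2] at hy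
      exact Set.disjoint_left.1 hab hx.2 hy.2
    · rintro ⟨⟨z, hz⟩, h⟩
      refine ⟨z, hz, ?_⟩
      intro w hw
      by_contra hne
      obtain ⟨V, W, hV, hW, hzV, hwW, hdis⟩ := t2_separation hne
      obtain ⟨a, ha1, ha2⟩ := exists_bU w (V ∩ bU n) (hV.inter (isOpen_bU n)) ⟨hzV, hw.2⟩
      obtain ⟨b, hb1, hb2⟩ := exists_bU z (W ∩ bU n) (hW.inter (isOpen_bU n)) ⟨hwW, hz.2⟩
      exact h a b ⟨hdis.mono (ha2.trans inter_subset_left) (hb2.trans inter_subset_left),
        ha2.trans inter_subset_right, hb2.trans inter_subset_right⟩ ⟨w, hw.1, ha1⟩ ⟨z, hz.1, hb1⟩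
  rw [this]
  refine (measurableSet_hit (isOpen_bU n)).inter ?_
  refine MeasurableSet.iInter fun a => MeasurableSet.iInter fun b => MeasurableSet.iInter fun _ => ?_
  exact ((measurableSet_hit (isOpen_bU a)).inter (measurableSet_hit (isOpen_bU b))).compl

theorem measurable_pt (n : ℕ) : Measurable (pt n) := by
  apply measurable_of_isOpen
  intro V hV
  have : pt n ⁻¹' V = ({S | valid n S} ∩ {S : DiscSet | (S.1 ∩ (bU n ∩ V)).Nonempty}) ∪
      ({S | valid n S}ᶜ ∩ {S | (0 : ℂ) ∈ V}) := by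
    ext S
    simp only [mem_preimage, mem_union, mem_inter_iff, mem_ofPred_eq, mem_compl_iff]
    by_cases h : valid n S
    · simp only [h, true_and, not_true_eq_false, false_and, or_false]
      constructor
      · intro hV'
        exact ⟨pt n S, (pt_spec h).1.1, (pt_spec h).1.2, hV'⟩
      · rintro ⟨w, h1, h2, h3⟩
        rw [← (pt_spec h).2 w ⟨h1, h2⟩]
        exact h3
    · simp only [h, false_and, not_false_eq_true, true_and, false_or]
      unfold pt
      rw [dif_neg h]
  rw [this]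
  exact ((measurableSet_valid n).inter (measurableSet_hit ((isOpen_bU n).inter hV))).union
    ((measurableSet_valid n).compl.inter (MeasurableSet.const _))

/-- measurability criterion for maps into `DiscSet` -/
theorem measurable_to_disc {Y : Type*} [MeasurableSpace Y] {f : Y → DiscSet}
    (h : ∀ U : Set ℂ, IsOpen U → MeasurableSet {y | ((f y).1 ∩ U).Nonempty}) : Measurable f := by
  apply measurable_generateFrom
  rintro A ⟨U, hU, rfl⟩
  exact h U hU

/-! ### coding by sequences -/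

/-- the set coded by a sequence -/
def dset (x : ℕ → ℂ × Bool) : Set ℂ := {z | ∃ n, (x n).2 = true ∧ (x n).1 = z}

/-- locally finite codes -/
def Lcode : Set (ℕ → ℂ × Bool) :=
  {x | ∀ R : ℕ, ∃ K : ℕ, ∀ i, (x i).2 = true → ‖(x i).1‖ ≤ R →
    ∃ j, j ≤ K ∧ (x j).2 = true ∧ (x j).1 = (x i).1}

theorem measurableSet_Lcode : MeasurableSet Lcode := by
  have : Lcode = ⋂ R : ℕ, ⋃ K : ℕ, ⋂ i, ({x : ℕ → ℂ × Bool | (x i).2 = true}ᶜ ∪
      ({x : ℕ → ℂ × Bool | ‖(x i).1‖ ≤ R}ᶜ ∪
        ⋃ j, ({x : ℕ → ℂ × Bool | j ≤ K} ∩ ({x : ℕ → ℂ × Bool | (x j).2 = true} ∩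
          {x : ℕ → ℂ × Bool | (x j).1 = (x i).1})))) := by
    ext x
    simp only [Lcode, mem_ofPred_eq, mem_iInter, mem_iUnion, mem_union, mem_compl_iff, mem_inter_iff,
      imp_iff_not_or]
  rw [this]
  have hb : ∀ i, MeasurableSet {x : ℕ → ℂ × Bool | (x i).2 = true} := fun i =>
    (measurable_snd.comp (measurable_pi_apply i)) (measurableSet_singleton true)
  have hc : ∀ i, Measurable (fun x : ℕ → ℂ × Bool => (x i).1) := fun i =>
    measurable_fst.comp (measurable_pi_apply i)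
  refine MeasurableSet.iInter fun R => MeasurableSet.iUnion fun K => MeasurableSet.iInter fun i => ?_
  refine (hb i).compl.union (MeasurableSet.union ?_ ?_)
  · exact (measurableSet_le (measurable_norm.comp (hc i)) measurable_const).compl
  · exact MeasurableSet.iUnion fun j => (MeasurableSet.const _).inter
      ((hb j).inter (measurableSet_eq_fun (hc j) (hc i)))

theorem dset_disc {x : ℕ → ℂ × Bool} (hx : x ∈ Lcode) :
    IsClosed (dset x) ∧ ∀ z : ℂ, ¬ AccPt z (𝓟 (dset x)) := by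
  apply disc_of_finite
  intro R
  obtain ⟨n, hn⟩ := exists_nat_ge R
  obtain ⟨K, hK⟩ := hx n
  refine Set.Finite.subset ((Set.finite_Iic K).image (fun j => (x j).1)) ?_
  rintro z ⟨⟨i, hi, rfl⟩, hz⟩
  rw [Metric.mem_closedBall, dist_zero_right] at hz
  obtain ⟨j, hj, _, h⟩ := hK i hi (hz.trans hn)
  exact ⟨j, hj, h⟩

/-- decoding -/
def decode (x : Lcode) : DiscSet := ⟨dset x.1, dset_disc x.2⟩

theorem measurable_decode : Measurable decode := by
  apply measurable_to_disc
  intro U hU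
  have : {y : Lcode | ((decode y).1 ∩ U).Nonempty} =
      ⋃ n, ({y : Lcode | (y.1 n).2 = true} ∩ {y : Lcode | (y.1 n).1 ∈ U}) := by
    ext y
    simp only [mem_ofPred_eq, mem_iUnion, mem_inter_iff]
    constructor
    · rintro ⟨z, ⟨n, h1, rfl⟩, h2⟩
      exact ⟨n, h1, h2⟩
    · rintro ⟨n, h1, h2⟩
      exact ⟨_, ⟨n, h1, rfl⟩, h2⟩
  rw [this]
  have hc : ∀ n, Measurable (fun x : ℕ → ℂ × Bool => x n) := fun n => measurable_pi_apply n
  refine MeasurableSet.iUnion fun n => MeasurableSet.inter ?_ ?_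
  · exact ((measurable_snd.comp (hc n)).comp measurable_subtype_coe)
      (measurableSet_singleton true)
  · exact ((measurable_fst.comp (hc n)).comp measurable_subtype_coe) hU.measurableSet

open Classical in
/-- the code of a set -/
noncomputable def code (S : DiscSet) : ℕ → ℂ × Bool := fun n => (pt n S, decide (valid n S))

theorem measurable_code : Measurable code := by
  classical
  rw [measurable_pi_iff]
  intro n
  refine (measurable_pt n).prodMk ?_
  apply measurable_to_bool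
  convert measurableSet_valid n using 1
  ext S; simp

theorem dset_code (S : DiscSet) : dset (code S) = S.1 := by
  ext z
  simp only [dset, code, mem_ofPred_eq, decide_eq_true_eq]
  constructor
  · rintro ⟨n, h, rfl⟩
    exact pt_mem h
  · intro hz
    exact exists_pt hz

theorem code_mem (S : DiscSet) : code S ∈ Lcode := by
  intro R
  have hfin := S.finite_inter R
  choose! f hf using fun z (hz : z ∈ S.1 ∩ Metric.closedBall 0 R) => exists_pt hz.1
  obtain ⟨K, hK⟩ := (hfin.image f).bddAbove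
  refine ⟨K, ?_⟩
  intro i hi hi2
  simp only [code, decide_eq_true_eq] at hi hi2 ⊢
  have hm : pt i S ∈ S.1 ∩ Metric.closedBall 0 R := ⟨pt_mem hi, by simpa using hi2⟩
  exact ⟨f (pt i S), hK ⟨_, hm, rfl⟩, (hf _ hm).1, (hf _ hm).2⟩

theorem decode_code (S : DiscSet) : decode ⟨code S, code_mem S⟩ = S :=
  DiscSet.ext (dset_code S)

/-- transfer of standard Borel structure -/
theorem standardBorel_of_equiv {α β : Type*} [MeasurableSpace α] [MeasurableSpace β]
    [StandardBorelSpace β] (e : α ≃ᵐ β) : StandardBorelSpace α := by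
  let := upgradeStandardBorel β
  let τ : TopologicalSpace α := TopologicalSpace.induced e inferInstance
  have hcl : IsClosedEmbedding e := by
    refine ⟨⟨⟨rfl⟩, e.injective⟩, ?_⟩
    rw [e.surjective.range_eq]
    exact isClosed_univ
  have hp : PolishSpace α := hcl.polishSpace
  have hb : BorelSpace α := by
    constructor
    rw [borel_comap]
    exact e.measurableEmbedding.comap_eq.symm.trans
      (congrArg (MeasurableSpace.comap e) BorelSpace.measurable_eq)
  exact ⟨τ, hb, hp⟩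

instance instSB : StandardBorelSpace DiscSet := by
  have hLsb : MeasurableSet {y : Lcode | code (decode y) = y.1} :=
    measurableSet_eq_fun (measurable_code.comp measurable_decode) measurable_subtype_coe
  have hZ : MeasurableSet (Subtype.val '' {y : Lcode | code (decode y) = y.1} : Set (ℕ → ℂ × Bool)) :=
    measurableSet_Lcode.subtype_image hLsb
  have hmem : ∀ S : DiscSet, code S ∈ (Subtype.val '' {y : Lcode | code (decode y) = y.1} : Set (ℕ → ℂ × Bool)) := by
    intro S
    refine ⟨⟨code S, code_mem S⟩, ?_, rfl⟩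
    simp only [mem_ofPred_eq, decode_code]
  have hmem' : ∀ x ∈ (Subtype.val '' {y : Lcode | code (decode y) = y.1} : Set (ℕ → ℂ × Bool)),
      x ∈ Lcode := by
    rintro _ ⟨y, _, rfl⟩
    exact y.2
  have := hZ.standardBorel
  refine standardBorel_of_equiv (β := (Subtype.val '' {y : Lcode | code (decode y) = y.1} : Set (ℕ → ℂ × Bool)))
    { toFun := fun S => ⟨code S, hmem S⟩
      invFun := fun x => decode ⟨x.1, hmem' x.1 x.2⟩
      left_inv := fun S => decode_code S
      right_inv := ?_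
      measurable_toFun := measurable_code.subtype_mk
      measurable_invFun := measurable_decode.comp (measurable_subtype_coe.subtype_mk) }
  rintro ⟨x, y, hy, rfl⟩
  exact Subtype.ext hy

/-! ### Complex analysis -/

theorem removable_limit {f : ℂ → ℂ} {c : ℂ} (hd : ∀ᶠ z in 𝓝[≠] c, DifferentiableAt ℂ f z)
    {C : ℝ} (hb : ∀ᶠ z in 𝓝[≠] c, ‖f z‖ ≤ C) : ∃ l, Tendsto f (𝓝[≠] c) (𝓝 l) := by
  refine ⟨_, Complex.tendsto_limUnder_of_differentiable_on_punctured_nhds_of_bounded_under hd ?_⟩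
  refine ⟨C + ‖f c‖, ?_⟩
  rw [eventually_map]
  filter_upwards [hb] with z hz
  exact norm_sub_le_of_le hz le_rfl

theorem differentiableAt_update {f : ℂ → ℂ} {c l : ℂ}
    (hd : ∀ᶠ z in 𝓝[≠] c, DifferentiableAt ℂ f z) (hl : Tendsto f (𝓝[≠] c) (𝓝 l)) :
    DifferentiableAt ℂ (update f c l) c := by
  rw [eventually_nhdsWithin_iff] at hd
  set s : Set ℂ := {z | z ≠ c → DifferentiableAt ℂ f z} with hs
  have hsn : s ∈ 𝓝 c := hd
  have h1 : DifferentiableOn ℂ (update f c l) (s \ {c}) := by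
    intro z hz
    have h2 : DifferentiableAt ℂ f z := hz.1 hz.2
    have h3 : update f c l =ᶠ[𝓝 z] f := by
      filter_upwards [isOpen_ne.mem_nhds hz.2] with w hw
      exact update_of_ne hw _ _
    exact (h3.differentiableAt_iff.2 h2).differentiableWithinAt
  have h2 : ContinuousAt (update f c l) c := continuousAt_update_same.2 hl
  exact ((Complex.differentiableOn_compl_singleton_and_continuousAt_iff hsn).1 ⟨h1, h2⟩).differentiableAt hsn

theorem affine_of_injective_aux {H : ℂ → ℂ} (hH : Differentiable ℂ H) (hinj : Injective H)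
    (h0 : H 0 = 0) (hd0 : deriv H 0 ≠ 0) : ∃ a, a ≠ 0 ∧ ∀ z, H z = a * z := by
  have hne : ∀ z, z ≠ 0 → H z ≠ 0 := fun z hz h => hz (hinj (h.trans h0.symm))
  -- openness
  have hopen : IsOpenMap H := by
    have han : AnalyticOnNhd ℂ H univ := fun z _ => hH.analyticAt z
    rcases han.is_constant_or_isOpenMap with ⟨w, hw⟩ | h
    · exact absurd (hinj ((hw 0).trans (hw 1).symm)) zero_ne_one
    · exact h
  obtain ⟨ε, hε, hball⟩ : ∃ ε > 0, ∀ z : ℂ, 1 ≤ ‖z‖ → ε ≤ ‖H z‖ := by
    have h1 : H '' Metric.ball 0 1 ∈ 𝓝 (H 0) :=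
      (hopen _ Metric.isOpen_ball).mem_nhds (mem_image_of_mem _ (Metric.mem_ball_self one_pos))
    rw [h0] at h1
    obtain ⟨ε, hε, hb⟩ := Metric.mem_nhds_iff.1 h1
    refine ⟨ε, hε, fun z hz => ?_⟩
    by_contra hlt
    push Not at hlt
    obtain ⟨w, hw, hwz⟩ := hb (show H z ∈ Metric.ball 0 ε by simpa using hlt)
    rw [hinj hwz] at hw
    simp at hw
    linarith
  set K : ℂ → ℂ := fun z => (dslope H 0 z)⁻¹ with hK
  have hds : Differentiable ℂ (dslope H 0) := by
    rw [← differentiableOn_univ]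
    exact (Complex.differentiableOn_dslope univ_mem).2 hH.differentiableOn
  have hKz : ∀ z, z ≠ 0 → K z = z * (H z)⁻¹ := by
    intro z hz
    simp only [hK]
    rw [dslope_of_ne _ hz, slope_def_field, h0]
    simp [div_eq_mul_inv]
  have hdne : ∀ z, dslope H 0 z ≠ 0 := by
    intro z
    by_cases hz : z = 0
    · rw [hz, dslope_same]; exact hd0
    · rw [dslope_of_ne _ hz, slope_def_field, h0, sub_zero, sub_zero]
      exact div_ne_zero (hne z hz) hz
  have hKd : Differentiable ℂ K := fun z => (hds z).inv (hdne z)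
  set G : ℂ → ℂ := fun ζ => (H ζ⁻¹)⁻¹ with hG
  have hGd : ∀ ζ, ζ ≠ 0 → DifferentiableAt ℂ G ζ := by
    intro ζ hζ
    exact ((hH _).comp ζ (differentiableAt_inv hζ)).inv (hne _ (inv_ne_zero hζ))
  have hGd' : ∀ᶠ ζ in 𝓝[≠] (0:ℂ), DifferentiableAt ℂ G ζ := by
    filter_upwards [self_mem_nhdsWithin] with ζ hζ
    exact hGd ζ hζ
  have hGb : ∀ᶠ ζ in 𝓝[≠] (0:ℂ), ‖G ζ‖ ≤ ε⁻¹ := by
    have h1 : Metric.ball (0:ℂ) 1 ∈ 𝓝[≠] (0:ℂ) := mem_nhdsWithin_of_mem_nhds (Metric.ball_mem_nhds _ one_pos)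
    filter_upwards [self_mem_nhdsWithin, h1] with ζ hζ hζ1
    have h2 : ‖ζ‖ < 1 := by simpa using hζ1
    have h3 : 0 < ‖ζ‖ := norm_pos_iff.2 hζ
    have h4 : 1 ≤ ‖ζ⁻¹‖ := by
      rw [norm_inv]
      exact (one_le_inv₀ h3).2 h2.le
    simp only [hG, norm_inv]
    exact inv_anti₀ hε (hball _ h4)
  obtain ⟨c, hc⟩ := removable_limit hGd' hGb
  by_cases hc0 : c = 0
  · subst hc0
    have hd := (differentiableAt_update hGd' hc).hasDerivAt
    rw [hasDerivAt_iff_tendsto_slope] at hd
    set d := deriv (update G 0 0) 0 with hdd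
    have h1 : Tendsto K (cobounded ℂ) (𝓝 d) := by
      have h2 : Tendsto (fun z : ℂ => slope (update G 0 0) 0 z⁻¹) (cobounded ℂ) (𝓝 d) :=
        hd.comp tendsto_inv₀_cobounded'
      refine h2.congr' ?_
      have h3 : ∀ᶠ z : ℂ in cobounded ℂ, z ≠ 0 := eventually_ne_cobounded 0
      filter_upwards [h3] with z hz
      rw [hKz z hz, slope_def_field, update_self, update_of_ne (inv_ne_zero hz)]
      simp [hG, mul_comm]
    rw [Metric.cobounded_eq_cocompact] at h1
    have h5 : ∀ z, K z = d := fun z => hKd.apply_eq_of_tendsto_cocompact z h1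
    have hdne0 : d ≠ 0 := by
      rw [← h5 0]
      exact inv_ne_zero (hdne 0)
    refine ⟨d⁻¹, inv_ne_zero hdne0, fun z => ?_⟩
    by_cases hz : z = 0
    · rw [hz, h0, mul_zero]
    · have h6 := h5 z
      rw [hKz z hz] at h6
      have h7 := hne z hz
      field_simp at h6 ⊢
      linear_combination (-1 : ℂ) * h6
  · exfalso
    have h1 : Tendsto H (cobounded ℂ) (𝓝 c⁻¹) := by
      have h2 : Tendsto (fun z : ℂ => (G z⁻¹)⁻¹) (cobounded ℂ) (𝓝 c⁻¹) :=
        (hc.comp tendsto_inv₀_cobounded').inv₀ hc0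
      refine h2.congr ?_
      intro z
      simp [hG]
    rw [Metric.cobounded_eq_cocompact] at h1
    have h5 : ∀ z, H z = c⁻¹ := fun z => hH.apply_eq_of_tendsto_cocompact z h1
    exact zero_ne_one (hinj ((h5 0).trans (h5 1).symm))

/-- an injective entire function is affine -/
theorem affine_of_injective {F : ℂ → ℂ} (hF : Differentiable ℂ F) (hinj : Injective F) :
    ∃ a b, a ≠ 0 ∧ ∀ z, F z = a * z + b := by
  obtain ⟨z₁, hz₁⟩ : ∃ z₁, deriv F z₁ ≠ 0 := by
    by_contra h
    push Not at h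
    have := is_const_of_deriv_eq_zero hF h 0 1
    exact zero_ne_one (hinj this)
  have h1 : Differentiable ℂ (fun z => F (z₁ + z) - F z₁) := by fun_prop
  have h2 : Injective (fun z => F (z₁ + z) - F z₁) := by
    intro x y hxy
    simp only [sub_left_inj] at hxy
    exact add_left_cancel (hinj hxy)
  have h3 : deriv (fun z => F (z₁ + z) - F z₁) 0 ≠ 0 := by
    rw [deriv_sub_const, deriv_comp_const_add, add_zero]
    exact hz₁
  obtain ⟨a, ha, h⟩ := affine_of_injective_aux h1 h2 (by simp) h3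
  refine ⟨a, F z₁ - a * z₁, ha, fun z => ?_⟩
  have := h (z - z₁)
  simp only [add_sub_cancel] at this
  linear_combination this

theorem injective_of_injOn_compl_countable {F : ℂ → ℂ} (hF : Differentiable ℂ F) {S : Set ℂ}
    (hS : S.Countable) (hinj : InjOn F Sᶜ) : Injective F := by
  have hopen : IsOpenMap F := by
    have han : AnalyticOnNhd ℂ F univ := fun z _ => hF.analyticAt z
    rcases han.is_constant_or_isOpenMap with ⟨w, hw⟩ | h
    · exfalso
      have h1 : Dense Sᶜ := hS.dense_compl ℂ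
      obtain ⟨x, hx⟩ := h1.nonempty
      have h2 : Dense (S ∪ {x})ᶜ := (hS.union (countable_singleton x)).dense_compl ℂ
      obtain ⟨y, hy⟩ := h2.nonempty
      have hyS : y ∈ Sᶜ := fun h => hy (Or.inl h)
      exact hy (Or.inr (hinj hyS hx ((hw y).trans (hw x).symm)))
    · exact h
  intro a b hab
  by_contra hne
  obtain ⟨A, B, hA, hB, haA, hbB, hdis⟩ := t2_separation hne
  have h1 : IsOpen (F '' A ∩ F '' B) := (hopen A hA).inter (hopen B hB)
  have h2 : (F '' A ∩ F '' B).Nonempty := ⟨F a, ⟨a, haA, rfl⟩, ⟨b, hbB, hab.symm⟩⟩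
  have h3 : Dense (F '' S)ᶜ := (hS.image F).dense_compl ℂ
  obtain ⟨w, ⟨⟨a', ha', haw⟩, ⟨b', hb', hbw⟩⟩, hw2⟩ := h3.inter_open_nonempty _ h1 h2
  have ha'S : a' ∈ Sᶜ := fun h => hw2 ⟨a', h, haw⟩
  have hb'S : b' ∈ Sᶜ := fun h => hw2 ⟨b', h, hbw⟩
  have := hinj ha'S hb'S (haw.trans hbw.symm)
  rw [this] at ha'
  exact Set.disjoint_left.1 hdis ha' hb'

theorem DiscSet.countable (S : DiscSet) : S.1.Countable := by
  have : S.1 = ⋃ n : ℕ, (S.1 ∩ Metric.closedBall 0 n) := by
    ext z
    simp only [mem_iUnion, mem_inter_iff, exists_and_left]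
    constructor
    · intro hz
      obtain ⟨n, hn⟩ := exists_nat_ge ‖z‖
      exact ⟨hz, n, by simpa using hn⟩
    · rintro ⟨hz, _⟩
      exact hz
  rw [this]
  exact countable_iUnion fun n => (S.finite_inter n).countable

section
variable {S T : DiscSet} {f g : ℂ → ℂ}

theorem eventually_notMem (S : DiscSet) (p : ℂ) : ∀ᶠ z in 𝓝[≠] p, z ∈ S.1ᶜ := by
  obtain ⟨ε, hε, h⟩ := S.isolated p
  have h1 : Metric.ball p ε ∈ 𝓝[≠] p := mem_nhdsWithin_of_mem_nhds (Metric.ball_mem_nhds _ hε)
  filter_upwards [self_mem_nhdsWithin, h1] with z hz hz1 hzS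
  exact hz (h z hzS hz1)

theorem diffAt_of_notMem (hf : DifferentiableOn ℂ f S.1ᶜ) {z : ℂ} (hz : z ∈ S.1ᶜ) :
    DifferentiableAt ℂ f z :=
  hf.differentiableAt (S.2.1.isOpen_compl.mem_nhds hz)

theorem sing_dichotomy (hf : DifferentiableOn ℂ f S.1ᶜ) (hg : DifferentiableOn ℂ g T.1ᶜ)
    (hfm : MapsTo f S.1ᶜ T.1ᶜ) (hgf : ∀ z ∈ S.1ᶜ, g (f z) = z) (p : ℂ) :
    (∃ l, Tendsto f (𝓝[≠] p) (𝓝 l)) ∨ Tendsto f (𝓝[≠] p) (cobounded ℂ) := by
  obtain ⟨ε, hε, h⟩ := S.isolated p
  set z₀ : ℂ := p + (ε / 2 : ℝ) with hz₀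
  have hd0 : dist z₀ p = ε / 2 := by
    rw [dist_eq_norm, hz₀, add_sub_cancel_left, Complex.norm_real, Real.norm_of_nonneg (by positivity)]
  have hz₀S : z₀ ∈ S.1ᶜ := by
    intro hS
    have h1 := h z₀ hS (by rw [hd0]; linarith)
    rw [h1, dist_self] at hd0
    linarith
  have hW : IsOpen (T.1ᶜ ∩ g ⁻¹' Metric.ball z₀ (ε / 4)) :=
    hg.continuousOn.isOpen_inter_preimage T.2.1.isOpen_compl Metric.isOpen_ball
  have hfz₀ : f z₀ ∈ T.1ᶜ ∩ g ⁻¹' Metric.ball z₀ (ε / 4) := by
    refine ⟨hfm hz₀S, ?_⟩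
    rw [mem_preimage, hgf z₀ hz₀S]
    exact Metric.mem_ball_self (by positivity)
  obtain ⟨δ, hδ, hb⟩ := Metric.isOpen_iff.1 hW _ hfz₀
  have hnear : ∀ᶠ z in 𝓝[≠] p, z ∈ S.1ᶜ ∧ δ ≤ ‖f z - f z₀‖ := by
    have h1 : Metric.ball p (ε / 4) ∈ 𝓝[≠] p :=
      mem_nhdsWithin_of_mem_nhds (Metric.ball_mem_nhds _ (by positivity))
    filter_upwards [h1, eventually_notMem S p] with z hz1 hz2
    refine ⟨hz2, ?_⟩
    by_contra hlt
    push Not at hlt
    have h3 : f z ∈ Metric.ball (f z₀) δ := by rw [Metric.mem_ball, dist_eq_norm]; exact hlt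
    have h4 := (hb h3).2
    rw [mem_preimage, hgf z hz2, Metric.mem_ball] at h4
    rw [Metric.mem_ball] at hz1
    have h5 := dist_triangle z₀ z p
    rw [dist_comm z₀ z] at h5
    linarith
  set k : ℂ → ℂ := fun z => (f z - f z₀)⁻¹ with hk
  have hkd : ∀ᶠ z in 𝓝[≠] p, DifferentiableAt ℂ k z := by
    filter_upwards [hnear] with z hz
    have h1 : f z - f z₀ ≠ 0 := by
      intro h0
      rw [h0, norm_zero] at hz
      linarith [hz.2]
    exact ((diffAt_of_notMem hf hz.1).sub_const _).inv h1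
  have hkb : ∀ᶠ z in 𝓝[≠] p, ‖k z‖ ≤ δ⁻¹ := by
    filter_upwards [hnear] with z hz
    simp only [hk, norm_inv]
    exact inv_anti₀ hδ hz.2
  obtain ⟨c, hc⟩ := removable_limit hkd hkb
  have hfk : ∀ z, f z = f z₀ + (k z)⁻¹ := by
    intro z
    simp [hk]
  by_cases hc0 : c = 0
  · right
    subst hc0
    have h1 : Tendsto k (𝓝[≠] p) (𝓝[≠] 0) := by
      rw [tendsto_nhdsWithin_iff]
      refine ⟨hc, ?_⟩
      filter_upwards [hnear] with z hz
      have h1 : f z - f z₀ ≠ 0 := by
        intro h0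
        rw [h0, norm_zero] at hz
        linarith [hz.2]
      exact inv_ne_zero h1
    have h2 : Tendsto (fun z => (k z)⁻¹) (𝓝[≠] p) (cobounded ℂ) :=
      (tendsto_inv₀_nhdsNE_zero).comp h1
    rw [← tendsto_norm_atTop_iff_cobounded] at h2 ⊢
    have h3 : Tendsto (fun z => ‖(k z)⁻¹‖ + (-‖f z₀‖)) (𝓝[≠] p) atTop :=
      tendsto_atTop_add_const_right _ _ h2
    refine tendsto_atTop_mono ?_ h3
    intro z
    have h4 := norm_sub_le (f z) (f z₀)
    have h5 : (k z)⁻¹ = f z - f z₀ := by simp [hk]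
    rw [h5]
    linarith
  · left
    refine ⟨f z₀ + c⁻¹, ?_⟩
    have h1 : Tendsto (fun z => f z₀ + (k z)⁻¹) (𝓝[≠] p) (𝓝 (f z₀ + c⁻¹)) :=
      tendsto_const_nhds.add (hc.inv₀ hc0)
    refine h1.congr ?_
    intro z
    exact (hfk z).symm

open Classical in
/-- extension over removable singularities -/
noncomputable def extF (S : DiscSet) (f : ℂ → ℂ) : ℂ → ℂ :=
  fun z => if z ∈ S.1 then limUnder (𝓝[≠] z) f else f z

theorem extF_of_notMem {z : ℂ} (hz : z ∈ S.1ᶜ) : extF S f z = f z := if_neg hz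

theorem extF_of_mem {z l : ℂ} (hz : z ∈ S.1) (hl : Tendsto f (𝓝[≠] z) (𝓝 l)) : extF S f z = l := by
  unfold extF
  rw [if_pos hz]
  exact hl.limUnder_eq

theorem extF_diff (hf : DifferentiableOn ℂ f S.1ᶜ) {z : ℂ}
    (hz : z ∈ S.1 → ∃ l, Tendsto f (𝓝[≠] z) (𝓝 l)) : DifferentiableAt ℂ (extF S f) z := by
  by_cases hzS : z ∈ S.1
  · obtain ⟨l, hl⟩ := hz hzS
    have h1 : ∀ᶠ w in 𝓝[≠] z, DifferentiableAt ℂ f w := by
      filter_upwards [eventually_notMem S z] with w hw
      exact diffAt_of_notMem hf hw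
    have h2 := differentiableAt_update h1 hl
    have h3 : extF S f =ᶠ[𝓝 z] update f z l := by
      have h4 := eventually_nhdsWithin_iff.1 (eventually_notMem S z)
      filter_upwards [h4] with w hw
      by_cases hwz : w = z
      · subst hwz
        rw [update_self, extF_of_mem hzS hl]
      · rw [update_of_ne hwz, extF_of_notMem (hw hwz)]
    exact h3.differentiableAt_iff.2 h2
  · have h3 : extF S f =ᶠ[𝓝 z] f := by
      filter_upwards [S.2.1.isOpen_compl.mem_nhds hzS] with w hw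
      exact extF_of_notMem hw
    exact h3.differentiableAt_iff.2 (diffAt_of_notMem hf hzS)

end

/-! ### Classification of the biholomorphisms -/

theorem conf_cases {S T : DiscSet} (h : ConfEquiv S T) :
    (∃ a b : ℂ, a ≠ 0 ∧ T.1 = (fun z => a * z + b) '' S.1) ∨
    (S.1.Finite ∧ ∃ p ∈ S.1, ∃ a b : ℂ, a ≠ 0 ∧
      T.1 = insert b ((fun z => a * (z - p)⁻¹ + b) '' (S.1 \ {p}))) := by
  obtain ⟨f, g, hf, hg, hfm, hgm, hgf, hfg⟩ := h
  have hfinj : InjOn f S.1ᶜ := fun x hx y hy hxy => by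
    rw [← hgf x hx, ← hgf y hy, hxy]
  by_cases hall : ∀ p ∈ S.1, ∃ l, Tendsto f (𝓝[≠] p) (𝓝 l)
  · left
    have hF : Differentiable ℂ (extF S f) := fun z => extF_diff hf (fun hz => hall z hz)
    have hFinj : Injective (extF S f) := by
      apply injective_of_injOn_compl_countable hF S.countable
      intro x hx y hy hxy
      rw [extF_of_notMem hx, extF_of_notMem hy] at hxy
      exact hfinj hx hy hxy
    obtain ⟨a, b, ha, hab⟩ := affine_of_injective hF hFinj
    refine ⟨a, b, ha, ?_⟩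
    ext w
    have hw : extF S f ((w - b) / a) = w := by rw [hab]; field_simp; ring
    constructor
    · intro hwT
      refine ⟨(w - b) / a, ?_, by field_simp; ring⟩
      by_contra hn
      rw [extF_of_notMem hn] at hw
      exact (hw ▸ hfm hn) hwT
    · rintro ⟨z, hz, rfl⟩
      by_contra hn
      have h1 := hgm hn
      have h2 := hfg _ hn
      have h3 : extF S f (g (a * z + b)) = extF S f z := by
        rw [extF_of_notMem h1, hab z]
        exact h2
      rw [hFinj h3] at h1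
      exact h1 hz
  · right
    push Not at hall
    obtain ⟨p, hpS, hp⟩ := hall
    have hpinf : Tendsto f (𝓝[≠] p) (cobounded ℂ) := by
      rcases sing_dichotomy (T := T) hf hg hfm hgf p with ⟨l, hl⟩ | h
      · exact absurd hl (hp l)
      · exact h
    obtain ⟨ε, hε, hiso⟩ := S.isolated p
    -- near p, f is nonzero
    have hfne : ∀ᶠ z in 𝓝[≠] p, f z ≠ 0 := hpinf.eventually (eventually_ne_cobounded 0)
    have hgood : ∀ᶠ z in 𝓝[≠] p, f z ≠ 0 ∧ z ∈ S.1ᶜ := hfne.and (eventually_notMem S p)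
    set k : ℂ → ℂ := fun z => (f z)⁻¹ with hk
    have hk0 : Tendsto k (𝓝[≠] p) (𝓝 0) := tendsto_inv₀_cobounded.comp hpinf
    have hkd : ∀ᶠ z in 𝓝[≠] p, DifferentiableAt ℂ k z := by
      filter_upwards [hgood] with z hz
      exact (diffAt_of_notMem hf hz.2).inv hz.1
    have hk1 : DifferentiableAt ℂ (update k p 0) p := differentiableAt_update hkd hk0
    have hk2 : ∀ᶠ z in 𝓝 p, DifferentiableAt ℂ (update k p 0) z := by
      have h1 := eventually_nhdsWithin_iff.1 hkd
      filter_upwards [h1] with z hz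
      by_cases hzp : z = p
      · rw [hzp]; exact hk1
      · have h3 : update k p 0 =ᶠ[𝓝 z] k := by
          filter_upwards [isOpen_ne.mem_nhds hzp] with w hw
          exact update_of_ne hw _ _
        exact h3.differentiableAt_iff.2 (hz hzp)
    have hk3 : AnalyticAt ℂ (update k p 0) p := by
      obtain ⟨s, hs, hs2⟩ := Filter.eventually_iff_exists_mem.1 hk2
      exact DifferentiableOn.analyticAt (fun z hz => (hs2 z hz).differentiableWithinAt) hs
    -- a small ball
    obtain ⟨r, hr, hrε, hrg⟩ : ∃ r > 0, r < ε ∧ ∀ z, z ≠ p → dist z p < r → f z ≠ 0 ∧ z ∈ S.1ᶜ := by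
      have h1 := eventually_nhdsWithin_iff.1 hgood
      obtain ⟨r, hr, hb⟩ := Metric.eventually_nhds_iff.1 h1
      refine ⟨min r (ε / 2), lt_min hr (by positivity), (min_le_right _ _).trans_lt (by linarith), ?_⟩
      intro z hz hd
      exact hb (hd.trans_le (min_le_left _ _)) hz
    obtain ⟨δ, hδ, hcover⟩ : ∃ δ > 0, ∀ w : ℂ, δ < ‖w‖ → ∃ z, z ≠ p ∧ dist z p < r ∧ f z = w := by
      rcases hk3.eventually_constant_or_nhds_le_map_nhds with h1 | h1
      · exfalso
        have h2 : ∀ᶠ z in 𝓝[≠] p, update k p 0 z = update k p 0 p :=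
          h1.filter_mono nhdsWithin_le_nhds
        have h3 : ∀ᶠ z in 𝓝[≠] p, False := by
          filter_upwards [h2, hfne, self_mem_nhdsWithin] with z hz1 hz2 hz3
          rw [update_self, update_of_ne hz3] at hz1
          exact inv_ne_zero hz2 hz1
        rw [eventually_false_iff_eq_bot] at h3
        exact (NormedField.nhdsNE_neBot p).ne h3
      · rw [update_self] at h1
        have h2 : update k p 0 '' Metric.ball p r ∈ 𝓝 (0 : ℂ) :=
          h1 (image_mem_map (Metric.ball_mem_nhds p hr))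
        obtain ⟨δ, hδ, hb⟩ := Metric.mem_nhds_iff.1 h2
        refine ⟨δ⁻¹, inv_pos.2 hδ, fun w hw => ?_⟩
        have hw0 : w ≠ 0 := by
          intro h0
          rw [h0, norm_zero] at hw
          exact absurd hw (not_lt.2 (inv_pos.2 hδ).le)
        have h3 : w⁻¹ ∈ Metric.ball (0 : ℂ) δ := by
          rw [mem_ball_zero_iff, norm_inv]
          exact inv_lt_of_inv_lt₀ hδ hw
        obtain ⟨z, hz1, hz2⟩ := hb h3
        have hzp : z ≠ p := by
          intro h0
          rw [h0, update_self] at hz2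
          exact inv_ne_zero hw0 hz2.symm
        rw [update_of_ne hzp] at hz2
        exact ⟨z, hzp, hz1, inv_injective hz2⟩
    have hTb : ∀ w ∈ T.1, ‖w‖ ≤ δ := by
      intro w hw
      by_contra hn
      push Not at hn
      obtain ⟨z, hz1, hz2, rfl⟩ := hcover w hn
      exact hfm (hrg z hz1 hz2).2 hw
    have hTfin : T.1.Finite := by
      refine (T.finite_inter δ).subset ?_
      intro w hw
      exact ⟨hw, by simpa using hTb w hw⟩
    have hfb : ∀ z ∈ S.1ᶜ, r ≤ dist z p → ‖f z‖ ≤ δ := by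
      intro z hz hzr
      by_contra hn
      push Not at hn
      obtain ⟨z', hz1, hz2, hz3⟩ := hcover _ hn
      have := hfinj (hrg z' hz1 hz2).2 hz hz3
      rw [this] at hz2
      linarith
    have hlim : ∀ s ∈ S.1, s ≠ p → ∃ l, Tendsto f (𝓝[≠] s) (𝓝 l) ∧ ‖l‖ ≤ δ := by
      intro s hs hsp
      have hdist : ε ≤ dist s p := by
        by_contra hn
        push Not at hn
        exact hsp (hiso s hs hn)
      have hbd : ∀ᶠ z in 𝓝[≠] s, ‖f z‖ ≤ δ := by
        have h1 : Metric.ball s (ε - r) ∈ 𝓝[≠] s :=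
          mem_nhdsWithin_of_mem_nhds (Metric.ball_mem_nhds _ (by linarith))
        filter_upwards [h1, eventually_notMem S s] with z hz1 hz2
        apply hfb z hz2
        have h2 := dist_triangle s z p
        rw [Metric.mem_ball, dist_comm] at hz1
        linarith
      have hdf : ∀ᶠ z in 𝓝[≠] s, DifferentiableAt ℂ f z := by
        filter_upwards [eventually_notMem S s] with w hw
        exact diffAt_of_notMem hf hw
      obtain ⟨l, hl⟩ := removable_limit hdf hbd
      refine ⟨l, hl, ?_⟩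
      have := NormedField.nhdsNE_neBot s
      exact le_of_tendsto hl.norm hbd
    set F := extF S f with hFdef
    have hFd : ∀ z, z ≠ p → DifferentiableAt ℂ F z := by
      intro z hz
      apply extF_diff hf
      intro hzS
      obtain ⟨l, hl, _⟩ := hlim z hzS hz
      exact ⟨l, hl⟩
    have hFb : ∀ z, r ≤ dist z p → ‖F z‖ ≤ δ := by
      intro z hz
      by_cases hzS : z ∈ S.1
      · have hzp : z ≠ p := by
          intro h0
          rw [h0, dist_self] at hz
          linarith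
        obtain ⟨l, hl, hl2⟩ := hlim z hzS hzp
        rw [hFdef, extF_of_mem hzS hl]
        exact hl2
      · rw [hFdef, extF_of_notMem hzS]
        exact hfb z hzS hz
    set Φ : ℂ → ℂ := fun ζ => F (p + ζ⁻¹) with hΦ
    have hΦd : ∀ ζ, ζ ≠ 0 → DifferentiableAt ℂ Φ ζ := by
      intro ζ hζ
      have h1 : p + ζ⁻¹ ≠ p := by simpa using hζ
      exact (hFd _ h1).comp ζ ((differentiableAt_inv hζ).const_add p)
    have hΦd' : ∀ᶠ ζ in 𝓝[≠] (0:ℂ), DifferentiableAt ℂ Φ ζ := by
      filter_upwards [self_mem_nhdsWithin] with ζ hζ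
      exact hΦd ζ hζ
    have hΦb : ∀ᶠ ζ in 𝓝[≠] (0:ℂ), ‖Φ ζ‖ ≤ δ := by
      have h1 : Metric.ball (0:ℂ) r⁻¹ ∈ 𝓝[≠] (0:ℂ) :=
        mem_nhdsWithin_of_mem_nhds (Metric.ball_mem_nhds _ (inv_pos.2 hr))
      filter_upwards [self_mem_nhdsWithin, h1] with ζ hζ hζ1
      apply hFb
      rw [dist_eq_norm, add_sub_cancel_left, norm_inv]
      have h2 : ‖ζ‖ < r⁻¹ := by simpa using hζ1
      have h3 : 0 < ‖ζ‖ := norm_pos_iff.2 hζ
      rw [le_inv_comm₀ hr h3]
      exact h2.le
    obtain ⟨c, hc⟩ := removable_limit hΦd' hΦb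
    set Ψ := update Φ 0 c with hΨ
    have hΨd : Differentiable ℂ Ψ := by
      intro ζ
      by_cases hζ : ζ = 0
      · rw [hζ]
        exact differentiableAt_update hΦd' hc
      · have h3 : Ψ =ᶠ[𝓝 ζ] Φ := by
          filter_upwards [isOpen_ne.mem_nhds hζ] with w hw
          exact update_of_ne hw _ _
        exact h3.differentiableAt_iff.2 (hΦd ζ hζ)
    have hΨinj : Injective Ψ := by
      have hcount : ({0} ∪ (fun s => (s - p)⁻¹) '' S.1 : Set ℂ).Countable :=
        (countable_singleton _).union (S.countable.image _)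
      apply injective_of_injOn_compl_countable hΨd hcount
      intro x hx y hy hxy
      have hx0 : x ≠ 0 := fun h0 => hx (Or.inl h0)
      have hy0 : y ≠ 0 := fun h0 => hy (Or.inl h0)
      have hxS : p + x⁻¹ ∈ S.1ᶜ := fun hS => hx (Or.inr ⟨_, hS, by simp⟩)
      have hyS : p + y⁻¹ ∈ S.1ᶜ := fun hS => hy (Or.inr ⟨_, hS, by simp⟩)
      rw [hΨ, update_of_ne hx0, update_of_ne hy0] at hxy
      simp only [hΦ, hFdef] at hxy
      rw [extF_of_notMem hxS, extF_of_notMem hyS] at hxy
      have := hfinj hxS hyS hxy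
      exact inv_injective (add_left_cancel this)
    obtain ⟨a, b, ha, hab⟩ := affine_of_injective hΨd hΨinj
    have hfform : ∀ z ∈ S.1ᶜ, f z = a * (z - p)⁻¹ + b := by
      intro z hz
      have hzp : z ≠ p := fun h0 => hz (h0 ▸ hpS)
      have h1 := hab (z - p)⁻¹
      rw [hΨ, update_of_ne (inv_ne_zero (sub_ne_zero.2 hzp))] at h1
      simp only [hΦ, inv_inv, add_sub_cancel, hFdef] at h1
      rw [extF_of_notMem hz] at h1
      exact h1
    have hT : T.1 = insert b ((fun z => a * (z - p)⁻¹ + b) '' (S.1 \ {p})) := by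
      ext w
      constructor
      · intro hw
        by_cases hwb : w = b
        · exact Or.inl hwb
        · right
          have hwb' : w - b ≠ 0 := sub_ne_zero.2 hwb
          have hval : a * ((p + a / (w - b)) - p)⁻¹ + b = w := by
            rw [add_sub_cancel_left]
            field_simp
            ring
          refine ⟨p + a / (w - b), ⟨?_, ?_⟩, hval⟩
          · by_contra hn
            have h1 := hfm hn
            rw [hfform _ hn, hval] at h1
            exact h1 hw
          · intro h0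
            have h1 : a / (w - b) = 0 := by simpa using h0
            exact div_ne_zero ha hwb' h1
      · intro hw
        by_contra hn
        have h1 := hgm hn
        have h2 := hfg w hn
        rw [hfform _ h1] at h2
        rcases hw with rfl | ⟨s, ⟨hs, hsp⟩, rfl⟩
        · have h3 : a * (g w - p)⁻¹ = 0 := by linear_combination h2
          rcases mul_eq_zero.1 h3 with h4 | h4
          · exact ha h4
          · have h5 : g w = p := sub_eq_zero.1 (inv_eq_zero.1 h4)
            rw [h5] at h1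
            exact h1 hpS
        · have h3 : (g (a * (s - p)⁻¹ + b) - p)⁻¹ = (s - p)⁻¹ := by
            have h4 : a * (g (a * (s - p)⁻¹ + b) - p)⁻¹ = a * (s - p)⁻¹ := by
              linear_combination h2
            exact mul_left_cancel₀ ha h4
          have h5 : g (a * (s - p)⁻¹ + b) = s := by
            have := inv_injective h3
            linear_combination this
          rw [h5] at h1
          exact h1 hs
    refine ⟨?_, p, hpS, a, b, ha, hT⟩
    have h1 : ((fun z => a * (z - p)⁻¹ + b) '' (S.1 \ {p})).Finite := by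
      refine hTfin.subset ?_
      rw [hT]
      exact subset_insert _ _
    have h2 : (S.1 \ {p}).Finite := by
      refine Set.Finite.of_finite_image h1 ?_
      intro x hx y hy hxy
      simp only at hxy
      have h4 : a * (x - p)⁻¹ = a * (y - p)⁻¹ := by linear_combination hxy
      have h5 := inv_injective (mul_left_cancel₀ ha h4)
      linear_combination h5
    have h3 : S.1 ⊆ (S.1 \ {p}) ∪ {p} := by
      intro z hz
      by_cases hzp : z = p
      · exact Or.inr hzp
      · exact Or.inl ⟨hz, hzp⟩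
    exact (h2.union (finite_singleton p)).subset h3

/-! ### Normalisation and inversion -/

theorem disc_image_affine (S : DiscSet) {z w : ℂ} (h : z ≠ w) :
    IsClosed ((fun x => (x - z) / (w - z)) '' S.1) ∧
      ∀ y, ¬ AccPt y (𝓟 ((fun x => (x - z) / (w - z)) '' S.1)) := by
  have hne : w - z ≠ 0 := sub_ne_zero.2 h.symm
  apply disc_of_finite
  intro R
  refine ((S.finite_inter (R * ‖w - z‖ + ‖z‖)).image (fun x => (x - z) / (w - z))).subset ?_
  rintro _ ⟨⟨x, hx, rfl⟩, hR⟩
  refine ⟨x, ⟨hx, ?_⟩, rfl⟩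
  rw [mem_closedBall_zero_iff] at hR ⊢
  rw [norm_div, div_le_iff₀ (norm_pos_iff.2 hne)] at hR
  have := norm_sub_norm_le x z
  linarith

open Classical in
/-- the normalised set `(S - z)/(w - z)` -/
noncomputable def nrm (S : DiscSet) (z w : ℂ) : DiscSet :=
  if h : z ≠ w then ⟨(fun x => (x - z) / (w - z)) '' S.1, disc_image_affine S h⟩ else S

theorem nrm_val {S : DiscSet} {z w : ℂ} (h : z ≠ w) :
    (nrm S z w).1 = (fun x => (x - z) / (w - z)) '' S.1 := by
  unfold nrm
  rw [dif_pos h]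

theorem mem_nrm {S : DiscSet} {z w : ℂ} (h : z ≠ w) {y : ℂ} :
    y ∈ (nrm S z w).1 ↔ z + (w - z) * y ∈ S.1 := by
  have hne : w - z ≠ 0 := sub_ne_zero.2 h.symm
  rw [nrm_val h]
  constructor
  · rintro ⟨x, hx, rfl⟩
    have : z + (w - z) * ((x - z) / (w - z)) = x := by field_simp; ring
    rw [this]; exact hx
  · intro hy
    refine ⟨_, hy, ?_⟩
    field_simp
    ring

theorem nrm_nrm {S : DiscSet} {z w u v : ℂ} (h : z ≠ w) (h' : u ≠ v) :
    nrm (nrm S z w) u v = nrm S (z + (w - z) * u) (z + (w - z) * v) := by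
  have hne : w - z ≠ 0 := sub_ne_zero.2 h.symm
  have h2 : z + (w - z) * u ≠ z + (w - z) * v := by
    intro h3
    exact h' (mul_left_cancel₀ hne (add_left_cancel h3))
  apply DiscSet.ext
  ext y
  rw [mem_nrm h', mem_nrm h, mem_nrm h2]
  have : z + (w - z) * (u + (v - u) * y) =
      z + (w - z) * u + (z + (w - z) * v - (z + (w - z) * u)) * y := by ring
  rw [this]

theorem nrm_zero_one (S : DiscSet) : nrm S 0 1 = S := by
  apply DiscSet.ext
  ext y
  rw [mem_nrm zero_ne_one]
  simp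

theorem zero_mem_nrm {S : DiscSet} {z w : ℂ} (h : z ≠ w) (hz : z ∈ S.1) : (0:ℂ) ∈ (nrm S z w).1 := by
  rw [mem_nrm h]; simpa using hz

theorem one_mem_nrm {S : DiscSet} {z w : ℂ} (h : z ≠ w) (hw : w ∈ S.1) : (1:ℂ) ∈ (nrm S z w).1 := by
  rw [mem_nrm h]; simpa using hw

theorem nrm_finite {S : DiscSet} {z w : ℂ} (h : S.1.Finite) : (nrm S z w).1.Finite := by
  by_cases hzw : z ≠ w
  · rw [nrm_val hzw]; exact h.image _
  · unfold nrm
    rw [dif_neg hzw]; exact h

theorem nrm_infinite {S : DiscSet} {z w : ℂ} (h : S.1.Infinite) : (nrm S z w).1.Infinite := by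
  by_cases hzw : z ≠ w
  · have hne : w - z ≠ 0 := sub_ne_zero.2 hzw.symm
    rw [nrm_val hzw]
    refine h.image ?_
    intro x _ y _ hxy
    simp only at hxy
    rw [div_left_inj' hne] at hxy
    linear_combination hxy
  · unfold nrm
    rw [dif_neg hzw]; exact h

theorem ConfEquiv.refl (S : DiscSet) : ConfEquiv S S :=
  ⟨id, id, differentiableOn_id, differentiableOn_id, fun _ h => h, fun _ h => h,
    fun _ _ => rfl, fun _ _ => rfl⟩

theorem ConfEquiv.symm {S T : DiscSet} (h : ConfEquiv S T) : ConfEquiv T S := by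
  obtain ⟨f, g, h1, h2, h3, h4, h5, h6⟩ := h
  exact ⟨g, f, h2, h1, h4, h3, h6, h5⟩

theorem ConfEquiv.trans {S T U : DiscSet} (h : ConfEquiv S T) (h' : ConfEquiv T U) :
    ConfEquiv S U := by
  obtain ⟨f, g, h1, h2, h3, h4, h5, h6⟩ := h
  obtain ⟨f', g', h1', h2', h3', h4', h5', h6'⟩ := h'
  refine ⟨f' ∘ f, g ∘ g', h1'.comp h1 h3, h2.comp h2' h4', h3'.comp h3, h4.comp h4', ?_, ?_⟩
  · intro z hz
    simp only [comp_apply]
    rw [h5' _ (h3 hz), h5 z hz]
  · intro z hz
    simp only [comp_apply]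
    rw [h6 _ (h4' hz), h6' z hz]

theorem conf_nrm (S : DiscSet) (z w : ℂ) : ConfEquiv S (nrm S z w) := by
  by_cases h : z ≠ w
  · have hne : w - z ≠ 0 := sub_ne_zero.2 h.symm
    have e1 : ∀ x, z + (w - z) * ((x - z) / (w - z)) = x := fun x => by field_simp; ring
    refine ⟨fun x => (x - z) / (w - z), fun y => z + (w - z) * y, by fun_prop, by fun_prop,
      ?_, ?_, ?_, ?_⟩
    · intro x hx
      rw [mem_compl_iff, mem_nrm h, e1]
      exact hx
    · intro y hy
      rw [mem_compl_iff, mem_nrm h] at hy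
      exact hy
    · intro x _
      exact e1 x
    · intro y _
      simp only
      field_simp
      ring
  · unfold nrm
    rw [dif_neg h]
    exact ConfEquiv.refl S

open Classical in
/-- image of the finite set `S` under inversion at its point `p` -/
noncomputable def ivn (S : DiscSet) (p : ℂ) : DiscSet :=
  if h : p ∈ S.1 ∧ S.1.Finite then
    ⟨insert 0 ((fun z => (z - p)⁻¹) '' (S.1 \ {p})),
      disc_of_finite fun _ => (((h.2.subset sdiff_subset).image _).insert 0).subset inter_subset_left⟩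
  else S

theorem ivn_val {S : DiscSet} {p : ℂ} (h : p ∈ S.1 ∧ S.1.Finite) :
    (ivn S p).1 = insert 0 ((fun z => (z - p)⁻¹) '' (S.1 \ {p})) := by
  unfold ivn
  rw [dif_pos h]

theorem ivn_finite {S : DiscSet} {p : ℂ} (h : S.1.Finite) : (ivn S p).1.Finite := by
  by_cases hp : p ∈ S.1 ∧ S.1.Finite
  · rw [ivn_val hp]
    exact ((h.subset sdiff_subset).image _).insert 0
  · unfold ivn
    rw [dif_neg hp]; exact h

theorem conf_ivn (S : DiscSet) (p : ℂ) : ConfEquiv S (ivn S p) := by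
  by_cases h : p ∈ S.1 ∧ S.1.Finite
  · have hmem : ∀ y, y ∈ (ivn S p).1 ↔ y = 0 ∨ (p + y⁻¹ ∈ S.1 ∧ y ≠ 0) := by
      intro y
      rw [ivn_val h]
      constructor
      · rintro (rfl | ⟨x, ⟨hx, hxp⟩, rfl⟩)
        · exact Or.inl rfl
        · right
          rw [inv_inv, add_sub_cancel]
          exact ⟨hx, inv_ne_zero (sub_ne_zero.2 hxp)⟩
      · rintro (rfl | ⟨hy, hy0⟩)
        · exact Or.inl rfl
        · right
          refine ⟨p + y⁻¹, ⟨hy, ?_⟩, by simp⟩
          intro h0
          have : y⁻¹ = 0 := by simpa using h0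
          exact inv_ne_zero hy0 this
    have hcomp : ∀ y ∈ (ivn S p).1ᶜ, y ≠ 0 ∧ p + y⁻¹ ∈ S.1ᶜ := by
      intro y hy
      rw [mem_compl_iff, hmem, not_or] at hy
      refine ⟨hy.1, fun hS => hy.2 ⟨hS, hy.1⟩⟩
    refine ⟨fun z => (z - p)⁻¹, fun y => p + y⁻¹, ?_, ?_, ?_, ?_, ?_, ?_⟩
    · intro z hz
      have hzp : z - p ≠ 0 := sub_ne_zero.2 (fun h0 => hz (h0 ▸ h.1))
      exact ((differentiableAt_id.sub_const p).inv hzp).differentiableWithinAt
    · intro y hy
      exact ((differentiableAt_inv (hcomp y hy).1).const_add p).differentiableWithinAt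
    · intro z hz
      have hzp : z - p ≠ 0 := sub_ne_zero.2 (fun h0 => hz (h0 ▸ h.1))
      rw [mem_compl_iff, hmem, not_or]
      refine ⟨inv_ne_zero hzp, ?_⟩
      rw [inv_inv, add_sub_cancel]
      exact fun h0 => hz h0.1
    · intro y hy
      exact (hcomp y hy).2
    · intro z _
      simp
    · intro y _
      simp
  · unfold ivn
    rw [dif_neg h]
    exact ConfEquiv.refl S

/-! ### measurability -/

theorem measurable_of_enum {Ω : Type*} [MeasurableSpace Ω] (G : Ω → DiscSet) (P : ℕ → Ω → Prop)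
    (h : ℕ → Ω → ℂ) (hP : ∀ n, MeasurableSet {ω | P n ω}) (hh : ∀ n, Measurable (h n))
    (hG : ∀ ω z, z ∈ (G ω).1 ↔ ∃ n, P n ω ∧ h n ω = z) : Measurable G := by
  apply measurable_to_disc
  intro U hU
  have : {y : Ω | ((G y).1 ∩ U).Nonempty} = ⋃ n, ({ω | P n ω} ∩ h n ⁻¹' U) := by
    ext ω
    simp only [mem_ofPred_eq, mem_iUnion, mem_inter_iff, mem_preimage]
    constructor
    · rintro ⟨z, hz, hzU⟩
      obtain ⟨n, h1, rfl⟩ := (hG ω z).1 hz
      exact ⟨n, h1, hzU⟩
    · rintro ⟨n, h1, h2⟩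
      exact ⟨_, (hG ω _).2 ⟨n, h1, rfl⟩, h2⟩
  rw [this]
  exact MeasurableSet.iUnion fun n => (hP n).inter (hh n hU.measurableSet)

theorem mem_iff_pt {S : DiscSet} {z : ℂ} : z ∈ S.1 ↔ ∃ n, valid n S ∧ pt n S = z := by
  constructor
  · exact exists_pt
  · rintro ⟨n, h, rfl⟩
    exact pt_mem h

theorem measurable_nrm {Ω : Type*} [MeasurableSpace Ω] {G : Ω → DiscSet} {a b : Ω → ℂ}
    (hG : Measurable G) (ha : Measurable a) (hb : Measurable b) :
    Measurable fun ω => nrm (G ω) (a ω) (b ω) := by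
  classical
  refine measurable_of_enum _ (fun n ω => valid n (G ω))
    (fun n => {ω | a ω = b ω}.piecewise (fun ω => pt n (G ω))
      (fun ω => (pt n (G ω) - a ω) / (b ω - a ω))) ?_ ?_ ?_
  · intro n
    exact hG (measurableSet_valid n)
  · intro n
    refine Measurable.piecewise (measurableSet_eq_fun ha hb) ((measurable_pt n).comp hG) ?_
    exact (((measurable_pt n).comp hG).sub ha).div (hb.sub ha)
  · intro ω z
    by_cases h : a ω = b ω
    · have h1 : nrm (G ω) (a ω) (b ω) = G ω := by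
        unfold nrm
        rw [dif_neg (by simpa using h)]
      rw [h1, mem_iff_pt]
      simp only [Set.piecewise, mem_ofPred_eq, h, if_true]
    · have h' : a ω ≠ b ω := h
      rw [nrm_val h']
      simp only [Set.piecewise, mem_ofPred_eq, h, if_false]
      constructor
      · rintro ⟨x, hx, rfl⟩
        obtain ⟨n, h1, rfl⟩ := mem_iff_pt.1 hx
        exact ⟨n, h1, rfl⟩
      · rintro ⟨n, h1, rfl⟩
        exact ⟨_, pt_mem h1, rfl⟩

theorem measurableSet_mem {Ω : Type*} [MeasurableSpace Ω] {G : Ω → DiscSet} {a : Ω → ℂ}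
    (hG : Measurable G) (ha : Measurable a) : MeasurableSet {ω | a ω ∈ (G ω).1} := by
  have : {ω | a ω ∈ (G ω).1} = ⋃ n, ({ω | valid n (G ω)} ∩ {ω | pt n (G ω) = a ω}) := by
    ext ω
    simp only [mem_ofPred_eq, mem_iUnion, mem_inter_iff]
    exact mem_iff_pt
  rw [this]
  exact MeasurableSet.iUnion fun n => (hG (measurableSet_valid n)).inter
    (measurableSet_eq_fun ((measurable_pt n).comp hG) ha)

theorem measurableSet_finite : MeasurableSet {S : DiscSet | S.1.Finite} := by
  have : {S : DiscSet | S.1.Finite} = ⋃ K : ℕ, ⋂ i, ({S | valid i S}ᶜ ∪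
      ⋃ j, ({S : DiscSet | j ≤ K} ∩ ({S | valid j S} ∩ {S | pt j S = pt i S}))) := by
    ext S
    simp only [mem_ofPred_eq, mem_iUnion, mem_iInter, mem_union, mem_compl_iff, mem_inter_iff]
    constructor
    · intro hfin
      choose! f hf using fun z (hz : z ∈ S.1) => exists_pt hz
      obtain ⟨K, hK⟩ := (hfin.image f).bddAbove
      refine ⟨K, fun i => ?_⟩
      by_cases hv : valid i S
      · right
        have hm := pt_mem hv
        exact ⟨f (pt i S), hK ⟨_, hm, rfl⟩, hf _ hm⟩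
      · exact Or.inl hv
    · rintro ⟨K, hK⟩
      refine ((Set.finite_Iic K).image (fun j => pt j S)).subset ?_
      intro z hz
      obtain ⟨i, hi, rfl⟩ := exists_pt hz
      rcases hK i with h | ⟨j, hj, _, h⟩
      · exact absurd hi h
      · exact ⟨j, hj, h⟩
  rw [this]
  exact MeasurableSet.iUnion fun K => MeasurableSet.iInter fun i =>
    (measurableSet_valid i).compl.union (MeasurableSet.iUnion fun j =>
      (MeasurableSet.const _).inter ((measurableSet_valid j).inter
        (measurableSet_eq_fun (measurable_pt j) (measurable_pt i))))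

theorem measurable_ivn {Ω : Type*} [MeasurableSpace Ω] {G : Ω → DiscSet} {a : Ω → ℂ}
    (hG : Measurable G) (ha : Measurable a) :
    Measurable fun ω => ivn (G ω) (a ω) := by
  classical
  have hcm : MeasurableSet {ω | a ω ∈ (G ω).1 ∧ (G ω).1.Finite} :=
    (measurableSet_mem hG ha).inter (hG measurableSet_finite)
  refine measurable_of_enum _
    (fun n ω => Nat.casesOn n (a ω ∈ (G ω).1 ∧ (G ω).1.Finite)
      (fun m => valid m (G ω) ∧ ¬ ((a ω ∈ (G ω).1 ∧ (G ω).1.Finite) ∧ pt m (G ω) = a ω)))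
    (fun n => Nat.casesOn n (fun _ => 0) (fun m =>
      {ω | a ω ∈ (G ω).1 ∧ (G ω).1.Finite}.piecewise (fun ω => (pt m (G ω) - a ω)⁻¹)
        (fun ω => pt m (G ω)))) ?_ ?_ ?_
  · intro n
    cases n with
    | zero => exact hcm
    | succ m =>
      exact (hG (measurableSet_valid m)).inter
        (hcm.inter (measurableSet_eq_fun ((measurable_pt m).comp hG) ha)).compl
  · intro n
    cases n with
    | zero => exact measurable_const
    | succ m =>
      exact Measurable.piecewise hcm (((measurable_pt m).comp hG).sub ha).inv ((measurable_pt m).comp hG)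
  · intro ω z
    by_cases h : a ω ∈ (G ω).1 ∧ (G ω).1.Finite
    · rw [ivn_val h]
      constructor
      · rintro (rfl | ⟨x, ⟨hx, hxp⟩, rfl⟩)
        · exact ⟨0, h, rfl⟩
        · obtain ⟨n, h1, rfl⟩ := mem_iff_pt.1 hx
          refine ⟨n + 1, ⟨h1, fun h2 => hxp h2.2⟩, ?_⟩
          simp only [Set.piecewise, mem_ofPred_eq, h, true_and, if_true]
      · rintro ⟨n, h1, rfl⟩
        cases n with
        | zero => exact Or.inl rfl
        | succ m =>
          right
          refine ⟨pt m (G ω), ⟨pt_mem h1.1, fun h2 => h1.2 ⟨h, h2⟩⟩, ?_⟩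
          simp only [Set.piecewise, mem_ofPred_eq, h, true_and, if_true]
    · have h1 : ivn (G ω) (a ω) = G ω := by
        unfold ivn
        rw [dif_neg h]
      rw [h1, mem_iff_pt]
      constructor
      · rintro ⟨n, h2, rfl⟩
        refine ⟨n + 1, ⟨h2, fun h3 => h h3.1⟩, ?_⟩
        simp only [Set.piecewise, mem_ofPred_eq, h, if_false]
      · rintro ⟨n, h2, rfl⟩
        cases n with
        | zero => exact absurd h2 h
        | succ m =>
          refine ⟨m, h2.1, ?_⟩
          simp only [Set.piecewise, mem_ofPred_eq, h, if_false]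

/-! ### The geometric argument -/

section Geo

variable {S : Set ℂ} {P : ℂ × ℂ → Prop} {next : ℂ × ℂ → ℂ × ℂ}

/-- scale of a pair -/
noncomputable def scl (p : ℂ × ℂ) : ℝ := ‖p.2 - p.1‖

/-- pairs of distinct points of `S` -/
def Pr (S : Set ℂ) (p : ℂ × ℂ) : Prop := p.1 ∈ S ∧ p.2 ∈ S ∧ p.1 ≠ p.2

theorem scl_pos {p : ℂ × ℂ} (hp : Pr S p) : 0 < scl p :=
  norm_pos_iff.2 (sub_ne_zero.2 hp.2.2.symm)

/-- properties of the upward map -/
structure UpMap (S : Set ℂ) (P : ℂ × ℂ → Prop) (next : ℂ × ℂ → ℂ × ℂ) : Prop where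
  pr : ∀ p, Pr S p → Pr S (next p)
  inM : ∀ p, Pr S p → P (next p)
  dbl : ∀ p, Pr S p → 2 * scl p ≤ scl (next p)
  near : ∀ p, Pr S p → ‖(next p).1 - p.1‖ ≤ scl (next p)
  min : ∀ p, Pr S p → ∀ q, Pr S q → P q → 2 * scl p ≤ scl q → ‖q.1 - p.1‖ ≤ scl q →
    scl (next p) ≤ scl q
  dense : ∀ p, Pr S p → ∃ q, Pr S q ∧ P q ∧ ‖q.1 - p.1‖ ≤ scl q ∧ scl p / 2 ≤ scl q ∧
    scl q ≤ 2 * scl p

theorem UpMap.pr_iter (h : UpMap S P next) {p : ℂ × ℂ} (hp : Pr S p) (n : ℕ) :
    Pr S (next^[n] p) := by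
  induction n with
  | zero => exact hp
  | succ n ih => rw [iterate_succ_apply']; exact h.pr _ ih

theorem UpMap.dist_iter (h : UpMap S P next) {p : ℂ × ℂ} (hp : Pr S p) (n : ℕ) :
    ‖(next^[n] p).1 - p.1‖ ≤ 2 * scl (next^[n] p) := by
  induction n with
  | zero =>
    simp only [iterate_zero, id_eq, sub_self, norm_zero]
    linarith [scl_pos hp]
  | succ n ih =>
    rw [iterate_succ_apply']
    have h1 := h.near _ (h.pr_iter hp n)
    have h2 := h.dbl _ (h.pr_iter hp n)
    have h3 := norm_sub_le_norm_sub_add_norm_sub (next (next^[n] p)).1 (next^[n] p).1 p.1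
    linarith

theorem UpMap.scl_iter (h : UpMap S P next) {p : ℂ × ℂ} (hp : Pr S p) (n : ℕ) :
    2 ^ n * scl p ≤ scl (next^[n] p) := by
  induction n with
  | zero => simp
  | succ n ih =>
    rw [iterate_succ_apply']
    have h2 := h.dbl _ (h.pr_iter hp n)
    rw [pow_succ]
    linarith

theorem UpMap.exists_last (h : UpMap S P next) {p : ℂ × ℂ} (hp : Pr S p) {T : ℝ}
    (hT : scl (next p) ≤ T) : ∃ m, 1 ≤ m ∧ scl (next^[m] p) ≤ T ∧ T < scl (next^[m+1] p) := by
  classical
  have hex : ∃ n, T < scl (next^[n] p) := by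
    obtain ⟨n, hn⟩ := pow_unbounded_of_one_lt (T / scl p) (one_lt_two)
    refine ⟨n, ?_⟩
    have h1 := h.scl_iter hp n
    rw [div_lt_iff₀ (scl_pos hp)] at hn
    linarith
  have hfs := Nat.find_spec hex
  have hfm : ∀ m, m < Nat.find hex → ¬ T < scl (next^[m] p) := fun m hm => Nat.find_min hex hm
  have h0 : ¬ T < scl p := by
    have := h.dbl p hp
    have := scl_pos hp
    linarith
  have hne0 : Nat.find hex ≠ 0 := by
    intro h1
    rw [h1] at hfs
    exact h0 hfs
  have hne1 : Nat.find hex ≠ 1 := by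
    intro h1
    rw [h1] at hfs
    simp only [iterate_one] at hfs
    linarith
  obtain ⟨m, hm⟩ : ∃ m, Nat.find hex = m + 1 := Nat.exists_eq_succ_of_ne_zero hne0
  refine ⟨m, by omega, ?_, ?_⟩
  · exact not_lt.1 (hfm m (by omega))
  · rw [← hm]; exact hfs

/-- the window lemma -/
theorem UpMap.window (h : UpMap S P next) {ι : Type*} [Fintype ι] [Nonempty ι] (p : ι → ℂ × ℂ)
    (hp : ∀ k, Pr S (p k)) : ∃ τ : ℝ, 0 < τ ∧ ∃ c : ℂ, ∀ k, ∃ n, 1 ≤ n ∧
      ‖(next^[n] (p k)).1 - c‖ ≤ 29 * τ ∧ τ / 8 ≤ scl (next^[n] (p k)) ∧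
      scl (next^[n] (p k)) ≤ 14 * τ := by
  obtain ⟨k₀⟩ := ‹Nonempty ι›
  set c := (p k₀).1 with hc
  obtain ⟨T, hT1, hT2⟩ : ∃ T : ℝ, (∀ k, scl (next (p k)) ≤ T) ∧ (∀ k, ‖(p k).1 - c‖ ≤ T) := by
    refine ⟨∑ k, (scl (next (p k)) + ‖(p k).1 - c‖), fun k => ?_, fun k => ?_⟩
    · have h1 : scl (next (p k)) + ‖(p k).1 - c‖ ≤ ∑ k, (scl (next (p k)) + ‖(p k).1 - c‖) :=
        Finset.single_le_sum (f := fun k => scl (next (p k)) + ‖(p k).1 - c‖)
          (fun i _ => add_nonneg (norm_nonneg _) (norm_nonneg _)) (Finset.mem_univ k)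
      linarith [norm_nonneg ((p k).1 - c)]
    · have h1 : scl (next (p k)) + ‖(p k).1 - c‖ ≤ ∑ k, (scl (next (p k)) + ‖(p k).1 - c‖) :=
        Finset.single_le_sum (f := fun k => scl (next (p k)) + ‖(p k).1 - c‖)
          (fun i _ => add_nonneg (norm_nonneg _) (norm_nonneg _)) (Finset.mem_univ k)
      have h2 : 0 ≤ scl (next (p k)) := norm_nonneg _
      linarith
  choose m hm1 hm2 hm3 using fun k => h.exists_last (hp k) (hT1 k)
  obtain ⟨k', _, hk'⟩ := Finset.exists_min_image Finset.univ (fun k => scl (next^[m k + 1] (p k)))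
    ⟨k₀, Finset.mem_univ _⟩
  set τ := scl (next^[m k' + 1] (p k')) with hτ
  have hTτ : T < τ := hm3 k'
  have hT0 : 0 ≤ T := (norm_nonneg _).trans (hT2 k₀)
  have hτ0 : 0 < τ := by linarith
  refine ⟨τ, hτ0, c, fun k => ?_⟩
  set z' := (next^[m k' + 1] (p k')).1 with hz'
  set w' := (next^[m k' + 1] (p k')).2 with hw'
  have hq' := h.pr_iter (hp k') (m k' + 1)
  have hz'c : ‖z' - c‖ ≤ 3 * τ := by
    have h1 := h.dist_iter (hp k') (m k' + 1)
    have h2 := norm_sub_le_norm_sub_add_norm_sub z' (p k').1 c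
    have h3 := hT2 k'
    linarith
  set zt := (next^[m k] (p k)).1 with hzt
  have hqt := h.pr_iter (hp k) (m k)
  have hztc : ‖zt - c‖ ≤ 2 * scl (next^[m k] (p k)) + T := by
    have h1 := h.dist_iter (hp k) (m k)
    have h2 := norm_sub_le_norm_sub_add_norm_sub zt (p k).1 c
    have h3 := hT2 k
    linarith
  have hm2k := hm2 k
  have hztz' : ‖zt - z'‖ ≤ 6 * τ := by
    have h2 := norm_sub_le_norm_sub_add_norm_sub zt c z'
    rw [norm_sub_rev c z'] at h2
    linarith
  -- choose the point w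
  obtain ⟨w, hwS, hw1, hw2⟩ : ∃ w ∈ S, τ / 2 ≤ ‖w - zt‖ ∧ ‖w - zt‖ ≤ 7 * τ := by
    by_cases hcase : τ / 2 ≤ ‖z' - zt‖
    · refine ⟨z', hq'.1, hcase, ?_⟩
      rw [norm_sub_rev]
      linarith
    · push Not at hcase
      refine ⟨w', hq'.2.1, ?_, ?_⟩
      · have h2 := norm_sub_le_norm_sub_add_norm_sub w' zt z'
        have h3 : τ = ‖w' - z'‖ := rfl
        rw [norm_sub_rev zt z'] at h2
        linarith
      · have h2 := norm_sub_le_norm_sub_add_norm_sub w' z' zt
        have h3 : τ = ‖w' - z'‖ := rfl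
        linarith
  have hne : zt ≠ w := by
    intro h0
    rw [h0, sub_self, norm_zero] at hw1
    linarith
  obtain ⟨q, hq1, hq2, hq3, hq4, hq5⟩ := h.dense (zt, w) ⟨hqt.1, hwS, hne⟩
  have hs : scl (zt, w) = ‖w - zt‖ := rfl
  rw [hs] at hq4 hq5
  by_cases hcase : 2 * scl (next^[m k] (p k)) ≤ scl q
  · have h1 := h.min _ hqt q hq1 hq2 hcase hq3
    rw [← iterate_succ_apply' next (m k) (p k)] at h1
    refine ⟨m k + 1, by omega, ?_, ?_, ?_⟩
    · have h2 := h.dist_iter (hp k) (m k + 1)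
      have h3 := norm_sub_le_norm_sub_add_norm_sub (next^[m k + 1] (p k)).1 (p k).1 c
      have h4 := hT2 k
      linarith
    · have h2 := hk' k (Finset.mem_univ k)
      linarith
    · linarith
  · push Not at hcase
    refine ⟨m k, hm1 k, ?_, ?_, ?_⟩
    · change ‖zt - c‖ ≤ _
      linarith
    · linarith
    · linarith

/-- packing bound -/
theorem exists_pack : ∃ K : ℕ, ∀ (τ : ℝ), 0 < τ → ∀ (c : ℂ) (x : Fin (K + 1) → ℂ × ℝ),
    (∀ k, ‖(x k).1 - c‖ ≤ 29 * τ ∧ τ / 8 ≤ (x k).2 ∧ (x k).2 ≤ 14 * τ) →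
    ∃ k l, k ≠ l ∧ ‖(x k).1 - (x l).1‖ ≤ τ / 16 ∧ |(x k).2 - (x l).2| ≤ τ / 16 := by
  have hcomp : IsCompact (Metric.closedBall (0 : ℂ) 29 ×ˢ Icc (1/8 : ℝ) 14) :=
    (isCompact_closedBall _ _).prod isCompact_Icc
  obtain ⟨t, _, htf, hcov⟩ := hcomp.finite_cover_balls (e := 1/32) (by norm_num)
  refine ⟨htf.toFinset.card, fun τ hτ c x hx => ?_⟩
  have hmem : ∀ k, (((x k).1 - c) / τ, (x k).2 / τ) ∈ (Metric.closedBall (0 : ℂ) 29 ×ˢ Icc (1/8 : ℝ) 14) := by
    intro k
    obtain ⟨h1, h2, h3⟩ := hx k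
    refine ⟨?_, ?_, ?_⟩
    · rw [mem_closedBall_zero_iff, norm_div, Complex.norm_real, Real.norm_of_nonneg hτ.le, div_le_iff₀ hτ]
      exact h1
    · rw [le_div_iff₀ hτ]; linarith
    · rw [div_le_iff₀ hτ]; exact h3
  have hch : ∀ k, ∃ y ∈ t, dist (((x k).1 - c) / τ, (x k).2 / τ) y < 1/32 := by
    intro k
    have := hcov (hmem k)
    simp only [mem_iUnion, exists_prop, Metric.mem_ball] at this
    exact this
  choose y hy1 hy2 using hch
  obtain ⟨k, _, l, _, hkl, hyy⟩ := Finset.exists_ne_map_eq_of_card_lt_of_maps_to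
    (s := (Finset.univ : Finset (Fin (htf.toFinset.card + 1)))) (t := htf.toFinset) (f := y)
    (by simp) (fun k _ => by simpa using hy1 k)
  refine ⟨k, l, hkl, ?_⟩
  have hd : dist (((x k).1 - c) / (τ : ℂ), (x k).2 / τ) (((x l).1 - c) / (τ : ℂ), (x l).2 / τ) < 1/16 := by
    have h1 := dist_triangle_right (((x k).1 - c) / (τ : ℂ), (x k).2 / τ) (((x l).1 - c) / (τ : ℂ), (x l).2 / τ) (y k)
    have h2 := hy2 k
    have h3 := hy2 l
    rw [← hyy] at h3
    linarith
  rw [Prod.dist_eq, max_lt_iff] at hd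
  simp only at hd
  obtain ⟨hd1, hd2⟩ := hd
  constructor
  · rw [dist_eq_norm, ← sub_div, norm_div, Complex.norm_real, Real.norm_of_nonneg hτ.le, div_lt_iff₀ hτ] at hd1
    have : (x k).1 - c - ((x l).1 - c) = (x k).1 - (x l).1 := by ring
    rw [this] at hd1
    linarith
  · rw [Real.dist_eq, ← sub_div, abs_div, abs_of_pos hτ, div_lt_iff₀ hτ] at hd2
    linarith

end Geo

/-! ### The Borel section -/

/-- normalised sets -/
def Nml (S : DiscSet) : Prop := ((0:ℂ) ∈ S.1 ∧ (1:ℂ) ∈ S.1) ∨ S.1 = ∅ ∨ S.1 = {0}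

/-- the section -/
def YSet : Set DiscSet := {S | Nml S}

theorem measurableSet_YSet : MeasurableSet YSet := by
  have h0 : MeasurableSet {S : DiscSet | (0:ℂ) ∈ S.1} := measurableSet_mem measurable_id measurable_const
  have h1 : MeasurableSet {S : DiscSet | (1:ℂ) ∈ S.1} := measurableSet_mem measurable_id measurable_const
  have h2 : MeasurableSet {S : DiscSet | S.1 = ∅} := by
    have : {S : DiscSet | S.1 = ∅} = {S : DiscSet | (S.1 ∩ univ).Nonempty}ᶜ := by
      ext S
      simp [not_nonempty_iff_eq_empty]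
    rw [this]
    exact (measurableSet_hit isOpen_univ).compl
  have h3 : MeasurableSet {S : DiscSet | S.1 = {0}} := by
    have : {S : DiscSet | S.1 = {0}} =
        {S : DiscSet | (0:ℂ) ∈ S.1} ∩ {S : DiscSet | (S.1 ∩ {0}ᶜ).Nonempty}ᶜ := by
      ext S
      simp only [mem_ofPred_eq, mem_inter_iff, mem_compl_iff, not_nonempty_iff_eq_empty]
      constructor
      · intro h; rw [h]; simp
      · rintro ⟨h4, h5⟩
        ext z
        constructor
        · intro hz
          by_contra hn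
          have : z ∈ S.1 ∩ {0}ᶜ := ⟨hz, hn⟩
          rw [h5] at this
          exact this
        · rintro rfl; exact h4
    rw [this]
    exact h0.inter (measurableSet_hit isOpen_compl_singleton).compl
  exact (h0.inter h1).union (h2.union h3)

/-- the section as a type -/
abbrev YY : Type := YSet

instance instSBYY : StandardBorelSpace YY := measurableSet_YSet.standardBorel

theorem YY.zero_mem (S : YY) (h : S.1.1.Infinite) : (0:ℂ) ∈ S.1.1 := by
  rcases S.2 with h1 | h1 | h1
  · exact h1.1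
  · rw [h1] at h; exact absurd finite_empty h
  · rw [h1]; rfl

theorem YY.one_mem (S : YY) (h : S.1.1.Infinite) : (1:ℂ) ∈ S.1.1 := by
  rcases S.2 with h1 | h1 | h1
  · exact h1.2
  · rw [h1] at h; exact absurd finite_empty h
  · rw [h1] at h; exact absurd (finite_singleton _) h

/-- `S` or its inversions -/
noncomputable def sp : ℕ → DiscSet → DiscSet
  | 0, S => S
  | k + 1, S => ivn S (pt k S)

theorem measurable_sp (k : ℕ) : Measurable (sp k) := by
  cases k with
  | zero => exact measurable_id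
  | succ k => exact measurable_ivn measurable_id (measurable_pt k)

theorem conf_sp (k : ℕ) (S : DiscSet) : ConfEquiv S (sp k S) := by
  cases k with
  | zero => exact ConfEquiv.refl S
  | succ k => exact conf_ivn S _

/-- the pair coded by `q` is a pair of distinct points -/
def cnd (q : ℕ × ℕ × ℕ) (S : DiscSet) : Prop :=
  valid q.2.1 (sp q.1 S) ∧ valid q.2.2 (sp q.1 S) ∧ pt q.2.1 (sp q.1 S) ≠ pt q.2.2 (sp q.1 S)

theorem measurableSet_cnd (q : ℕ × ℕ × ℕ) : MeasurableSet {S | cnd q S} :=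
  ((measurable_sp q.1) (measurableSet_valid _)).inter
    (((measurable_sp q.1) (measurableSet_valid _)).inter
      (measurableSet_eq_fun ((measurable_pt _).comp (measurable_sp q.1))
        ((measurable_pt _).comp (measurable_sp q.1))).compl)

open Classical in
/-- enumeration of the normalisations -/
noncomputable def psiD (q : ℕ × ℕ × ℕ) (S : DiscSet) : DiscSet :=
  if cnd q S then nrm (sp q.1 S) (pt q.2.1 (sp q.1 S)) (pt q.2.2 (sp q.1 S)) else S

theorem measurable_psiD (q : ℕ × ℕ × ℕ) : Measurable (psiD q) := by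
  classical
  refine Measurable.ite (measurableSet_cnd q) ?_ measurable_id
  exact measurable_nrm (measurable_sp _) ((measurable_pt _).comp (measurable_sp _))
    ((measurable_pt _).comp (measurable_sp _))

theorem conf_psiD (q : ℕ × ℕ × ℕ) (S : DiscSet) : ConfEquiv S (psiD q S) := by
  unfold psiD
  split_ifs
  · exact (conf_sp _ _).trans (conf_nrm _ _ _)
  · exact ConfEquiv.refl S

theorem nml_nrm {S : DiscSet} {z w : ℂ} (hz : z ∈ S.1) (hw : w ∈ S.1) (h : z ≠ w) : Nml (nrm S z w) :=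
  Or.inl ⟨zero_mem_nrm h hz, one_mem_nrm h hw⟩

theorem nml_psiD (q : ℕ × ℕ × ℕ) {S : DiscSet} (hS : Nml S) : Nml (psiD q S) := by
  unfold psiD
  split_ifs with h
  · exact nml_nrm (pt_mem h.1) (pt_mem h.2.1) h.2.2
  · exact hS

/-- decoding of indices -/
def dec (n : ℕ) : ℕ × ℕ × ℕ := (n.unpair.1, n.unpair.2.unpair)

theorem dec_surj (q : ℕ × ℕ × ℕ) : ∃ n, dec n = q := by
  refine ⟨Nat.pair q.1 (Nat.pair q.2.1 q.2.2), ?_⟩
  simp [dec]

/-- enumeration of the classes in the section -/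
noncomputable def psi : ℕ → YY → YY
  | 0, S => S
  | n + 1, S => ⟨psiD (dec n) S.1, nml_psiD _ S.2⟩

theorem measurable_psi (n : ℕ) : Measurable (psi n) := by
  cases n with
  | zero => exact measurable_id
  | succ n => exact ((measurable_psiD (dec n)).comp measurable_subtype_coe).subtype_mk

/-- conformal equivalence on the section -/
def EY (S T : YY) : Prop := ConfEquiv S.1 T.1

theorem EY_equivalence : Equivalence EY :=
  ⟨fun S => ConfEquiv.refl S.1, fun h => ConfEquiv.symm h, fun h h' => ConfEquiv.trans h h'⟩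

theorem EY_psi (S : YY) (n : ℕ) : EY S (psi n S) := by
  cases n with
  | zero => exact ConfEquiv.refl S.1
  | succ n => exact conf_psiD _ _

theorem psi_of_pair {S T : YY} {k : ℕ} {z w : ℂ} (hz : z ∈ (sp k S.1).1) (hw : w ∈ (sp k S.1).1)
    (hzw : z ≠ w) (hT : T.1 = nrm (sp k S.1) z w) : ∃ n, psi n S = T := by
  obtain ⟨i, hi, rfl⟩ := exists_pt hz
  obtain ⟨j, hj, rfl⟩ := exists_pt hw
  obtain ⟨n, hn⟩ := dec_surj (k, i, j)
  refine ⟨n + 1, ?_⟩
  apply Subtype.ext
  change psiD (dec n) S.1 = T.1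
  rw [hn, hT]
  unfold psiD
  rw [if_pos]
  exact ⟨hi, hj, hzw⟩

theorem affine_normal {S T : DiscSet} {a b : ℂ} (hT : T.1 = (fun z => a * z + b) '' S.1)
    (h0 : (0:ℂ) ∈ T.1) (h1 : (1:ℂ) ∈ T.1) : ∃ z w, z ∈ S.1 ∧ w ∈ S.1 ∧ z ≠ w ∧ T = nrm S z w := by
  rw [hT] at h0 h1
  obtain ⟨z, hz, hz0⟩ := h0
  obtain ⟨w, hw, hw1⟩ := h1
  simp only at hz0 hw1
  have hzw : z ≠ w := by
    rintro rfl
    rw [hz0] at hw1
    exact zero_ne_one hw1
  have hne : w - z ≠ 0 := sub_ne_zero.2 hzw.symm
  refine ⟨z, w, hz, hw, hzw, ?_⟩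
  have ha2 : a * (w - z) = 1 := by linear_combination hw1 - hz0
  have hkey : ∀ x, a * x + b = (x - z) / (w - z) := by
    intro x
    rw [eq_div_iff hne]
    linear_combination (x - z) * ha2 + (w - z) * hz0
  apply DiscSet.ext
  rw [hT, nrm_val hzw]
  exact image_congr (fun x _ => hkey x)

theorem EY_iff (S T : YY) : EY S T ↔ ∃ n, psi n S = T := by
  constructor
  · intro h
    rcases conf_cases h with ⟨a, b, ha, hT⟩ | ⟨hfin, p, hp, a, b, ha, hT⟩
    · rcases T.2 with h1 | h1 | h1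
      · obtain ⟨z, w, hz, hw, hzw, hn⟩ := affine_normal hT h1.1 h1.2
        exact psi_of_pair (k := 0) hz hw hzw hn
      · refine ⟨0, Subtype.ext (DiscSet.ext ?_)⟩
        change S.1.1 = T.1.1
        rw [h1]
        rw [h1] at hT
        exact image_eq_empty.1 hT.symm
      · refine ⟨0, Subtype.ext (DiscSet.ext ?_)⟩
        change S.1.1 = T.1.1
        rw [h1]
        rw [h1] at hT
        have hsub : S.1.1.Subsingleton := by
          intro x hx y hy
          have hx' : a * x + b ∈ ({0} : Set ℂ) := by rw [hT]; exact ⟨x, hx, rfl⟩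
          have hy' : a * y + b ∈ ({0} : Set ℂ) := by rw [hT]; exact ⟨y, hy, rfl⟩
          rw [mem_singleton_iff] at hx' hy'
          exact mul_left_cancel₀ ha (by linear_combination hx' - hy')
        rcases S.2 with h2 | h2 | h2
        · exact absurd (hsub h2.1 h2.2) zero_ne_one
        · rw [h2, image_empty] at hT
          exact absurd hT (singleton_ne_empty 0)
        · exact h2
    · obtain ⟨k, hk, hkp⟩ := exists_pt hp
      have hv : pt k S.1 ∈ S.1.1 ∧ S.1.1.Finite := ⟨by rw [hkp]; exact hp, hfin⟩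
      have hsp : (sp (k+1) S.1).1 = insert 0 ((fun z => (z - p)⁻¹) '' (S.1.1 \ {p})) := by
        change (ivn S.1 (pt k S.1)).1 = _
        rw [ivn_val hv, hkp]
      have hT' : T.1.1 = (fun z => a * z + b) '' (sp (k+1) S.1).1 := by
        rw [hT, hsp, image_insert_eq, mul_zero, zero_add, image_image]
      rcases T.2 with h1 | h1 | h1
      · obtain ⟨z, w, hz, hw, hzw, hn⟩ := affine_normal hT' h1.1 h1.2
        exact psi_of_pair (k := k + 1) hz hw hzw hn
      · have hb : b ∈ T.1.1 := by rw [hT]; exact Or.inl rfl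
        rw [h1] at hb
        exact absurd hb (notMem_empty b)
      · refine ⟨0, Subtype.ext (DiscSet.ext ?_)⟩
        change S.1.1 = T.1.1
        rw [h1]
        have hsub : S.1.1.Subsingleton := by
          have h3 : S.1.1 \ {p} = ∅ := by
            by_contra hne
            obtain ⟨x, hx⟩ := nonempty_iff_ne_empty.2 hne
            have hb : b ∈ T.1.1 := by rw [hT]; exact Or.inl rfl
            have hx2 : a * (x - p)⁻¹ + b ∈ T.1.1 := by rw [hT]; exact Or.inr ⟨x, hx, rfl⟩
            rw [h1, mem_singleton_iff] at hb hx2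
            rw [hb, add_zero] at hx2
            exact mul_ne_zero ha (inv_ne_zero (sub_ne_zero.2 hx.2)) hx2
          intro x hx y hy
          have hx3 : x = p := by
            by_contra hn
            have : x ∈ S.1.1 \ {p} := ⟨hx, hn⟩
            rw [h3] at this
            exact this
          have hy3 : y = p := by
            by_contra hn
            have : y ∈ S.1.1 \ {p} := ⟨hy, hn⟩
            rw [h3] at this
            exact this
          rw [hx3, hy3]
        rcases S.2 with h2 | h2 | h2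
        · exact absurd (hsub h2.1 h2.2) zero_ne_one
        · rw [h2] at hp
          exact absurd hp (notMem_empty p)
        · exact h2
  · rintro ⟨n, rfl⟩
    exact EY_psi S n

/-! ### Separated families -/

/-- proximity of normalisations -/
def AdjR (S T : DiscSet) : Prop :=
  S.1.Infinite ∧ S ≠ T ∧ ∃ u v : ℂ, u ∈ S.1 ∧ v ∈ S.1 ∧ u ≠ v ∧ ‖u‖ ≤ 1 ∧ ‖u‖ ≤ ‖v - u‖ ∧
    1 / 2 ≤ ‖v - u‖ ∧ ‖v - u‖ ≤ 2 ∧ nrm S u v = T

theorem adj_of_close {S : DiscSet} (hS : S.1.Infinite) {p q : ℂ × ℂ} (hp : Pr S.1 p) (hq : Pr S.1 q)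
    (hne : nrm S p.1 p.2 ≠ nrm S q.1 q.2) (h1 : ‖q.1 - p.1‖ ≤ scl p) (h2 : ‖q.1 - p.1‖ ≤ scl q)
    (h3 : scl p / 2 ≤ scl q) (h4 : scl q ≤ 2 * scl p) : AdjR (nrm S p.1 p.2) (nrm S q.1 q.2) := by
  obtain ⟨z, w⟩ := p
  obtain ⟨z', w'⟩ := q
  simp only [scl] at *
  obtain ⟨hz, hw, hzw⟩ := hp
  obtain ⟨hz', hw', hzw'⟩ := hq
  simp only at hz hw hzw hz' hw' hzw'
  have hne0 : w - z ≠ 0 := sub_ne_zero.2 hzw.symm
  have hne1 : w' - z' ≠ 0 := sub_ne_zero.2 hzw'.symm
  have hpos : 0 < ‖w - z‖ := norm_pos_iff.2 hne0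
  have e1 : z + (w - z) * ((z' - z) / (w - z)) = z' := by field_simp; ring
  have e2 : z + (w - z) * ((w' - z) / (w - z)) = w' := by field_simp; ring
  have e3 : (w' - z) / (w - z) - (z' - z) / (w - z) = (w' - z') / (w - z) := by ring
  have huv : (z' - z) / (w - z) ≠ (w' - z) / (w - z) := by
    intro h
    have h5 : (w' - z) / (w - z) - (z' - z) / (w - z) = 0 := by rw [h, sub_self]
    rw [e3] at h5
    exact div_ne_zero hne1 hne0 h5
  refine ⟨nrm_infinite hS, hne, (z' - z) / (w - z), (w' - z) / (w - z), ?_, ?_, huv, ?_, ?_, ?_, ?_, ?_⟩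
  · rw [mem_nrm hzw, e1]; exact hz'
  · rw [mem_nrm hzw, e2]; exact hw'
  · rw [norm_div, div_le_one hpos]; exact h1
  · rw [e3, norm_div, norm_div]
    exact div_le_div_of_nonneg_right h2 hpos.le
  · rw [e3, norm_div, le_div_iff₀ hpos]; linarith
  · rw [e3, norm_div, div_le_iff₀ hpos]; linarith
  · rw [nrm_nrm hzw huv, e1, e2]

theorem close_of_adj {S : DiscSet} {p : ℂ × ℂ} (hp : Pr S.1 p) {T : DiscSet}
    (h : AdjR (nrm S p.1 p.2) T) : ∃ q, Pr S.1 q ∧ nrm S q.1 q.2 = T ∧ ‖q.1 - p.1‖ ≤ scl p ∧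
      ‖q.1 - p.1‖ ≤ scl q ∧ scl p / 2 ≤ scl q ∧ scl q ≤ 2 * scl p := by
  obtain ⟨_, _, u, v, hu, hv, huv, h1, h2, h3, h4, h5⟩ := h
  obtain ⟨z, w⟩ := p
  obtain ⟨hz, hw, hzw⟩ := hp
  simp only at hz hw hzw hu hv h5
  have hne0 : w - z ≠ 0 := sub_ne_zero.2 hzw.symm
  have hpos : 0 < ‖w - z‖ := norm_pos_iff.2 hne0
  rw [mem_nrm hzw] at hu hv
  have e3 : (z + (w - z) * v) - (z + (w - z) * u) = (w - z) * (v - u) := by ring
  refine ⟨(z + (w - z) * u, z + (w - z) * v), ⟨hu, hv, ?_⟩, ?_, ?_, ?_, ?_, ?_⟩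
  · intro h6
    exact huv (mul_left_cancel₀ hne0 (add_left_cancel h6))
  · rw [← h5, nrm_nrm hzw huv]
  · simp only [scl, add_sub_cancel_left, norm_mul]
    exact mul_le_of_le_one_right hpos.le h1
  · simp only [scl, add_sub_cancel_left, e3, norm_mul]
    exact mul_le_mul_of_nonneg_left h2 hpos.le
  · simp only [scl, e3, norm_mul]
    nlinarith
  · simp only [scl, e3, norm_mul]
    nlinarith

theorem pr_zero_one {S : YY} (h : S.1.1.Infinite) : Pr S.1.1 ((0:ℂ), (1:ℂ)) :=
  ⟨S.zero_mem h, S.one_mem h, zero_ne_one⟩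

theorem AdjR.symm' {S T : YY} (h : AdjR S.1 T.1) : AdjR T.1 S.1 := by
  have hS : S.1.1.Infinite := h.1
  have hp := pr_zero_one hS
  have h' : AdjR (nrm S.1 ((0:ℂ),(1:ℂ)).1 ((0:ℂ),(1:ℂ)).2) T.1 := by
    rw [nrm_zero_one]; exact h
  obtain ⟨q, hq, hqT, h1, h2, h3, h4⟩ := close_of_adj hp h'
  have hne : nrm S.1 q.1 q.2 ≠ nrm S.1 ((0:ℂ),(1:ℂ)).1 ((0:ℂ),(1:ℂ)).2 := by
    rw [hqT, nrm_zero_one]
    exact h.2.1.symm
  have h5 := adj_of_close hS hq hp hne (by rw [norm_sub_rev]; exact h2) (by rw [norm_sub_rev]; exact h1)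
    (by linarith) (by linarith)
  rw [hqT, nrm_zero_one] at h5
  exact h5

theorem AdjR.finite (S : DiscSet) : {T | AdjR S T}.Finite := by
  have hfin : ((S.1 ∩ Metric.closedBall 0 3) ×ˢ (S.1 ∩ Metric.closedBall 0 3) : Set (ℂ × ℂ)).Finite :=
    (S.finite_inter 3).prod (S.finite_inter 3)
  refine (hfin.image (fun p => nrm S p.1 p.2)).subset ?_
  rintro T ⟨_, _, u, v, hu, hv, huv, h1, h2, h3, h4, h5⟩
  refine ⟨(u, v), ⟨⟨hu, ?_⟩, ⟨hv, ?_⟩⟩, h5⟩
  · rw [mem_closedBall_zero_iff]; linarith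
  · rw [mem_closedBall_zero_iff]
    have := norm_sub_norm_le v u
    linarith

theorem AdjR.enum {S T : YY} (h : AdjR S.1 T.1) : ∃ n, psi n S = T := by
  obtain ⟨_, _, u, v, hu, hv, huv, h1, h2, h3, h4, h5⟩ := h
  exact psi_of_pair (k := 0) hu hv huv h5.symm

theorem measurableSet_adj : MeasurableSet {p : YY × YY | AdjR p.1.1 p.2.1} := by
  have hm1 : Measurable (fun p : YY × YY => p.1.1) := measurable_subtype_coe.comp measurable_fst
  have hm2 : Measurable (fun p : YY × YY => p.2.1) := measurable_subtype_coe.comp measurable_snd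
  have : {p : YY × YY | AdjR p.1.1 p.2.1} =
      {p : YY × YY | p.1.1.1.Finite}ᶜ ∩ ({p : YY × YY | p.1.1 = p.2.1}ᶜ ∩
        ⋃ i, ⋃ j, ({p : YY × YY | valid i p.1.1} ∩ ({p : YY × YY | valid j p.1.1} ∩
          ({p : YY × YY | pt i p.1.1 = pt j p.1.1}ᶜ ∩
            ({p : YY × YY | ‖pt i p.1.1‖ ≤ 1} ∩
              ({p : YY × YY | ‖pt i p.1.1‖ ≤ ‖pt j p.1.1 - pt i p.1.1‖} ∩
                ({p : YY × YY | 1 / 2 ≤ ‖pt j p.1.1 - pt i p.1.1‖} ∩
                  ({p : YY × YY | ‖pt j p.1.1 - pt i p.1.1‖ ≤ 2} ∩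
                    {p : YY × YY | nrm p.1.1 (pt i p.1.1) (pt j p.1.1) = p.2.1})))))))) := by
    ext p
    simp only [mem_ofPred_eq, mem_inter_iff, mem_compl_iff, mem_iUnion, AdjR]
    constructor
    · rintro ⟨h0, hne, u, v, hu, hv, huv, h1, h2, h3, h4, h5⟩
      obtain ⟨i, hi, rfl⟩ := exists_pt hu
      obtain ⟨j, hj, rfl⟩ := exists_pt hv
      exact ⟨h0, hne, i, j, hi, hj, huv, h1, h2, h3, h4, h5⟩
    · rintro ⟨h0, hne, i, j, hi, hj, huv, h1, h2, h3, h4, h5⟩
      exact ⟨h0, hne, _, _, pt_mem hi, pt_mem hj, huv, h1, h2, h3, h4, h5⟩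
  rw [this]
  have hpt : ∀ i, Measurable (fun p : YY × YY => pt i p.1.1) := fun i => (measurable_pt i).comp hm1
  refine (hm1 measurableSet_finite).compl.inter ((measurableSet_eq_fun hm1 hm2).compl.inter ?_)
  refine MeasurableSet.iUnion fun i => MeasurableSet.iUnion fun j => ?_
  refine (hm1 (measurableSet_valid i)).inter ((hm1 (measurableSet_valid j)).inter ?_)
  refine (measurableSet_eq_fun (hpt i) (hpt j)).compl.inter ?_
  have hn1 : Measurable (fun p : YY × YY => ‖pt i p.1.1‖) := (hpt i).norm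
  have hn2 : Measurable (fun p : YY × YY => ‖pt j p.1.1 - pt i p.1.1‖) := ((hpt j).sub (hpt i)).norm
  refine (measurableSet_le hn1 measurable_const).inter ((measurableSet_le hn1 hn2).inter
    ((measurableSet_le measurable_const hn2).inter ((measurableSet_le hn2 measurable_const).inter ?_)))
  exact measurableSet_eq_fun (measurable_nrm hm1 (hpt i) (hpt j)) hm2

/-- a Borel maximal separated family -/
theorem exists_M : ∃ M : Set YY, MeasurableSet M ∧ (∀ x ∈ M, ∀ y ∈ M, ¬ AdjR x.1 y.1) ∧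
    (∀ x, x ∈ M ∨ ∃ y ∈ M, AdjR x.1 y.1) := by
  refine exists_maximal_independent psi measurable_psi (fun S T => AdjR S.1 T.1) measurableSet_adj
    (fun _ _ h => h.symm') (fun S h => h.2.1 rfl) ?_ (fun _ _ h => h.enum)
  intro S
  have h : (Subtype.val ⁻¹' {T | AdjR S.1 T} : Set YY).Finite :=
    Set.Finite.preimage Subtype.val_injective.injOn (AdjR.finite S.1)
  exact h

/-! ### The upward map -/

/-- image of a set of normalised sets -/
def MD (M : Set YY) : Set DiscSet := Subtype.val '' M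

theorem measurableSet_MD {M : Set YY} (hM : MeasurableSet M) : MeasurableSet (MD M) :=
  measurableSet_YSet.subtype_image hM

/-- size of the pair with index `n` -/
noncomputable def siz (n : ℕ) (S : YY) : ℝ := ‖pt (dec n).2.2 S.1 - pt (dec n).2.1 S.1‖

/-- candidate indices -/
def Cand (M : Set YY) (n : ℕ) (S : YY) : Prop :=
  (dec n).1 = 0 ∧ S.1.1.Infinite ∧ valid (dec n).2.1 S.1 ∧ valid (dec n).2.2 S.1 ∧
    pt (dec n).2.1 S.1 ≠ pt (dec n).2.2 S.1 ∧
    nrm S.1 (pt (dec n).2.1 S.1) (pt (dec n).2.2 S.1) ∈ MD M ∧ 2 ≤ siz n S ∧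
    ‖pt (dec n).2.1 S.1‖ ≤ siz n S

/-- best candidates -/
def Best (M : Set YY) (n : ℕ) (S : YY) : Prop :=
  Cand M n S ∧ ∀ m, Cand M m S → siz n S ≤ siz m S

/-- index predicate -/
def QQ (M : Set YY) (S : YY) (n : ℕ) : Prop :=
  (∃ n', n = n' + 1 ∧ Best M n' S) ∨ ∀ m, ¬ Best M m S

theorem exists_QQ (M : Set YY) (S : YY) : ∃ n, QQ M S n := by
  by_cases h : ∃ m, Best M m S
  · obtain ⟨m, hm⟩ := h
    exact ⟨m + 1, Or.inl ⟨m, rfl, hm⟩⟩
  · push Not at h
    exact ⟨0, Or.inr h⟩

open Classical in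
/-- the chosen index -/
noncomputable def N0 (M : Set YY) (S : YY) : ℕ := Nat.find (exists_QQ M S)

/-- the upward map -/
noncomputable def phi (M : Set YY) (S : YY) : YY := psi (N0 M S) S

theorem measurable_siz (n : ℕ) : Measurable (siz n) :=
  (((measurable_pt _).comp measurable_subtype_coe).sub
    ((measurable_pt _).comp measurable_subtype_coe)).norm

theorem measurableSet_Cand {M : Set YY} (hM : MeasurableSet M) (n : ℕ) :
    MeasurableSet {S | Cand M n S} := by
  have hc : Measurable (Subtype.val : YY → DiscSet) := measurable_subtype_coe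
  have hp : ∀ i, Measurable (fun S : YY => pt i S.1) := fun i => (measurable_pt i).comp hc
  refine (MeasurableSet.const _).inter ((hc measurableSet_finite).compl.inter ?_)
  refine (hc (measurableSet_valid _)).inter ((hc (measurableSet_valid _)).inter ?_)
  refine (measurableSet_eq_fun (hp _) (hp _)).compl.inter (MeasurableSet.inter ?_ ?_)
  · exact (measurable_nrm hc (hp _) (hp _)) (measurableSet_MD hM)
  · exact (measurableSet_le measurable_const (measurable_siz n)).inter
      (measurableSet_le (hp _).norm (measurable_siz n))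

theorem measurableSet_Best {M : Set YY} (hM : MeasurableSet M) (n : ℕ) :
    MeasurableSet {S | Best M n S} := by
  have : {S | Best M n S} = {S | Cand M n S} ∩ ⋂ m, ({S | Cand M m S}ᶜ ∪ {S | siz n S ≤ siz m S}) := by
    ext S
    simp only [Best, mem_ofPred_eq, mem_inter_iff, mem_iInter, mem_union, mem_compl_iff, imp_iff_not_or]
  rw [this]
  exact (measurableSet_Cand hM n).inter (MeasurableSet.iInter fun m =>
    (measurableSet_Cand hM m).compl.union (measurableSet_le (measurable_siz n) (measurable_siz m)))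

theorem measurable_N0 {M : Set YY} (hM : MeasurableSet M) : Measurable (N0 M) := by
  classical
  apply measurable_find
  intro k
  have : {S | QQ M S k} = (⋃ n', ({S : YY | k = n' + 1} ∩ {S | Best M n' S})) ∪
      ⋂ m, {S | Best M m S}ᶜ := by
    ext S
    simp only [QQ, mem_ofPred_eq, mem_iUnion, mem_inter_iff, mem_iInter, mem_union, mem_compl_iff]
  rw [this]
  exact (MeasurableSet.iUnion fun n' => (MeasurableSet.const _).inter (measurableSet_Best hM n')).union
    (MeasurableSet.iInter fun m => (measurableSet_Best hM m).compl)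

theorem measurable_phi {M : Set YY} (hM : MeasurableSet M) : Measurable (phi M) :=
  measurable_apply_index measurable_psi (measurable_N0 hM)

theorem N0_spec (M : Set YY) (S : YY) : QQ M S (N0 M S) := by
  classical
  exact Nat.find_spec (exists_QQ M S)

theorem EY_phi (M : Set YY) (S : YY) : EY S (phi M S) := EY_psi S _

theorem phi_of_finite (M : Set YY) {S : YY} (h : S.1.1.Finite) : phi M S = S := by
  classical
  have hnb : ∀ m, ¬ Best M m S := fun m hm => hm.1.2.1 h
  have h0 : N0 M S = 0 := by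
    have : QQ M S 0 := Or.inr hnb
    exact Nat.le_zero.1 (Nat.find_min' (exists_QQ M S) this)
  unfold phi
  rw [h0]
  rfl

section
variable {M : Set YY} (hmax : ∀ x, x ∈ M ∨ ∃ y ∈ M, AdjR x.1 y.1)
include hmax

theorem dense_pair {S : DiscSet} (hS : S.1.Infinite) {p : ℂ × ℂ} (hp : Pr S.1 p) :
    ∃ q, Pr S.1 q ∧ nrm S q.1 q.2 ∈ MD M ∧ ‖q.1 - p.1‖ ≤ scl q ∧ scl p / 2 ≤ scl q ∧
      scl q ≤ 2 * scl p := by
  rcases hmax ⟨nrm S p.1 p.2, nml_nrm hp.1 hp.2.1 hp.2.2⟩ with h | ⟨y, hy, h⟩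
  · refine ⟨p, hp, ⟨_, h, rfl⟩, ?_, ?_, ?_⟩
    · rw [sub_self, norm_zero]; exact (scl_pos hp).le
    · linarith [scl_pos hp]
    · linarith [scl_pos hp]
  · obtain ⟨q, hq, hqy, h1, h2, h3, h4⟩ := close_of_adj hp h
    exact ⟨q, hq, ⟨y, hy, hqy.symm⟩, h2, h3, h4⟩

theorem exists_far {S : DiscSet} (hS : S.1.Infinite) (R : ℝ) : ∃ w ∈ S.1, R < ‖w‖ := by
  by_contra h
  push Not at h
  apply hS
  refine (S.finite_inter R).subset ?_
  intro w hw
  exact ⟨hw, by simpa using h w hw⟩

theorem exists_best {S : YY} (hS : S.1.1.Infinite) : ∃ n, Best M n S := by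
  -- a first candidate pair
  obtain ⟨w, hw, hw4⟩ := exists_far hmax hS 4
  have h0 := S.zero_mem hS
  have hw0 : (0:ℂ) ≠ w := by
    rintro rfl
    rw [norm_zero] at hw4
    linarith
  obtain ⟨q, hq, hqM, hq1, hq2, hq3⟩ := dense_pair hmax hS (p := ((0:ℂ), w)) ⟨h0, hw, hw0⟩
  have hs : scl ((0:ℂ), w) = ‖w‖ := by simp [scl]
  rw [hs] at hq2
  simp only [sub_zero] at hq1
  -- finite set of candidate pairs
  set F : Set (ℂ × ℂ) := {p | Pr S.1.1 p ∧ nrm S.1 p.1 p.2 ∈ MD M ∧ 2 ≤ scl p ∧ ‖p.1‖ ≤ scl p ∧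
    scl p ≤ scl q} with hF
  have hFfin : F.Finite := by
    refine ((S.1.finite_inter (2 * scl q)).prod (S.1.finite_inter (2 * scl q))).subset ?_
    rintro p ⟨hp, _, hp2, hp3, hp4⟩
    refine ⟨⟨hp.1, ?_⟩, ⟨hp.2.1, ?_⟩⟩
    · rw [mem_closedBall_zero_iff]; linarith
    · rw [mem_closedBall_zero_iff]
      have h5 := norm_sub_norm_le p.2 p.1
      have h6 : scl p = ‖p.2 - p.1‖ := rfl
      linarith
  have hFne : F.Nonempty := ⟨q, hq, hqM, by linarith, hq1, le_rfl⟩
  obtain ⟨p, ⟨hp, hpM, hp2, hp3, hp4⟩, hpmin⟩ := Set.exists_min_image F scl hFfin hFne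
  obtain ⟨i, hi, hip⟩ := exists_pt hp.1
  obtain ⟨j, hj, hjp⟩ := exists_pt hp.2.1
  obtain ⟨n, hn⟩ := dec_surj (0, i, j)
  have hsiz : siz n S = scl p := by
    unfold siz scl
    rw [hn, hip, hjp]
  refine ⟨n, ⟨?_, hS, ?_, ?_, ?_, ?_, ?_, ?_⟩, ?_⟩
  · rw [hn]
  · rw [hn]; exact hi
  · rw [hn]; exact hj
  · rw [hn]; simp only; rw [hip, hjp]; exact hp.2.2
  · rw [hn]; simp only; rw [hip, hjp]; exact hpM
  · rw [hsiz]; exact hp2
  · rw [hsiz, hn]; simp only; rw [hip]; exact hp3
  · intro m hm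
    obtain ⟨_, _, hm1, hm2, hm3, hm4, hm5, hm6⟩ := hm
    rw [hsiz]
    by_cases hle : siz m S ≤ scl q
    · exact hpmin (pt (dec m).2.1 S.1, pt (dec m).2.2 S.1)
        ⟨⟨pt_mem hm1, pt_mem hm2, hm3⟩, hm4, hm5, hm6, hle⟩
    · push Not at hle
      linarith

theorem phi_spec {S : YY} (hS : S.1.1.Infinite) : ∃ p : ℂ × ℂ, Pr S.1.1 p ∧
    (phi M S).1 = nrm S.1 p.1 p.2 ∧ nrm S.1 p.1 p.2 ∈ MD M ∧ 2 ≤ scl p ∧ ‖p.1‖ ≤ scl p ∧
    ∀ q, Pr S.1.1 q → nrm S.1 q.1 q.2 ∈ MD M → 2 ≤ scl q → ‖q.1‖ ≤ scl q → scl p ≤ scl q := by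
  rcases N0_spec M S with ⟨n, hn, hbest⟩ | h
  · obtain ⟨⟨hb0, _, hb1, hb2, hb3, hb4, hb5, hb6⟩, hmin⟩ := hbest
    refine ⟨(pt (dec n).2.1 S.1, pt (dec n).2.2 S.1), ⟨pt_mem hb1, pt_mem hb2, hb3⟩, ?_, hb4, hb5, hb6, ?_⟩
    · unfold phi
      rw [hn]
      change psiD (dec n) S.1 = _
      unfold psiD
      rw [if_pos]
      · rw [hb0]; rfl
      · unfold cnd
        rw [hb0]
        exact ⟨hb1, hb2, hb3⟩
    · intro q hq hqM hq2 hq3
      obtain ⟨i, hi, hiq⟩ := exists_pt hq.1
      obtain ⟨j, hj, hjq⟩ := exists_pt hq.2.1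
      obtain ⟨m, hm⟩ := dec_surj (0, i, j)
      have hsiz : siz m S = scl q := by
        unfold siz scl
        rw [hm, hiq, hjq]
      have hc : Cand M m S := by
        refine ⟨?_, hS, ?_, ?_, ?_, ?_, ?_, ?_⟩
        · rw [hm]
        · rw [hm]; exact hi
        · rw [hm]; exact hj
        · rw [hm]; simp only; rw [hiq, hjq]; exact hq.2.2
        · rw [hm]; simp only; rw [hiq, hjq]; exact hqM
        · rw [hsiz]; exact hq2
        · rw [hsiz, hm]; simp only; rw [hiq]; exact hq3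
      have := hmin m hc
      rw [hsiz] at this
      exact this
  · obtain ⟨n, hn⟩ := exists_best hmax hS
    exact absurd hn (h n)

/-- the map on pairs induced by `phi` -/
theorem exists_next {S : DiscSet} (hS : S.1.Infinite) : ∃ next : ℂ × ℂ → ℂ × ℂ,
    UpMap S.1 (fun p => nrm S p.1 p.2 ∈ MD M) next ∧
    ∀ (T : YY) (p : ℂ × ℂ), Pr S.1 p → T.1 = nrm S p.1 p.2 →
      (phi M T).1 = nrm S (next p).1 (next p).2 := by
  have key : ∀ p : ℂ × ℂ, Pr S.1 p → ∃ p' : ℂ × ℂ, Pr S.1 p' ∧ nrm S p'.1 p'.2 ∈ MD M ∧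
      2 * scl p ≤ scl p' ∧ ‖p'.1 - p.1‖ ≤ scl p' ∧
      (∀ q, Pr S.1 q → nrm S q.1 q.2 ∈ MD M → 2 * scl p ≤ scl q → ‖q.1 - p.1‖ ≤ scl q →
        scl p' ≤ scl q) ∧
      (∀ T : YY, T.1 = nrm S p.1 p.2 → (phi M T).1 = nrm S p'.1 p'.2) := by
    intro p hp
    obtain ⟨z, w⟩ := p
    obtain ⟨hz, hw, hzw⟩ := hp
    simp only at hz hw hzw
    have hne0 : w - z ≠ 0 := sub_ne_zero.2 hzw.symm
    have hpos : 0 < ‖w - z‖ := norm_pos_iff.2 hne0
    set T0 : YY := ⟨nrm S z w, nml_nrm hz hw hzw⟩ with hT0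
    have hT0i : T0.1.1.Infinite := nrm_infinite hS
    obtain ⟨⟨u, v⟩, ⟨hu, hv, huv⟩, h1, h2, h3, h4, h5⟩ := phi_spec hmax hT0i
    simp only [scl] at *
    have hu' : z + (w - z) * u ∈ S.1 := (mem_nrm hzw).1 hu
    have hv' : z + (w - z) * v ∈ S.1 := (mem_nrm hzw).1 hv
    have e3 : (z + (w - z) * v) - (z + (w - z) * u) = (w - z) * (v - u) := by ring
    have e4 : nrm T0.1 u v = nrm S (z + (w - z) * u) (z + (w - z) * v) := nrm_nrm hzw huv
    refine ⟨(z + (w - z) * u, z + (w - z) * v), ⟨hu', hv', ?_⟩, ?_, ?_, ?_, ?_, ?_⟩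
    · intro h6
      exact huv (mul_left_cancel₀ hne0 (add_left_cancel h6))
    · rw [← e4]; exact h2
    · rw [e3, norm_mul]
      nlinarith
    · rw [e3, add_sub_cancel_left, norm_mul, norm_mul]
      exact mul_le_mul_of_nonneg_left h4 hpos.le
    · rintro ⟨z', w'⟩ ⟨hz', hw', hzw'⟩ hqM hq1 hq2
      simp only at hz' hw' hzw' hqM hq1 hq2 ⊢
      have hne1 : w' - z' ≠ 0 := sub_ne_zero.2 hzw'.symm
      have e1 : z + (w - z) * ((z' - z) / (w - z)) = z' := by field_simp; ring
      have e2 : z + (w - z) * ((w' - z) / (w - z)) = w' := by field_simp; ring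
      have e5 : (w' - z) / (w - z) - (z' - z) / (w - z) = (w' - z') / (w - z) := by ring
      have huv' : (z' - z) / (w - z) ≠ (w' - z) / (w - z) := by
        intro h
        have h5 : (w' - z) / (w - z) - (z' - z) / (w - z) = 0 := by rw [h, sub_self]
        rw [e5] at h5
        exact div_ne_zero hne1 hne0 h5
      have h6 := h5 ((z' - z) / (w - z), (w' - z) / (w - z)) ⟨?_, ?_, huv'⟩ ?_ ?_ ?_
      · simp only at h6
        rw [e5, norm_div, le_div_iff₀ hpos] at h6
        rw [e3, norm_mul]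
        linarith
      · change _ ∈ (nrm S z w).1
        rw [mem_nrm hzw, e1]; exact hz'
      · change _ ∈ (nrm S z w).1
        rw [mem_nrm hzw, e2]; exact hw'
      · change nrm (nrm S z w) _ _ ∈ _
        rw [nrm_nrm hzw huv', e1, e2]; exact hqM
      · simp only
        rw [e5, norm_div, le_div_iff₀ hpos]
        exact hq1
      · simp only
        rw [e5, norm_div, norm_div]
        exact div_le_div_of_nonneg_right hq2 hpos.le
    · intro T hT
      have : T = T0 := Subtype.ext hT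
      rw [this, h1, e4]
  choose! next hn using key
  refine ⟨next, ⟨fun p hp => (hn p hp).1, fun p hp => (hn p hp).2.1, fun p hp => (hn p hp).2.2.1,
    fun p hp => (hn p hp).2.2.2.1, fun p hp => (hn p hp).2.2.2.2.1,
    fun p hp => dense_pair hmax hS hp⟩, fun T p hp hT => (hn p hp).2.2.2.2.2 T hT⟩

end

/-! ### Hyperfiniteness on the section -/

theorem sp_of_infinite {S : DiscSet} (hS : S.1.Infinite) (k : ℕ) : sp k S = S := by
  cases k with
  | zero => rfl
  | succ k =>
    change ivn S (pt k S) = S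
    unfold ivn
    rw [dif_neg]
    rintro ⟨_, h⟩
    exact hS h

theorem psi_pair {S : YY} (hS : S.1.1.Infinite) (i : ℕ) :
    ∃ p : ℂ × ℂ, Pr S.1.1 p ∧ (psi i S).1 = nrm S.1 p.1 p.2 := by
  cases i with
  | zero => exact ⟨(0, 1), pr_zero_one hS, (nrm_zero_one _).symm⟩
  | succ n =>
    change ∃ p : ℂ × ℂ, Pr S.1.1 p ∧ psiD (dec n) S.1 = nrm S.1 p.1 p.2
    unfold psiD
    split_ifs with h
    · unfold cnd at h
      rw [sp_of_infinite hS] at h ⊢
      exact ⟨(pt (dec n).2.1 S.1, pt (dec n).2.2 S.1), ⟨pt_mem h.1, pt_mem h.2.1, h.2.2⟩, rfl⟩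
    · exact ⟨(0, 1), pr_zero_one hS, (nrm_zero_one _).symm⟩

theorem finite_range_psi {S : YY} (hS : S.1.1.Finite) : (range (fun i => psi i S)).Finite := by
  classical
  set 𝒜 : Set DiscSet := {S.1} ∪ (ivn S.1) '' (S.1.1 ∪ {0}) with h𝒜
  have h𝒜f : 𝒜.Finite := (finite_singleton _).union ((hS.union (finite_singleton _)).image _)
  have hAf : ∀ A ∈ 𝒜, A.1.Finite := by
    rintro A (rfl | ⟨p, _, rfl⟩)
    · exact hS
    · exact ivn_finite hS
  have hsp : ∀ k, sp k S.1 ∈ 𝒜 := by
    intro k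
    cases k with
    | zero => exact Or.inl rfl
    | succ k =>
      right
      refine ⟨pt k S.1, ?_, rfl⟩
      by_cases hv : valid k S.1
      · exact Or.inl (pt_mem hv)
      · right
        unfold pt
        rw [dif_neg hv]
        rfl
  have hbig : ({S.1} ∪ ⋃ A ∈ 𝒜, (fun p : ℂ × ℂ => nrm A p.1 p.2) '' (A.1 ×ˢ A.1) : Set DiscSet).Finite := by
    refine (finite_singleton _).union (h𝒜f.biUnion fun A hA => ?_)
    exact ((hAf A hA).prod (hAf A hA)).image _
  have hpre : (Subtype.val ⁻¹' ({S.1} ∪ ⋃ A ∈ 𝒜, (fun p : ℂ × ℂ => nrm A p.1 p.2) '' (A.1 ×ˢ A.1)) : Set YY).Finite :=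
    hbig.preimage Subtype.val_injective.injOn
  refine hpre.subset ?_
  rintro _ ⟨i, rfl⟩
  rw [mem_preimage]
  cases i with
  | zero => exact Or.inl rfl
  | succ n =>
    change psiD (dec n) S.1 ∈ _
    unfold psiD
    split_ifs with h
    · right
      simp only [mem_iUnion]
      exact ⟨_, hsp _, (_, _), ⟨pt_mem h.1, pt_mem h.2.1⟩, rfl⟩
    · exact Or.inl rfl

/-- tail equivalence of `phi` -/
def RT (M : Set YY) (S T : YY) : Prop := ∃ m n, (phi M)^[m] S = (phi M)^[n] T

theorem EY_phi_iter (M : Set YY) (S : YY) (n : ℕ) : EY S ((phi M)^[n] S) := by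
  induction n with
  | zero => exact EY_equivalence.refl S
  | succ n ih =>
    rw [iterate_succ_apply']
    exact EY_equivalence.trans ih (EY_phi M _)

theorem RT_EY {M : Set YY} {S T : YY} (h : RT M S T) : EY S T := by
  obtain ⟨m, n, h⟩ := h
  have h1 := EY_phi_iter M S m
  have h2 := EY_phi_iter M T n
  rw [← h] at h2
  exact EY_equivalence.trans h1 (EY_equivalence.symm h2)

theorem phi_iter_eq {M : Set YY} {S : DiscSet} {next : ℂ × ℂ → ℂ × ℂ}
    (hup : UpMap S.1 (fun p => nrm S p.1 p.2 ∈ MD M) next)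
    (hn : ∀ (T : YY) (p : ℂ × ℂ), Pr S.1 p → T.1 = nrm S p.1 p.2 →
      (phi M T).1 = nrm S (next p).1 (next p).2) {T : YY} {p : ℂ × ℂ} (hp : Pr S.1 p)
    (hT : T.1 = nrm S p.1 p.2) (n : ℕ) :
    ((phi M)^[n] T).1 = nrm S (next^[n] p).1 (next^[n] p).2 := by
  induction n with
  | zero => exact hT
  | succ n ih =>
    rw [iterate_succ_apply', iterate_succ_apply']
    exact hn _ _ (hup.pr_iter hp n) ih

theorem hyperfinite_EY : Hyperfinite EY := by
  classical
  obtain ⟨M, hMm, hMi, hmax⟩ := exists_M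
  have hR : Hyperfinite (RT M) :=
    hyperfinite_tail psi measurable_psi (phi M) (measurable_phi hMm) (RT M) (fun _ _ => Iff.rfl)
      (fun S T h => (EY_iff S T).1 (RT_EY h))
  refine hyperfinite_finite_index psi measurable_psi (fun _ => rfl) EY EY_equivalence EY_psi
    (fun S T => (EY_iff S T).1) (RT M) hR (fun S T h => RT_EY h) ?_
  intro S
  by_cases hS : S.1.1.Finite
  · -- finite case
    have hfin := finite_range_psi hS
    choose! g hg using fun (T : YY) (hT : T ∈ range (fun i => psi i S)) => hT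
    obtain ⟨N, hN⟩ := (hfin.image g).bddAbove
    refine ⟨N, fun i => ?_⟩
    have hi : psi i S ∈ range (fun i => psi i S) := ⟨i, rfl⟩
    refine ⟨g (psi i S), hN ⟨_, hi, rfl⟩, 0, 0, ?_⟩
    exact (hg _ hi).symm
  · -- infinite case
    have hSi : S.1.1.Infinite := hS
    by_contra hcon
    push Not at hcon
    obtain ⟨next, hup, hnext⟩ := exists_next hmax hSi
    choose p hp hpS using psi_pair hSi
    have hRsymm : ∀ A B : YY, RT M A B → RT M B A := by
      rintro A B ⟨m, n, h⟩
      exact ⟨n, m, h.symm⟩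
    obtain ⟨f, -, hf⟩ := exists_seq_of_forall_finset_exists (α := ℕ) (fun _ => True)
      (fun a b => ¬ RT M (psi a S) (psi b S)) (by
        intro s _
        obtain ⟨i, hi⟩ := hcon (s.sup id)
        refine ⟨i, trivial, fun x hx hR => ?_⟩
        exact hi x (Finset.le_sup (f := id) hx) (hRsymm _ _ hR))
    obtain ⟨K, hK⟩ := exists_pack
    obtain ⟨τ, hτ, c, hwin⟩ := hup.window (ι := Fin (K+1)) (fun k => p (f k)) (fun k => hp _)
    choose n hn1 hn2 hn3 hn4 using hwin
    obtain ⟨k, l, hkl, hc1, hc2⟩ := hK τ hτ c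
      (fun k => ((next^[n k] (p (f k))).1, scl (next^[n k] (p (f k))))) (fun k => ⟨hn2 k, hn3 k, hn4 k⟩)
    simp only at hc1 hc2
    rw [abs_le] at hc2
    have hin : ∀ k, nrm S.1 (next^[n k] (p (f k))).1 (next^[n k] (p (f k))).2 ∈ MD M := by
      intro k
      obtain ⟨m, hm⟩ : ∃ m, n k = m + 1 := ⟨n k - 1, by have := hn1 k; omega⟩
      rw [hm, iterate_succ_apply']
      exact hup.inM _ (hup.pr_iter (hp _) m)
    have heq : nrm S.1 (next^[n k] (p (f k))).1 (next^[n k] (p (f k))).2 =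
        nrm S.1 (next^[n l] (p (f l))).1 (next^[n l] (p (f l))).2 := by
      by_contra hne
      have h3k := hn3 k
      have h3l := hn3 l
      rw [norm_sub_rev] at hc1
      have hadj := adj_of_close hSi (hup.pr_iter (hp (f k)) (n k)) (hup.pr_iter (hp (f l)) (n l)) hne
        (by linarith) (by linarith) (by linarith) (by linarith)
      obtain ⟨x, hx, hxk⟩ := hin k
      obtain ⟨y, hy, hyl⟩ := hin l
      rw [← hxk, ← hyl] at hadj
      exact hMi x hx y hy hadj
    have hRkl : RT M (psi (f k) S) (psi (f l) S) := by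
      refine ⟨n k, n l, Subtype.ext ?_⟩
      rw [phi_iter_eq hup hnext (hp (f k)) (hpS (f k)) (n k),
        phi_iter_eq hup hnext (hp (f l)) (hpS (f l)) (n l)]
      exact heq
    rcases lt_or_gt_of_ne hkl with h | h
    · exact hf k l h hRkl
    · exact hf l k h (hRsymm _ _ hRkl)

/-! ### The theorem -/

theorem measurable_apply_index' {X Z : Type*} [MeasurableSpace X] [MeasurableSpace Z]
    {ψ : ℕ → X → Z} (hψ : ∀ i, Measurable (ψ i))
    {N : X → ℕ} (hN : Measurable N) : Measurable (fun x => ψ (N x) x) := by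
  have h : Measurable (fun p : X × ℕ => ψ p.2 p.1) :=
    measurable_from_prod_countable_left (fun y => hψ y)
  exact h.comp (measurable_id.prodMk hN)

/-- `{0}` as an element of the space -/
def zeroD : DiscSet := ⟨{0}, disc_of_finite fun _ => (finite_singleton _).subset inter_subset_left⟩

theorem conf_single {S : DiscSet} {z : ℂ} (hS : S.1 = {z}) : ConfEquiv S zeroD := by
  refine ⟨fun x => x - z, fun y => y + z, by fun_prop, by fun_prop, ?_, ?_, ?_, ?_⟩
  · intro x hx h
    rw [hS] at hx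
    have h' : x - z = 0 := h
    exact hx (sub_eq_zero.1 h')
  · intro y hy h
    rw [hS] at h
    have h' : y + z = z := h
    have h'' : y = 0 := by simpa using h'
    exact hy h''
  · intro x _
    simp
  · intro y _
    simp

/-- index predicate for a pair of distinct points -/
def RQ (S : DiscSet) (n : ℕ) : Prop := cnd (0, n.unpair) S ∨ ∀ m : ℕ, ¬ cnd (0, m.unpair) S

theorem exists_RQ (S : DiscSet) : ∃ n, RQ S n := by
  by_cases h : ∃ m : ℕ, cnd (0, m.unpair) S
  · obtain ⟨m, hm⟩ := h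
    exact ⟨m, Or.inl hm⟩
  · push Not at h
    exact ⟨0, Or.inr h⟩

open Classical in
/-- index of a pair of distinct points -/
noncomputable def rN (S : DiscSet) : ℕ := Nat.find (exists_RQ S)

theorem rN_spec (S : DiscSet) : RQ S (rN S) := by
  classical
  exact Nat.find_spec (exists_RQ S)

theorem measurable_rN : Measurable rN := by
  classical
  apply measurable_find
  intro k
  have : {S | RQ S k} = {S | cnd (0, k.unpair) S} ∪ ⋂ m : ℕ, {S | cnd (0, m.unpair) S}ᶜ := by
    ext S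
    simp only [RQ, mem_ofPred_eq, mem_iInter, mem_union, mem_compl_iff]
  rw [this]
  exact (measurableSet_cnd _).union (MeasurableSet.iInter fun m => (measurableSet_cnd _).compl)

open Classical in
/-- normalisation -/
noncomputable def repD (S : DiscSet) : DiscSet :=
  if cnd (0, (rN S).unpair) S then nrm S (pt (rN S).unpair.1 S) (pt (rN S).unpair.2 S)
  else if S.1 = ∅ then S else zeroD

theorem cnd_of_two {S : DiscSet} {z w : ℂ} (hz : z ∈ S.1) (hw : w ∈ S.1) (hzw : z ≠ w) :
    ∃ m : ℕ, cnd (0, m.unpair) S := by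
  obtain ⟨i, hi, rfl⟩ := exists_pt hz
  obtain ⟨j, hj, rfl⟩ := exists_pt hw
  refine ⟨Nat.pair i j, ?_⟩
  rw [Nat.unpair_pair]
  exact ⟨hi, hj, hzw⟩

theorem repD_spec (S : DiscSet) : Nml (repD S) ∧ ConfEquiv S (repD S) := by
  unfold repD
  split_ifs with h1 h2
  · exact ⟨nml_nrm (pt_mem h1.1) (pt_mem h1.2.1) h1.2.2, conf_nrm _ _ _⟩
  · exact ⟨Or.inr (Or.inl h2), ConfEquiv.refl S⟩
  · refine ⟨Or.inr (Or.inr rfl), ?_⟩
    obtain ⟨z, hz⟩ := nonempty_iff_ne_empty.2 h2
    have hno : ∀ m : ℕ, ¬ cnd (0, m.unpair) S := by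
      rcases rN_spec S with h | h
      · exact absurd h h1
      · exact h
    have hS : S.1 = {z} := by
      ext w
      constructor
      · intro hw
        by_contra hne
        have hne' : z ≠ w := fun h => hne (by rw [h]; rfl)
        obtain ⟨m, hm⟩ := cnd_of_two hz hw hne'
        exact hno m hm
      · rintro rfl
        exact hz
    exact conf_single hS

theorem measurable_repD : Measurable repD := by
  classical
  have hc : MeasurableSet {S | cnd (0, (rN S).unpair) S} := by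
    have : {S | cnd (0, (rN S).unpair) S} = ⋃ n : ℕ, ({S | rN S = n} ∩ {S | cnd (0, n.unpair) S}) := by
      ext S
      simp only [mem_ofPred_eq, mem_iUnion, mem_inter_iff]
      constructor
      · intro h; exact ⟨_, rfl, h⟩
      · rintro ⟨n, rfl, h⟩; exact h
    rw [this]
    exact MeasurableSet.iUnion fun n => (measurable_rN (measurableSet_singleton n)).inter
      (measurableSet_cnd _)
  have he : MeasurableSet {S : DiscSet | S.1 = ∅} := by
    have : {S : DiscSet | S.1 = ∅} = {S : DiscSet | (S.1 ∩ univ).Nonempty}ᶜ := by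
      ext S
      simp [not_nonempty_iff_eq_empty]
    rw [this]
    exact (measurableSet_hit isOpen_univ).compl
  have h1 : Measurable (fun S : DiscSet => pt (rN S).unpair.1 S) :=
    measurable_apply_index' (ψ := fun n S => pt n.unpair.1 S) (fun n => measurable_pt _) measurable_rN
  have h2 : Measurable (fun S : DiscSet => pt (rN S).unpair.2 S) :=
    measurable_apply_index' (ψ := fun n S => pt n.unpair.2 S) (fun n => measurable_pt _) measurable_rN
  exact Measurable.ite hc (measurable_nrm measurable_id h1 h2)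
    (Measurable.ite he measurable_id measurable_const)

theorem measurableSet_EY : MeasurableSet {p : YY × YY | EY p.1 p.2} := by
  have : {p : YY × YY | EY p.1 p.2} = ⋃ n, {p : YY × YY | psi n p.1 = p.2} := by
    ext p
    simp only [mem_ofPred_eq, mem_iUnion]
    exact EY_iff _ _
  rw [this]
  exact MeasurableSet.iUnion fun n =>
    measurableSet_eq_fun ((measurable_psi n).comp measurable_fst) measurable_snd

theorem isCBER_EY : IsCBER EY := by
  refine ⟨EY_equivalence, measurableSet_EY, fun S => ?_⟩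
  have : {T | EY S T} = range (fun n => psi n S) := by
    ext T
    simp only [mem_ofPred_eq, mem_range]
    exact EY_iff _ _
  rw [this]
  exact countable_range _

theorem reduces_to_EY : BorelReduces ConfEquiv EY := by
  refine ⟨fun S => ⟨repD S, (repD_spec S).1⟩, measurable_repD.subtype_mk, fun S T => ?_⟩
  have hS := (repD_spec S).2
  have hT := (repD_spec T).2
  constructor
  · intro h
    exact (hS.symm.trans h).trans hT
  · intro h
    exact (hS.trans h).trans hT.symm

theorem essentiallyHyperfinite_confEquiv : EssentiallyHyperfinite ConfEquiv := by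
  obtain ⟨f, hf, hfr⟩ := reduces_to_EY
  refine ⟨inferInstance, ⟨ConfEquiv.refl, fun h => h.symm, fun h h' => h.trans h'⟩, ?_,
    YY, inferInstance, inferInstance, EY, isCBER_EY, hyperfinite_EY, ⟨f, hf, hfr⟩,
    ⟨Subtype.val, measurable_subtype_coe, fun _ _ => Iff.rfl⟩⟩
  have : {p : DiscSet × DiscSet | ConfEquiv p.1 p.2} =
      (fun p : DiscSet × DiscSet => (f p.1, f p.2)) ⁻¹' {p : YY × YY | EY p.1 p.2} := by
    ext p
    exact hfr _ _
  rw [this]
  exact ((hf.comp measurable_fst).prodMk (hf.comp measurable_snd)) measurableSet_EY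

end Pool.Agent.Helper281.Conformal
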