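import Mathlib

set_option autoImplicit false
set_option linter.unusedSectionVars false

namespace Pool.Agent.Helper281.Erg

open MeasureTheory Set Filter Topology
open scoped ENNReal

variable {X : Type*} [MeasurableSpace X]

/-- group of measure preserving bimeasurable permutations -/
def MP (μ : Measure X) : Subgroup (Equiv.Perm X) where
  carrier := {g | Measurable g ∧ Measurable g.symm ∧ MeasurePreserving g μ μ}
  mul_mem' := by
    rintro g h ⟨g1, g2, g3⟩ ⟨h1, h2, h3⟩
    exact ⟨g1.comp h1, h2.comp g2, g3.comp h3⟩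
  one_mem' := ⟨measurable_id, measurable_id, MeasurePreserving.id μ⟩
  inv_mem' := by
    rintro g ⟨g1, g2, g3⟩
    refine ⟨g2, g1, ?_⟩
    exact MeasurePreserving.symm (⟨g, g1, g2⟩ : X ≃ᵐ X) g3

variable {μ : Measure X}

theorem gm (g : MP μ) : Measurable (g : Equiv.Perm X) := g.2.1
theorem gmi (g : MP μ) : Measurable ((g : Equiv.Perm X)⁻¹ : Equiv.Perm X) := g.2.2.1
theorem gmp (g : MP μ) : MeasurePreserving (g : Equiv.Perm X) μ μ := g.2.2.2

theorem gpre (g : MP μ) (s : Set X) (hs : MeasurableSet s) :
    μ ((g : Equiv.Perm X) ⁻¹' s) = μ s := (gmp g).measure_preimage hs.nullMeasurableSet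

section dist

variable [StandardBorelSpace X] [IsProbabilityMeasure μ]

theorem meas_ne {f g : X → X} (hf : Measurable f) (hg : Measurable g) :
    MeasurableSet {x | f x ≠ g x} := (measurableSet_eq_fun hf hg).compl

/-- uniform distance -/
noncomputable def ud (μ : Measure X) (g h : Equiv.Perm X) : ℝ := μ.real {x | g x ≠ h x}

theorem ud_self (g : Equiv.Perm X) : ud μ g g = 0 := by simp [ud]

theorem ud_comm (g h : Equiv.Perm X) : ud μ g h = ud μ h g := by
  simp only [ud, ne_comm]

theorem ud_triangle (g h k : Equiv.Perm X) : ud μ g k ≤ ud μ g h + ud μ h k := by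
  refine (measureReal_mono ?_ (measure_ne_top _ _)).trans (measureReal_union_le _ _)
  intro x hx
  simp only [mem_union, Set.mem_ofPred_eq] at hx ⊢
  by_contra! hc
  exact hx (hc.1.trans hc.2)

theorem ud_mul_left (k g h : Equiv.Perm X) : ud μ (k * g) (k * h) = ud μ g h := by
  simp only [ud, Equiv.Perm.mul_apply, ne_eq, EmbeddingLike.apply_eq_iff_eq]

theorem ud_mul_right (k : MP μ) (g h : MP μ) :
    ud μ ((g : Equiv.Perm X) * k) ((h : Equiv.Perm X) * k) = ud μ g h := by
  have : {x | ((g : Equiv.Perm X) * k) x ≠ ((h : Equiv.Perm X) * k) x}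
      = (k : Equiv.Perm X) ⁻¹' {x | (g : Equiv.Perm X) x ≠ (h : Equiv.Perm X) x} := rfl
  rw [ud, this, measureReal_def, gpre k _ (meas_ne (gm g) (gm h))]
  rfl

noncomputable instance : PseudoMetricSpace (MP μ) where
  dist g h := ud μ g h
  dist_self g := ud_self _
  dist_comm g h := ud_comm _ _
  dist_triangle g h k := ud_triangle _ _ _

theorem dist_def (g h : MP μ) : dist g h = ud μ g h := rfl

theorem dist_mul_left' (k g h : MP μ) : dist (k * g) (k * h) = dist g h := ud_mul_left _ _ _

theorem dist_mul_right' (k g h : MP μ) : dist (g * k) (h * k) = dist g h := ud_mul_right _ _ _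

theorem dist_inv' (g h : MP μ) : dist g⁻¹ h⁻¹ = dist g h := by
  have h1 := dist_mul_left' (μ := μ) g g⁻¹ h⁻¹
  have h2 := dist_mul_right' (μ := μ) h (g * g⁻¹) (g * h⁻¹)
  rw [← h1, ← h2, mul_inv_cancel, one_mul, mul_assoc, inv_mul_cancel, mul_one, dist_comm]

instance : IsTopologicalGroup (MP μ) where
  continuous_mul := by
    rw [Metric.continuous_iff]
    rintro ⟨g, h⟩ ε hε
    refine ⟨ε / 2, by positivity, ?_⟩
    rintro ⟨g', h'⟩ hd
    rw [Prod.dist_eq] at hd
    have h1 : dist g' g < ε / 2 := lt_of_le_of_lt (le_max_left _ _) hd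
    have h2 : dist h' h < ε / 2 := lt_of_le_of_lt (le_max_right _ _) hd
    calc dist (g' * h') (g * h) ≤ dist (g' * h') (g * h') + dist (g * h') (g * h) :=
          dist_triangle _ _ _
      _ = dist g' g + dist h' h := by rw [dist_mul_right', dist_mul_left']
      _ < ε := by linarith
  continuous_inv := by
    rw [Metric.continuous_iff]
    intro g ε hε
    exact ⟨ε, hε, fun h hd => by rwa [dist_inv']⟩

theorem continuous_lift {Y : Type*} [TopologicalSpace Y] (f : Y → Fin 2 → MP μ)
    (hf : ∀ i, Continuous fun y => f y i) (w : FreeGroup (Fin 2)) :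
    Continuous fun y => FreeGroup.lift (f y) w := by
  refine FreeGroup.induction_on (C := fun w => Continuous fun y => FreeGroup.lift (f y) w) w
    ?_ ?_ ?_ ?_
  · simp only [_root_.map_one]; exact continuous_const
  · intro i; simp only [FreeGroup.lift_apply_of]; exact hf i
  · intro i ih; simp only [_root_.map_inv]; exact ih.inv
  · intro x y hx hy; simp only [_root_.map_mul]; exact hx.mul hy

end dist

section full

/-- a bimeasurable permutation in the full group of a measure preserving one preserves the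
measure -/
theorem mp_of_full [StandardBorelSpace X] [IsProbabilityMeasure μ] (T : MP μ) (φ : Equiv.Perm X)
    (h1 : Measurable φ) (h2 : Measurable φ.symm)
    (h3 : ∀ x, ∃ j : ℤ, φ x = ((T ^ j : MP μ) : Equiv.Perm X) x) : φ ∈ MP μ := by
  refine ⟨h1, h2, h1, ?_⟩
  ext s hs
  rw [Measure.map_apply h1 hs]
  obtain ⟨e, he⟩ := exists_surjective_nat ℤ
  -- pieces
  let P : ℕ → Set X := fun n => {x | φ x = ((T ^ (e n) : MP μ) : Equiv.Perm X) x}
  have hP : ∀ n, MeasurableSet (P n) := fun n => measurableSet_eq_fun h1 (gm (T ^ (e n)))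
  let D : ℕ → Set X := disjointed P
  have hD : ∀ n, MeasurableSet (D n) := fun n => MeasurableSet.disjointed hP n
  have hDd : Pairwise (Function.onFun Disjoint D) := disjoint_disjointed P
  have hDP : ∀ n, D n ⊆ P n := fun n => disjointed_subset P n
  have hDu : ⋃ n, D n = univ := by
    rw [iUnion_disjointed]
    refine eq_univ_of_forall fun x => ?_
    obtain ⟨j, hj⟩ := h3 x
    obtain ⟨n, hn⟩ := he j
    exact mem_iUnion.2 ⟨n, by simpa [P, hn] using hj⟩
  have himg : ∀ n, φ '' D n = ((T ^ (e n) : MP μ) : Equiv.Perm X) '' D n := fun n =>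
    image_congr fun x hx => hDP n hx
  have himgm : ∀ n, MeasurableSet (φ '' D n) := fun n => by
    have : φ '' D n = φ.symm ⁻¹' D n := by rw [Equiv.image_eq_preimage_symm]
    rw [this]; exact h2 (hD n)
  have e1 : φ ⁻¹' s = ⋃ n, (φ ⁻¹' s ∩ D n) := by rw [← inter_iUnion, hDu, inter_univ]
  have e2 : s = ⋃ n, (s ∩ φ '' D n) := by
    rw [← inter_iUnion, ← image_iUnion, hDu, image_univ, φ.surjective.range_eq, inter_univ]
  rw [e1, measure_iUnion (fun i j hij => (hDd hij).mono inter_subset_right inter_subset_right)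
    (fun n => (h1 hs).inter (hD n))]
  conv_rhs => rw [e2]
  rw [measure_iUnion (fun i j hij => by
      refine Disjoint.mono inter_subset_right inter_subset_right ?_
      exact (disjoint_image_iff φ.injective).2 (hDd hij))
    (fun n => hs.inter (himgm n))]
  refine tsum_congr fun n => ?_
  rw [← gpre (T ^ (e n) : MP μ) _ (hs.inter (himgm n))]
  congr 1
  rw [preimage_inter, himg, preimage_image_eq _ ((T ^ (e n) : MP μ) : Equiv.Perm X).injective]
  ext x
  simp only [mem_inter_iff, mem_preimage]
  constructor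
  · rintro ⟨h4, h5⟩; exact ⟨by rwa [← hDP n h5], h5⟩
  · rintro ⟨h4, h5⟩; exact ⟨by rwa [show φ x = _ from hDP n h5], h5⟩

end full

end Pool.Agent.Helper281.Erg
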