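import Pool.Agent.Helper281.ErgWord

set_option autoImplicit false

namespace Pool.Agent.Helper281.Erg

open FreeGroup

/-- the reduced word starts with a letter of index zero and the given sign -/
def St (ε : Bool) (h : F2) : Prop := h.toWord.head? = some (0, ε)

theorem toWord_letter_mul {x : Fin 2} {b : Bool} {h : F2}
    (hh : h.toWord.head? ≠ some (x, !b)) :
    (mk [(x, b)] * h).toWord = (x, b) :: h.toWord := by
  have h1 : mk [(x, b)] * h = mk ((x, b) :: h.toWord) := by
    conv_lhs => rw [← mk_toWord (x := h)]
    rw [mul_mk]; rfl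
  rw [h1, toWord_mk]
  refine IsReduced.reduce_eq ?_
  have h2 := isReduced_toWord (x := h)
  rw [FreeGroup.IsReduced] at h2 ⊢
  rw [List.isChain_cons]
  refine ⟨?_, h2⟩
  rintro ⟨y, c⟩ hy hxy
  simp only at hxy ⊢
  by_contra hne
  apply hh
  rw [Option.mem_def.1 hy, hxy]
  cases b <;> cases c <;> simp_all

theorem toWord_bpow {h : F2} (hh : ∀ b, h.toWord.head? ≠ some (1, b)) (n : ℕ) (s : Bool) :
    (mk (List.replicate n (1, s)) * h).toWord = List.replicate n (1, s) ++ h.toWord := by
  have h1 : mk (List.replicate n (1, s)) * h = mk (List.replicate n (1, s) ++ h.toWord) := by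
    conv_lhs => rw [← mk_toWord (x := h)]
    rw [mul_mk]
  rw [h1, toWord_mk]
  refine IsReduced.reduce_eq ?_
  have h2 := isReduced_toWord (x := h)
  rw [FreeGroup.IsReduced] at h2 ⊢
  rw [List.isChain_append]
  refine ⟨List.isChain_replicate_of_rel _ (fun _ => rfl), h2, ?_⟩
  rintro ⟨x, b⟩ hx ⟨y, c⟩ hy hxy
  have hx' : (x, b) = ((1, s) : Fin 2 × Bool) := by
    have := List.mem_of_mem_getLast? hx
    exact List.eq_of_mem_replicate this
  simp only at hxy
  rw [Prod.mk.injEq] at hx'
  exact absurd (by rw [Option.mem_def.1 hy, ← hxy, hx'.1]) (hh c)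

theorem mk_replicate (n : ℕ) (s : Bool) :
    mk (List.replicate n (1, s)) = (of 1 : F2) ^ (if s then (n : ℤ) else -(n : ℤ)) := by
  induction n with
  | zero => cases s <;> simp [one_eq_mk]
  | succ n ih =>
    rw [List.replicate_succ, ← List.singleton_append, ← mul_mk, ih]
    cases s
    · have : mk [((1 : Fin 2), false)] = (of 1 : F2)⁻¹ := by rw [of, inv_mk]; rfl
      rw [this]
      simp only [Bool.false_eq_true, if_false]
      rw [← zpow_neg_one, ← zpow_add]
      congr 1
      push_cast
      ring
    · have : mk [((1 : Fin 2), true)] = (of 1 : F2) := rfl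
      rw [this]
      simp only [if_true]
      rw [← zpow_one_add]
      congr 1
      push_cast
      ring

theorem exists_bpow (j : ℤ) : ∃ (n : ℕ) (s : Bool), (of 1 : F2) ^ j = mk (List.replicate n (1, s))
    ∧ (n = 0 → j = 0) := by
  rcases le_total 0 j with h | h
  · refine ⟨j.toNat, true, ?_, by omega⟩
    rw [mk_replicate]
    simp [Int.toNat_of_nonneg h]
  · refine ⟨(-j).toNat, false, ?_, by omega⟩
    rw [mk_replicate]
    have : (((-j).toNat : ℕ) : ℤ) = -j := Int.toNat_of_nonneg (by omega)
    simp only [Bool.false_eq_true, if_false]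
    rw [this, neg_neg]

theorem not_St_bpow {h : F2} (hh : ∀ b, h.toWord.head? ≠ some (1, b)) {j : ℤ} (hj : j ≠ 0)
    (ε : Bool) : ¬ St ε ((of 1) ^ j * h) := by
  obtain ⟨n, s, h1, h2⟩ := exists_bpow j
  rw [St, h1, toWord_bpow hh]
  match n, h2 with
  | 0, h2 => exact absurd (h2 rfl) hj
  | n + 1, _ =>
    rw [List.replicate_succ, List.cons_append, List.head?_cons]
    intro h
    simp at h

theorem St.nb {ε : Bool} {h : F2} (hs : St ε h) : ∀ b, h.toWord.head? ≠ some (1, b) := by
  intro b hb
  rw [St] at hs
  rw [hs] at hb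
  simp at hb

theorem St.eq_zero {ε ε' : Bool} {h : F2} {j : ℤ} (hs : St ε h)
    (hs' : St ε' ((of 1) ^ j * h)) : j = 0 := by
  by_contra hj
  exact not_St_bpow hs.nb hj ε' hs'

theorem not_St_pow (j : ℤ) (ε : Bool) : ¬ St ε ((of 1) ^ j) := by
  by_cases hj : j = 0
  · subst hj; simp [St]
  · have := not_St_bpow (h := 1) (by simp) hj ε
    rwa [mul_one] at this

theorem St.unique {ε ε' : Bool} {h : F2} (hs : St ε h) (hs' : St ε' h) : ε = ε' := by
  rw [St] at hs hs'
  rw [hs] at hs'
  simpa using hs'

theorem St_true_mul {h : F2} (hh : ¬ St false h) : St true (of 0 * h) := by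
  have := toWord_letter_mul (x := 0) (b := true) (h := h) hh
  have e : (of 0 : F2) = mk [(0, true)] := rfl
  rw [St, e, this]; rfl

theorem St_false_mul {h : F2} (hh : ¬ St true h) : St false ((of 0)⁻¹ * h) := by
  have := toWord_letter_mul (x := 0) (b := false) (h := h) hh
  have e : (of 0 : F2)⁻¹ = mk [(0, false)] := by rw [of, inv_mk]; rfl
  rw [St, e, this]; rfl

section

variable {X : Type*} (A T φ : Equiv.Perm X) (x : X)

/-- state after the last letter of index zero -/
def RS (ε : Bool) (h : F2) : Prop :=
  if ε then St true h else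
    ∃ κ : ℤ, φ (lift ![A, T] h x) = (T ^ κ) (lift ![A, T] h x) ∧ St false ((of 1) ^ κ * h)

theorem inv_state (hφ : ∀ y, ∃ j : ℤ, φ y = (T ^ j) y)
    (hfree : ∀ g : F2, g ≠ 1 → lift ![A, T] g x ≠ x) : ∀ L : Wd, FreeGroup.IsReduced L →
    (∃ n s, L = List.replicate n (1, s) ∧ lift ![A * φ, T] (mk L) x = lift ![A, T] (mk L) x) ∨
    (∃ n s ε L₁ h, L = List.replicate n (1, s) ++ (0, ε) :: L₁ ∧
      lift ![A * φ, T] (mk L) x = lift ![A, T] (mk (List.replicate n (1, s)) * h) x ∧
      RS A T φ x ε h) := by
  have hinj : ∀ h h' : F2, lift ![A, T] h x = lift ![A, T] h' x → h = h' := by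
    intro h h' e
    by_contra hne
    apply hfree (h'⁻¹ * h) (by rwa [Ne, inv_mul_eq_one, eq_comm])
    rw [_root_.map_mul, Equiv.Perm.mul_apply, e, ← Equiv.Perm.mul_apply, ← _root_.map_mul, inv_mul_cancel,
      _root_.map_one, Equiv.Perm.one_apply]
  have hbj : ∀ j : ℤ, lift ![A, T] ((of 1) ^ j) = T ^ j := by
    intro j; rw [map_zpow]; simp
  have hcons : ∀ (f : Fin 2 → Equiv.Perm X) (y : Fin 2) (b : Bool) (L : Wd),
      lift f (mk ((y, b) :: L)) x = (cond b (f y) (f y)⁻¹) (lift f (mk L) x) := by
    intro f y b L; simp [lift_mk]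
  intro L
  induction L with
  | nil => intro _; left; exact ⟨0, true, rfl, by simp [← one_eq_mk]⟩
  | cons ℓ L ih =>
    obtain ⟨y, b⟩ := ℓ
    intro hL
    have hL' : FreeGroup.IsReduced L := isReduced_suffix hL (List.suffix_cons _ _)
    by_cases hy : y = 0
    · subst hy
      -- the key step
      have key : ∀ c : F2, lift ![A * φ, T] (mk L) x = lift ![A, T] c x →
          (b = true → ∀ κ : ℤ, φ (lift ![A, T] c x) = (T ^ κ) (lift ![A, T] c x) →
            ¬ St false ((of 1) ^ κ * c)) →
          (b = false → ¬ St true c) →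
          (∃ n s ε L₁ h, (0, b) :: L = List.replicate n (1, s) ++ (0, ε) :: L₁ ∧
            lift ![A * φ, T] (mk ((0, b) :: L)) x =
              lift ![A, T] (mk (List.replicate n (1, s)) * h) x ∧ RS A T φ x ε h) := by
        intro c hc k1 k2
        cases b
        · set z := lift ![A, T] ((of 0)⁻¹ * c) x with hz
          obtain ⟨κ, hκ⟩ := hφ (φ⁻¹ z)
          have hκ1 : φ⁻¹ z = (T ^ (-κ)) z := by
            have : φ (φ⁻¹ z) = z := by simp
            rw [this] at hκ
            rw [zpow_neg]
            exact (Equiv.Perm.inv_eq_iff_eq.2 hκ).symm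
          have hnew : lift ![A, T] ((of 1) ^ (-κ) * ((of 0)⁻¹ * c)) x = φ⁻¹ z := by
            rw [_root_.map_mul, Equiv.Perm.mul_apply, hbj, ← hz, hκ1]
          refine ⟨0, true, false, L, (of 1) ^ (-κ) * ((of 0)⁻¹ * c), rfl, ?_, ?_⟩
          · rw [List.replicate_zero, ← one_eq_mk, one_mul, hnew, hcons, hc]
            simp only [cond_false, Matrix.cons_val_zero, mul_inv_rev, Equiv.Perm.mul_apply]
            rw [hz, _root_.map_mul, Equiv.Perm.mul_apply]
            simp
          · rw [RS, if_neg (by simp)]
            refine ⟨κ, ?_, ?_⟩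
            · rw [hnew]; exact hκ
            · rw [← mul_assoc, ← zpow_add, add_neg_cancel, zpow_zero, one_mul]
              exact St_false_mul (k2 rfl)
        · obtain ⟨κ, hκ⟩ := hφ (lift ![A, T] c x)
          refine ⟨0, true, true, L, of 0 * ((of 1) ^ κ * c), rfl, ?_, ?_⟩
          · rw [List.replicate_zero, ← one_eq_mk, one_mul, hcons, hc]
            simp only [cond_true, Matrix.cons_val_zero, Equiv.Perm.mul_apply]
            rw [hκ, _root_.map_mul, Equiv.Perm.mul_apply, _root_.map_mul, Equiv.Perm.mul_apply, hbj]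
            simp
          · rw [RS, if_pos rfl]
            exact St_true_mul (k1 rfl κ hκ)
      rcases ih hL' with ⟨n, s, h1, h2⟩ | ⟨n, s, ε, L₁, h, h1, h2, h3⟩
      · right
        refine key (mk L) h2 ?_ ?_
        · intro _ κ _
          rw [h1, mk_replicate, ← zpow_add]
          exact not_St_pow _ _
        · intro _
          rw [h1, mk_replicate]
          exact not_St_pow _ _
      · right
        have hn : n = 0 → ε = b := by
          rintro rfl
          rw [h1] at hL
          have := hL
          simp [FreeGroup.IsReduced] at this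
          exact this.1.symm
        have hm0 : (if s then (n : ℤ) else -(n : ℤ)) = 0 → n = 0 := by
          cases s <;> simp
        set m : ℤ := (if s then (n : ℤ) else -(n : ℤ)) with hm
        have hmk : mk (List.replicate n (1, s)) = (of 1 : F2) ^ m := mk_replicate n s
        rw [hmk] at h2
        refine key _ h2 ?_ ?_
        · intro hb κ' hκ' hst
          rw [← mul_assoc, ← zpow_add] at hst
          cases ε
          · rw [RS, if_neg (by simp)] at h3
            obtain ⟨κ, hκ, h4⟩ := h3
            have h5 : (of 1 : F2) ^ (κ' + m) * h = (of 1) ^ (κ' + m - κ) * ((of 1) ^ κ * h) := by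
              rw [← mul_assoc, ← zpow_add]; congr 2; ring
            rw [h5] at hst
            have h6 := h4.eq_zero hst
            have h7 : κ' + m = κ := by omega
            have h8 : φ (lift ![A, T] ((of 1) ^ m * h) x) = φ (lift ![A, T] h x) := by
              rw [hκ', hκ, _root_.map_mul, Equiv.Perm.mul_apply, hbj, ← Equiv.Perm.mul_apply, ← zpow_add,
                h7]
            have h9 := hinj _ _ (φ.injective h8)
            have h10 : (of 1 : F2) ^ m = (of 1) ^ (0 : ℤ) := by
              rw [zpow_zero]; exact mul_eq_right.1 h9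
            have := hn (hm0 (of_one_zpow_inj h10))
            rw [hb] at this
            exact absurd this (by simp)
          · rw [RS, if_pos rfl] at h3
            have h6 := h3.eq_zero hst
            rw [h6, zpow_zero, one_mul] at hst
            exact absurd (h3.unique hst) (by simp)
        · intro hb hst
          cases ε
          · rw [RS, if_neg (by simp)] at h3
            obtain ⟨κ, hκ, h4⟩ := h3
            have h5 : (of 1 : F2) ^ m * h = (of 1) ^ (m - κ) * ((of 1) ^ κ * h) := by
              rw [← mul_assoc, ← zpow_add]; congr 2; ring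
            rw [h5] at hst
            have h6 := h4.eq_zero hst
            rw [h6, zpow_zero, one_mul] at hst
            exact absurd (h4.unique hst) (by simp)
          · rw [RS, if_pos rfl] at h3
            have h6 := h3.eq_zero hst
            have := hn (hm0 h6)
            rw [hb] at this
            exact absurd this (by simp)
    · have hy1 : y = 1 := by omega
      subst hy1
      have hl : ∀ (f : Fin 2 → Equiv.Perm X) (z : X), (cond b (f 1) (f 1)⁻¹) z =
          lift f (mk [(1, b)]) z := by
        intro f z; simp [lift_mk]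
      rcases ih hL' with ⟨n, s, h1, h2⟩ | ⟨n, s, ε, L₁, h, h1, h2, h3⟩
      · left
        have h4 : lift ![A * φ, T] (mk ((1, b) :: L)) x = lift ![A, T] (mk ((1, b) :: L)) x := by
          rw [hcons, hcons, h2]; rfl
        match n with
        | 0 => exact ⟨1, b, by rw [h1]; rfl, h4⟩
        | n + 1 =>
          have hbs : b = s := by
            rw [h1, List.replicate_succ] at hL
            have := hL
            simp only [FreeGroup.IsReduced, List.isChain_cons_cons] at this
            exact this.1 trivial
          exact ⟨n + 2, s, by rw [h1, hbs]; rfl, h4⟩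
      · right
        have h4 : ∀ k : ℕ, ∀ s' : Bool, List.replicate k ((1 : Fin 2), s') =
            (1, b) :: List.replicate n (1, s) →
            lift ![A * φ, T] (mk ((1, b) :: L)) x =
            lift ![A, T] (mk (List.replicate k (1, s')) * h) x := by
          intro k s' hk
          rw [hk, hcons, h2, ← List.singleton_append, ← mul_mk, mul_assoc,
            _root_.map_mul (lift ![A, T]) (mk [(1, b)]), Equiv.Perm.mul_apply, ← hl]
          rfl
        match n with
        | 0 =>
          exact ⟨1, b, ε, L₁, h, by rw [h1]; rfl, h4 1 b rfl, h3⟩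
        | n + 1 =>
          have hbs : b = s := by
            rw [h1, List.replicate_succ] at hL
            have := hL
            simp only [FreeGroup.IsReduced, List.cons_append, List.isChain_cons_cons] at this
            exact this.1 trivial
          exact ⟨n + 2, s, ε, L₁, h, by rw [h1, hbs]; rfl, h4 _ s (by rw [hbs]; rfl), h3⟩

theorem free_perturb (hφ : ∀ y, ∃ j : ℤ, φ y = (T ^ j) y)
    (hfree : ∀ g : F2, g ≠ 1 → lift ![A, T] g x ≠ x) (g : F2) (hg : g ≠ 1) :
    lift ![A * φ, T] g x ≠ x := by
  have h0 := inv_state A T φ x hφ hfree g.toWord isReduced_toWord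
  rw [mk_toWord] at h0
  have hinj : ∀ h : F2, lift ![A, T] h x = x → h = 1 := by
    intro h e; by_contra hne; exact hfree h hne e
  rcases h0 with ⟨n, s, h1, h2⟩ | ⟨n, s, ε, L₁, h, h1, h2, h3⟩
  · rw [h2]; exact hfree g hg
  · intro hx
    rw [h2] at hx
    have h4 := hinj _ hx
    rw [mk_replicate] at h4
    have h5 : h = (of 1) ^ (-(if s then (n : ℤ) else -(n : ℤ))) := by
      rw [zpow_neg]; exact (inv_eq_of_mul_eq_one_right h4).symm
    cases ε
    · rw [RS, if_neg (by simp)] at h3
      obtain ⟨κ, _, h6⟩ := h3
      rw [h5, ← zpow_add] at h6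
      exact not_St_pow _ _ h6
    · rw [RS, if_pos rfl, h5] at h3
      exact not_St_pow _ _ h3

end

end Pool.Agent.Helper281.Erg
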