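import Pool.Agent.Helper281.ErgBasic

set_option autoImplicit false
set_option linter.unusedSectionVars false

namespace Pool.Agent.Helper281.Erg

open MeasureTheory Set Filter Topology
open scoped ENNReal

variable {X : Type*} [MeasurableSpace X] {μ : Measure X}

/-- the full group of `T` -/
def FG (T : MP μ) : Subgroup (MP μ) where
  carrier := {φ | ∀ x, ∃ j : ℤ, (φ : Equiv.Perm X) x = ((T ^ j : MP μ) : Equiv.Perm X) x}
  mul_mem' := by
    intro φ ψ hφ hψ x
    obtain ⟨j, hj⟩ := hψ x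
    obtain ⟨k, hk⟩ := hφ ((ψ : Equiv.Perm X) x)
    refine ⟨k + j, ?_⟩
    rw [Subgroup.coe_mul, Equiv.Perm.mul_apply, hk, hj, zpow_add, Subgroup.coe_mul,
      Equiv.Perm.mul_apply]
  one_mem' := fun x => ⟨0, by simp⟩
  inv_mem' := by
    intro φ hφ x
    obtain ⟨j, hj⟩ := hφ ((φ : Equiv.Perm X)⁻¹ x)
    refine ⟨-j, ?_⟩
    have e0 : (φ : Equiv.Perm X) ((φ : Equiv.Perm X)⁻¹ x) = x := by simp
    rw [e0] at hj
    rw [Subgroup.coe_inv, zpow_neg, Subgroup.coe_inv]
    exact (Equiv.Perm.inv_eq_iff_eq.2 hj).symm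

theorem mem_FG {T φ : MP μ} : φ ∈ FG T ↔
    ∀ x, ∃ j : ℤ, (φ : Equiv.Perm X) x = ((T ^ j : MP μ) : Equiv.Perm X) x := Iff.rfl

variable [StandardBorelSpace X] [IsProbabilityMeasure μ]

/-- eventual value along a sequence -/
theorem exists_limit_perm (φ : ℕ → Equiv.Perm X) (hm : ∀ n, Measurable (φ n))
    (hmi : ∀ n, Measurable ((φ n)⁻¹ : Equiv.Perm X)) (G : Set X) (hG : MeasurableSet G)
    (hst : ∀ x ∈ G, ∃ N, ∀ n ≥ N, φ n x = φ N x ∧ (φ n)⁻¹ x = (φ N)⁻¹ x)
    (hinv : ∀ x ∈ G, ∀ n, φ n x ∈ G ∧ (φ n)⁻¹ x ∈ G) :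
    ∃ f : Equiv.Perm X, Measurable f ∧ Measurable f.symm ∧
      (∀ x ∈ G, ∃ N, ∀ n ≥ N, φ n x = f x) ∧ (∀ x ∉ G, f x = x) := by
  classical
  choose! N hN using hst
  let f : X → X := fun x => if x ∈ G then φ (N x) x else x
  let g : X → X := fun x => if x ∈ G then (φ (N x))⁻¹ x else x
  have hf : ∀ x ∈ G, ∀ n ≥ N x, φ n x = f x := by
    intro x hx n hn
    simp only [f, if_pos hx]; exact (hN x hx n hn).1
  have hg : ∀ x ∈ G, ∀ n ≥ N x, (φ n)⁻¹ x = g x := by
    intro x hx n hn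
    simp only [g, if_pos hx]; exact (hN x hx n hn).2
  have hfG : ∀ x ∈ G, f x ∈ G := by
    intro x hx; rw [← hf x hx _ le_rfl]; exact (hinv x hx _).1
  have hgG : ∀ x ∈ G, g x ∈ G := by
    intro x hx; rw [← hg x hx _ le_rfl]; exact (hinv x hx _).2
  have hgf : ∀ x, g (f x) = x := by
    intro x
    by_cases hx : x ∈ G
    · obtain ⟨m, hm1, hm2⟩ : ∃ m, N x ≤ m ∧ N (f x) ≤ m := ⟨_, le_max_left _ _, le_max_right _ _⟩
      have h1 := hf x hx m hm1
      have h2 := hg (f x) (hfG x hx) m hm2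
      have h3 : (φ m)⁻¹ (φ m x) = x := by simp
      rw [← h2, ← h1, h3]
    · simp only [f, g, if_neg hx]
  have hfg : ∀ x, f (g x) = x := by
    intro x
    by_cases hx : x ∈ G
    · obtain ⟨m, hm1, hm2⟩ : ∃ m, N x ≤ m ∧ N (g x) ≤ m := ⟨_, le_max_left _ _, le_max_right _ _⟩
      have h1 := hg x hx m hm1
      have h2 := hf (g x) (hgG x hx) m hm2
      have h3 : (φ m) ((φ m)⁻¹ x) = x := by simp
      rw [← h2, ← h1, h3]
    · simp only [f, g, if_neg hx]
  let := upgradeStandardBorel X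
  have hfm : Measurable f := by
    refine measurable_of_tendsto_metrizable (f := fun n x => if x ∈ G then φ n x else x)
      (fun n => Measurable.ite hG (hm n) measurable_id) ?_
    rw [tendsto_pi_nhds]
    intro x
    refine tendsto_const_nhds.congr' ?_
    filter_upwards [eventually_ge_atTop (N x)] with n hn
    by_cases hx : x ∈ G
    · simp only [if_pos hx]; exact (hf x hx n hn).symm
    · simp only [f, if_neg hx]
  have hgm : Measurable g := by
    refine measurable_of_tendsto_metrizable (f := fun n x => if x ∈ G then (φ n)⁻¹ x else x)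
      (fun n => Measurable.ite hG (hmi n) measurable_id) ?_
    rw [tendsto_pi_nhds]
    intro x
    refine tendsto_const_nhds.congr' ?_
    filter_upwards [eventually_ge_atTop (N x)] with n hn
    by_cases hx : x ∈ G
    · simp only [if_pos hx]; exact (hg x hx n hn).symm
    · simp only [g, if_neg hx]
  exact ⟨⟨f, g, hgf, hfg⟩, hfm, hgm, fun x hx => ⟨N x, hf x hx⟩, fun x hx => by
    simp only [Equiv.coe_fn_mk, f, if_neg hx]⟩

instance completeFG (T : MP μ) : CompleteSpace (FG T) := by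
  refine Metric.complete_of_convergent_controlled_sequences (fun n => (1 / 2 : ℝ) ^ n)
    (fun n => by positivity) ?_
  intro u hu
  let φ : ℕ → Equiv.Perm X := fun n => ((u n : MP μ) : Equiv.Perm X)
  have hm : ∀ n, Measurable (φ n) := fun n => gm _
  have hmi : ∀ n, Measurable ((φ n)⁻¹ : Equiv.Perm X) := fun n => gmi _
  have hd : ∀ n, dist (u n : MP μ) (u (n + 1) : MP μ) < (1 / 2 : ℝ) ^ n := fun n =>
    hu n n (n + 1) le_rfl (Nat.le_succ n)
  have hsum : ∀ E : ℕ → Set X, (∀ n, μ.real (E n) < (1 / 2 : ℝ) ^ n) → ∑' n, μ (E n) ≠ ∞ := by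
    intro E hE
    have h1 : ∀ n, μ (E n) ≤ ENNReal.ofReal ((1 / 2 : ℝ) ^ n) := by
      intro n
      rw [← ENNReal.ofReal_toReal (measure_ne_top μ (E n))]
      exact ENNReal.ofReal_le_ofReal (hE n).le
    have h2 : ∑' n : ℕ, ENNReal.ofReal ((1 / 2 : ℝ) ^ n) ≠ ∞ := by
      rw [← ENNReal.ofReal_tsum_of_nonneg (fun n => by positivity)
        (summable_geometric_two)]
      exact ENNReal.ofReal_ne_top
    exact ne_top_of_le_ne_top h2 (ENNReal.tsum_le_tsum h1)
  have ha1 : ∀ᵐ x ∂μ, ∀ᶠ n in atTop, x ∉ {x | φ n x ≠ φ (n + 1) x} :=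
    ae_eventually_notMem (hsum _ hd)
  have ha2 : ∀ᵐ x ∂μ, ∀ᶠ n in atTop, x ∉ {x | (φ n)⁻¹ x ≠ (φ (n + 1))⁻¹ x} := by
    refine ae_eventually_notMem (hsum _ fun n => ?_)
    have := hd n
    rw [← dist_inv'] at this
    exact this
  have hstab : ∀ (a : ℕ → X) (N : ℕ), (∀ n ≥ N, a n = a (n + 1)) → ∀ n ≥ N, a n = a N := by
    intro a N h n hn
    induction n, hn using Nat.le_induction with
    | base => rfl
    | succ n hn ih => rw [← h n hn, ih]
  let G0 : Set X := {x | ∃ N, ∀ n, N ≤ n → φ n x = φ N x ∧ (φ n)⁻¹ x = (φ N)⁻¹ x}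
  have hG0m : MeasurableSet G0 := by
    have : G0 = ⋃ N, ⋂ n, ⋂ (_ : N ≤ n), ({x | φ n x = φ N x} ∩ {x | (φ n)⁻¹ x = (φ N)⁻¹ x}) := by
      ext x; simp only [G0, mem_ofPred_eq, mem_iUnion, mem_iInter, mem_inter_iff]
    rw [this]
    exact MeasurableSet.iUnion fun N => MeasurableSet.iInter fun n => MeasurableSet.iInter fun _ =>
      (measurableSet_eq_fun (hm n) (hm N)).inter (measurableSet_eq_fun (hmi n) (hmi N))
  have hG0 : ∀ᵐ x ∂μ, x ∈ G0 := by
    filter_upwards [ha1, ha2] with x h1 h2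
    obtain ⟨N, hN⟩ := eventually_atTop.1 (h1.and h2)
    have e1 := hstab (fun n => φ n x) N (fun n hn => by
      have := (hN n hn).1; simpa using this)
    have e2 := hstab (fun n => (φ n)⁻¹ x) N (fun n hn => by
      have := (hN n hn).2; simpa using this)
    exact ⟨N, fun n hn => ⟨e1 n hn, e2 n hn⟩⟩
  let G : Set X := ⋂ j : ℤ, ((T ^ j : MP μ) : Equiv.Perm X) ⁻¹' G0
  have hGm : MeasurableSet G := MeasurableSet.iInter fun j => (gm (T ^ j)) hG0m
  have hG : ∀ᵐ x ∂μ, x ∈ G := by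
    simp only [G, mem_iInter]
    rw [ae_all_iff]
    intro j
    exact (gmp (T ^ j)).quasiMeasurePreserving.ae hG0
  have hGG0 : ∀ x ∈ G, x ∈ G0 := by
    intro x hx
    have := mem_iInter.1 hx 0
    simpa using this
  have hTG : ∀ x ∈ G, ∀ j : ℤ, ((T ^ j : MP μ) : Equiv.Perm X) x ∈ G := by
    intro x hx j
    simp only [G, mem_iInter] at hx ⊢
    intro i
    have := hx (i + j)
    rw [zpow_add] at this
    exact this
  have hinv : ∀ x ∈ G, ∀ n, φ n x ∈ G ∧ (φ n)⁻¹ x ∈ G := by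
    intro x hx n
    constructor
    · obtain ⟨j, hj⟩ := (u n).2 x
      change ((u n : MP μ) : Equiv.Perm X) x ∈ G
      rw [hj]; exact hTG x hx j
    · obtain ⟨j, hj⟩ := (u n)⁻¹.2 x
      have e : (φ n)⁻¹ x = ((T ^ j : MP μ) : Equiv.Perm X) x := hj
      rw [e]; exact hTG x hx j
  obtain ⟨f, hf1, hf2, hf3, hf4⟩ := exists_limit_perm φ hm hmi G hGm
    (fun x hx => hGG0 x hx) hinv
  have hfull : ∀ x, ∃ j : ℤ, f x = ((T ^ j : MP μ) : Equiv.Perm X) x := by
    intro x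
    by_cases hx : x ∈ G
    · obtain ⟨N, hN⟩ := hf3 x hx
      obtain ⟨j, hj⟩ := (u N).2 x
      exact ⟨j, by rw [← hN N le_rfl]; exact hj⟩
    · exact ⟨0, by rw [hf4 x hx]; simp⟩
  refine ⟨⟨⟨f, mp_of_full T f hf1 hf2 hfull⟩, hfull⟩, ?_⟩
  rw [tendsto_iff_dist_tendsto_zero]
  have h1 : Tendsto (fun n => μ {x | φ n x ≠ f x}) atTop (𝓝 (μ ∅)) := by
    refine tendsto_measure_of_ae_tendsto_indicator_of_isFiniteMeasure atTop MeasurableSet.empty
      (fun n => meas_ne (hm n) hf1) ?_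
    filter_upwards [hG] with x hx
    obtain ⟨N, hN⟩ := hf3 x hx
    filter_upwards [eventually_ge_atTop N] with n hn
    simp only [mem_empty_iff_false, iff_false, not_not]
    exact hN n hn
  rw [measure_empty] at h1
  have h2 := (ENNReal.tendsto_toReal ENNReal.zero_ne_top).comp h1
  exact h2

end Pool.Agent.Helper281.Erg
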