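import Pool.Agent.Helper281.ErgWindow

set_option autoImplicit false
set_option linter.unusedSectionVars false

namespace Pool.Agent.Helper281.Erg

open MeasureTheory Set Filter Topology
open scoped ENNReal

variable {X : Type*} [MeasurableSpace X] {μ : Measure X}
variable [StandardBorelSpace X] [IsProbabilityMeasure μ]

variable (μ) in
/-- indicator as an element of the Hilbert space -/
noncomputable def vI (A : Set X) (hA : MeasurableSet A) : Lp ℝ 2 μ :=
  indicatorConstLp 2 hA (measure_ne_top _ _) (1 : ℝ)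

theorem norm_vI (A : Set X) (hA : MeasurableSet A) : ‖vI μ A hA‖ = Real.sqrt (μ.real A) := by
  rw [vI, norm_indicatorConstLp (by norm_num) (by norm_num), norm_one, one_mul,
    Real.sqrt_eq_rpow]
  norm_num

theorem dist_vI (A B : Set X) (hA : MeasurableSet A) (hB : MeasurableSet B) :
    dist (vI μ A hA) (vI μ B hB) = Real.sqrt (μ.real (symmDiff A B)) := by
  rw [vI, vI, dist_indicatorConstLp_eq_norm, norm_indicatorConstLp (by norm_num) (by norm_num),
    norm_one, one_mul, Real.sqrt_eq_rpow]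
  norm_num

/-- Koopman operator -/
noncomputable def Uop (S : MP μ) : Lp ℝ 2 μ →L[ℝ] Lp ℝ 2 μ :=
  (Lp.compMeasurePreservingₗᵢ ℝ (S : Equiv.Perm X) (gmp S)).toContinuousLinearMap

theorem Uop_norm (S : MP μ) : ‖Uop S‖ ≤ 1 := LinearIsometry.norm_toContinuousLinearMap_le _

theorem Uop_vI (S : MP μ) (A : Set X) (hA : MeasurableSet A) :
    Uop S (vI μ A hA) = vI μ {x | S • x ∈ A} (smem S hA) := rfl

theorem Uop_iter (S : MP μ) (A : Set X) (hA : MeasurableSet A) (n : ℕ) :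
    (Uop S)^[n] (vI μ A hA) = vI μ {x | (S ^ n) • x ∈ A} (smem _ hA) := by
  induction n with
  | zero => simp
  | succ n ih =>
    rw [Function.iterate_succ_apply', ih, Uop_vI]
    congr 1

/-- ergodic averages -/
noncomputable def av (S : MP μ) (n : ℕ) (v : Lp ℝ 2 μ) : Lp ℝ 2 μ :=
  birkhoffAverage ℝ (Uop S) _root_.id n v

theorem av_vI (S : MP μ) (n : ℕ) (A : Set X) (hA : MeasurableSet A) :
    av S n (vI μ A hA) = (n : ℝ)⁻¹ • ∑ i ∈ Finset.range n, vI μ {x | (S ^ i) • x ∈ A} (smem _ hA) := by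
  rw [av, birkhoffAverage, birkhoffSum]
  simp only [id_eq, Uop_iter]

theorem continuous_vI (A : Set X) (hA : MeasurableSet A) :
    Continuous fun S : MP μ => vI μ {x | S • x ∈ A} (smem S hA) := by
  rw [Metric.continuous_iff]
  intro g ε hε
  refine ⟨ε ^ 2, by positivity, fun h hd => ?_⟩
  rw [dist_vI]
  rw [Real.sqrt_lt' hε]
  refine lt_of_le_of_lt ?_ hd
  rw [dist_def, ud]
  refine measureReal_mono ?_ (measure_ne_top _ _)
  intro x hx
  rw [mem_symmDiff] at hx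
  intro he
  have he' : h • x = g • x := he
  simp only [mem_ofPred_eq, he'] at hx
  tauto

theorem continuous_av (A : Set X) (hA : MeasurableSet A) (n : ℕ) :
    Continuous fun S : MP μ => av S n (vI μ A hA) := by
  have h1 : ∀ i : ℕ, Continuous fun S : MP μ => vI μ {x | (S ^ i) • x ∈ A} (smem _ hA) :=
    fun i => (continuous_vI (μ := μ) A hA).comp (continuous_pow (M := MP μ) i)
  have h2 : Continuous fun S : MP μ =>
      ∑ i ∈ Finset.range n, vI μ {x | (S ^ i) • x ∈ A} (smem _ hA) :=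
    continuous_finsetSum _ fun i _ => h1 i
  have h3 := h2.const_smul ((n : ℝ)⁻¹)
  simp only [av_vI]
  exact h3

theorem av_norm_sub (S : MP μ) (n : ℕ) (v w : Lp ℝ 2 μ) : ‖av S n v - av S n w‖ ≤ ‖v - w‖ := by
  have hiter : ∀ k, ‖(Uop S)^[k] v - (Uop S)^[k] w‖ ≤ ‖v - w‖ := by
    intro k
    induction k with
    | zero => simp
    | succ k ih =>
      rw [Function.iterate_succ_apply', Function.iterate_succ_apply', ← map_sub]
      refine ((Uop S).le_opNorm _).trans ?_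
      refine (mul_le_mul (Uop_norm S) ih (norm_nonneg _) zero_le_one).trans ?_
      rw [one_mul]
  rcases Nat.eq_zero_or_pos n with rfl | hn
  · simp [av, birkhoffAverage]
  rw [av, av, birkhoffAverage, birkhoffAverage, ← smul_sub, birkhoffSum, birkhoffSum,
    ← Finset.sum_sub_distrib, norm_smul]
  have h1 : ‖∑ k ∈ Finset.range n, (_root_.id ((Uop S)^[k] v) - _root_.id ((Uop S)^[k] w))‖ ≤
      n * ‖v - w‖ := by
    refine (norm_sum_le _ _).trans ?_
    refine (Finset.sum_le_sum fun k _ => hiter k).trans ?_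
    simp
  have hn' : (0 : ℝ) < n := by exact_mod_cast hn
  rw [Real.norm_of_nonneg (by positivity)]
  calc (n : ℝ)⁻¹ * _ ≤ (n : ℝ)⁻¹ * (n * ‖v - w‖) := mul_le_mul_of_nonneg_left h1 (by positivity)
    _ = ‖v - w‖ := by field_simp

theorem av_inv (S : MP μ) (n : ℕ) (hn : 1 ≤ n) (B : Set X) (hB : MeasurableSet B)
    (hSB : (S : Equiv.Perm X) ⁻¹' B = B) : av S n (vI μ B hB) = vI μ B hB := by
  have h1 : Function.IsFixedPt (Uop S) (vI μ B hB) := by
    rw [Function.IsFixedPt, Uop_vI]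
    congr 1
  rw [av]
  exact h1.birkhoffAverage_eq ℝ _root_.id (by exact_mod_cast (by omega : n ≠ 0))

theorem exists_inv_set (S : MP μ) (A : Set X) (hA : MeasurableSet A) (κ : ℝ)
    (hr : ∀ n, 1 ≤ n → ‖vI μ A hA‖ - κ ≤ ‖av S n (vI μ A hA)‖) :
    ∃ B' : Set X, MeasurableSet B' ∧ (S : Equiv.Perm X) ⁻¹' B' = B' ∧
      μ.real (symmDiff A B') ≤ 8 * κ := by
  set v := vI μ A hA with hv
  have hlim := ContinuousLinearMap.tendsto_birkhoffAverage_orthogonalProjection (Uop S)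
    (Uop_norm S) v
  set K := (Uop S).eqLocus (1 : Lp ℝ 2 μ →L[ℝ] Lp ℝ 2 μ) with hK
  set g : Lp ℝ 2 μ := (K.orthogonalProjectionOnto v : Lp ℝ 2 μ) with hg
  have hgK : Uop S g = g := (K.orthogonalProjectionOnto v).2
  have hnorm : ‖v‖ - κ ≤ ‖g‖ := by
    refine ge_of_tendsto hlim.norm ?_
    filter_upwards [eventually_ge_atTop 1] with n hn
    exact hr n hn
  have horth : inner ℝ (v - g) g = 0 := by
    have := Submodule.starProjection_inner_eq_zero (K := K) v g (K.orthogonalProjectionOnto v).2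
    rw [real_inner_comm] at this ⊢
    simpa [hg] using this
  have hpyth : ‖v‖ ^ 2 = ‖v - g‖ ^ 2 + ‖g‖ ^ 2 := by
    have h1 : v = (v - g) + g := by abel
    conv_lhs => rw [h1]
    rw [norm_add_sq_real, horth]; ring
  have hv1 : ‖v‖ ≤ 1 := by
    rw [hv, norm_vI, Real.sqrt_le_one]
    exact measureReal_le_one
  have hgv : ‖g‖ ≤ ‖v‖ := by
    have := sq_nonneg ‖v - g‖
    exact abs_le_of_sq_le_sq' (by nlinarith) (norm_nonneg _) |>.2
  have hsq : ‖v - g‖ ^ 2 ≤ 2 * κ := by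
    have h1 : ‖v - g‖ ^ 2 = (‖v‖ - ‖g‖) * (‖v‖ + ‖g‖) := by linarith
    rw [h1]
    have h2 : ‖v‖ - ‖g‖ ≤ κ := by linarith
    have h3 : 0 ≤ ‖v‖ - ‖g‖ := by linarith
    have h4 : ‖v‖ + ‖g‖ ≤ 2 := by linarith
    have h5 : 0 ≤ ‖v‖ + ‖g‖ := by positivity
    nlinarith
  -- the level set
  let B0 : Set X := {x | 1 / 2 < g x}
  have hB0m : MeasurableSet B0 :=
    measurableSet_lt measurable_const (Lp.stronglyMeasurable g).measurable
  have hB0inv : (S : Equiv.Perm X) ⁻¹' B0 =ᵐ[μ] B0 := by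
    have h1 : (Uop S g : X → ℝ) =ᵐ[μ] g ∘ (S : Equiv.Perm X) :=
      Lp.coeFn_compMeasurePreserving g (gmp S)
    rw [hgK] at h1
    filter_upwards [h1] with x hx
    apply propext
    change (1 / 2 < g ((S : Equiv.Perm X) x)) ↔ (1 / 2 < g x)
    rw [hx]; rfl
  obtain ⟨B', hB'm, hB'ae, hB'inv⟩ :=
    (gmp S).quasiMeasurePreserving.exists_preimage_eq_of_preimage_ae hB0m.nullMeasurableSet hB0inv
  refine ⟨B', hB'm, hB'inv, ?_⟩
  have h1 : μ.real (symmDiff A B') = μ.real (symmDiff A B0) :=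
    congrArg ENNReal.toReal (measure_congr (ae_eq_set_symmDiff (ae_eq_refl A) hB'ae))
  rw [h1]
  have h2 : symmDiff A B0 ≤ᵐ[μ] {x | (1 / 2 : ℝ≥0∞) ≤ ‖(v - g : Lp ℝ 2 μ) x‖ₑ} := by
    filter_upwards [Lp.coeFn_sub v g, indicatorConstLp_coeFn (p := 2) (hs := hA)
      (hμs := measure_ne_top μ A) (c := (1 : ℝ))] with x hx1 hx2 hx3
    have hx2' : v x = A.indicator (fun _ => (1 : ℝ)) x := hx2
    change (1 / 2 : ℝ≥0∞) ≤ ‖(v - g : Lp ℝ 2 μ) x‖ₑ
    rw [hx1, Pi.sub_apply, hx2']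
    have hx3' : x ∈ symmDiff A B0 := hx3
    rw [mem_symmDiff] at hx3'
    have h5 : (1 / 2 : ℝ) ≤ ‖A.indicator (fun _ => (1 : ℝ)) x - g x‖ := by
      rcases hx3' with ⟨h3, h4⟩ | ⟨h3, h4⟩
      · rw [indicator_of_mem h3, Real.norm_eq_abs]
        have : g x ≤ 1 / 2 := not_lt.1 h4
        rw [abs_of_nonneg (by linarith)]; linarith
      · rw [indicator_of_notMem h4, Real.norm_eq_abs, zero_sub, abs_neg]
        have : 1 / 2 < g x := h3
        rw [abs_of_nonneg (by linarith)]; linarith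
    have h6 : ENNReal.ofReal (1 / 2) ≤ ‖A.indicator (fun _ => (1 : ℝ)) x - g x‖ₑ := by
      rw [← ofReal_norm]
      exact ENNReal.ofReal_le_ofReal h5
    have h7 : ENNReal.ofReal (1 / 2) = (1 / 2 : ℝ≥0∞) := by
      rw [ENNReal.ofReal_div_of_pos (by norm_num)]; simp
    rwa [h7] at h6
  have h3 : μ {x | (1 / 2 : ℝ≥0∞) ≤ ‖(v - g : Lp ℝ 2 μ) x‖ₑ} ≤
      (1 / 2 : ℝ≥0∞)⁻¹ ^ (2 : ℝ≥0∞).toReal * eLpNorm (v - g : Lp ℝ 2 μ) 2 μ ^ (2 : ℝ≥0∞).toReal :=
    meas_ge_le_mul_pow_eLpNorm_enorm μ (by norm_num) (by norm_num)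
      (Lp.aestronglyMeasurable _) (by simp) (by intro h; simp at h)
  have h4 : μ.real (symmDiff A B0) ≤ 4 * ‖v - g‖ ^ 2 := by
    rw [measureReal_def]
    have h5 := (measure_mono_ae h2).trans h3
    have h6 : ((1 / 2 : ℝ≥0∞)⁻¹ ^ (2 : ℝ≥0∞).toReal *
        eLpNorm (v - g : Lp ℝ 2 μ) 2 μ ^ (2 : ℝ≥0∞).toReal).toReal = 4 * ‖v - g‖ ^ 2 := by
      rw [ENNReal.toReal_mul, Lp.norm_def]
      simp only [one_div, inv_inv, ENNReal.toReal_ofNat, ENNReal.rpow_ofNat, ENNReal.toReal_pow]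
      norm_num
    rw [← h6]
    refine ENNReal.toReal_mono ?_ h5
    refine ENNReal.mul_ne_top ?_ ?_
    · simp
    · exact ENNReal.rpow_ne_top_of_nonneg (by norm_num) (Lp.eLpNorm_ne_top _)
  linarith

end Pool.Agent.Helper281.Erg
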