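import Pool.Agent.Helper281.ErgKey
import Pool.Agent.Helper281.ErgMean
import Pool.Agent.Helper281.ErgFree

set_option autoImplicit false
set_option linter.unusedSectionVars false

namespace Pool.Agent.Helper281.Erg

open MeasureTheory Set Filter Topology FreeGroup
open scoped ENNReal

variable {X : Type*} [MeasurableSpace X] {μ : Measure X}

theorem coe_lift (f : Fin 2 → MP μ) (g : F2) :
    ((lift f g : MP μ) : Equiv.Perm X) = lift (fun i => (f i : Equiv.Perm X)) g := by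
  have : (MP μ).subtype.comp (lift f) = lift (fun i => (f i : Equiv.Perm X)) := by
    ext i : 1
    simp
  exact DFunLike.congr_fun this g

theorem coe_pair (A T : MP μ) : (fun i => ((![A, T] : Fin 2 → MP μ) i : Equiv.Perm X)) =
    ![(A : Equiv.Perm X), (T : Equiv.Perm X)] := by
  ext i : 1
  fin_cases i <;> rfl

theorem smul_lift (A T : MP μ) (g : F2) (x : X) :
    lift ![A, T] g • x = lift ![(A : Equiv.Perm X), (T : Equiv.Perm X)] g x := by
  rw [← coe_pair, ← coe_lift]; rfl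

variable [StandardBorelSpace X] [IsProbabilityMeasure μ]

instance : Countable F2 := by
  have : Function.Surjective (FreeGroup.mk : Wd → F2) := fun x => ⟨x.toWord, mk_toWord⟩
  exact this.countable

theorem Fr.perturb {A T : MP μ} (h : Fr A T) {φ : MP μ} (hφ : φ ∈ FG T) : Fr (A * φ) T := by
  intro g hg
  have h1 : ∀ᵐ x ∂μ, ∀ g : F2, g ≠ 1 → lift ![A, T] g • x ≠ x := by
    rw [ae_all_iff]
    intro g
    by_cases hg : g = 1
    · exact Eventually.of_forall fun x h => absurd hg h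
    · have := h g hg
      have h2 : ∀ᵐ x ∂μ, lift ![A, T] g • x ≠ x := by
        rw [ae_iff]; simpa using this
      exact h2.mono fun x hx _ => hx
  have h2 : ∀ᵐ x ∂μ, ¬ (lift ![A * φ, T] g • x = x) := by
    filter_upwards [h1] with x hx
    rw [smul_lift]
    refine free_perturb (A : Equiv.Perm X) (T : Equiv.Perm X) (φ : Equiv.Perm X) x ?_ ?_ g hg
    · intro y
      obtain ⟨j, hj⟩ := hφ y
      exact ⟨j, by rw [hj]; simp⟩
    · intro g hg
      rw [← smul_lift]; exact hx g hg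
  rw [ae_iff] at h2
  simpa using h2

theorem exists_generic (A T : MP μ) (hfree : Fr A T) :
    ∃ φ ∈ FG T, ∀ L : Wd, IsCyclicallyReduced L → NonB (mk L) → ∀ B : Set X, MeasurableSet B →
      ((lift ![A * φ, T] (mk L) : MP μ) : Equiv.Perm X) ⁻¹' B = B → ∀ u ∈ locs L,
      μ (symmDiff {x | T • x ∈ {y : X | (lift ![A * φ, T] u)⁻¹ • y ∈ B}}
        {y : X | (lift ![A * φ, T] u)⁻¹ • y ∈ B}) = 0 := by
  obtain ⟨𝒜, h𝒜c, h𝒜⟩ := exists_countable_measureDense μ
  have := h𝒜c.to_subtype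
  let S : Wd → FG T → MP μ := fun L φ => lift ![A * (φ : MP μ), T] (mk L)
  have hScont : ∀ L, Continuous (S L) := by
    intro L
    refine continuous_lift (fun φ : FG T => ![A * (φ : MP μ), T]) ?_ (mk L)
    intro i
    fin_cases i
    · exact continuous_const.mul continuous_subtype_val
    · exact continuous_const
  let U : Wd × 𝒜 × ℚ → Set (FG T) := fun q =>
    {φ | ∃ n, 1 ≤ n ∧ ‖av (S q.1 φ) n (vI μ (q.2.1 : Set X) (h𝒜.measurable _ q.2.1.2))‖ < q.2.2}
  have hUo : ∀ q, IsOpen (U q) := by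
    intro q
    have : U q = ⋃ n : ℕ, ⋃ (_ : 1 ≤ n),
        {φ | ‖av (S q.1 φ) n (vI μ (q.2.1 : Set X) (h𝒜.measurable _ q.2.1.2))‖ < q.2.2} := by
      ext φ; simp only [U, mem_ofPred_eq, mem_iUnion, exists_prop]
    rw [this]
    refine isOpen_iUnion fun n => isOpen_iUnion fun _ => ?_
    exact isOpen_lt (((continuous_av _ _ n).comp (hScont q.1)).norm) continuous_const
  have hdense : Dense (⋂ q, (U q ∪ interior (U q)ᶜ)) := by
    refine dense_iInter_of_isOpen (fun q => (hUo q).union isOpen_interior) fun q => ?_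
    rw [dense_iff_inter_open]
    intro V hV hVne
    by_cases h : (V ∩ U q).Nonempty
    · obtain ⟨x, hx⟩ := h
      exact ⟨x, hx.1, Or.inl hx.2⟩
    · obtain ⟨x, hx⟩ := hVne
      refine ⟨x, hx, Or.inr ?_⟩
      rw [mem_interior]
      refine ⟨V, fun y hy hyU => h ⟨y, hy, hyU⟩, hV, hx⟩
  obtain ⟨φ, hφ⟩ := hdense.nonempty
  rw [mem_iInter] at hφ
  refine ⟨φ, φ.2, ?_⟩
  intro L hL hb B hB hSB u hu
  by_contra hne
  obtain ⟨c, hc, hkey⟩ := keyLemma (A * (φ : MP μ)) T (hfree.perturb φ.2) L hL hb u hu B hB hSB hne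
  -- choose parameters
  obtain ⟨κ, hκ0, hκ1, hκc⟩ : ∃ κ : ℝ, 0 < κ ∧ κ ≤ 1 ∧ 25 * κ < c := by
    refine ⟨min 1 (c / 50), by positivity, min_le_left _ _, ?_⟩
    have := min_le_right 1 (c / 50)
    linarith
  obtain ⟨s, hs, hBs⟩ := h𝒜.approx B hB (measure_ne_top _ _) (κ ^ 2) (by positivity)
  have hsm := h𝒜.measurable s hs
  have hBs' : μ.real (symmDiff B s) < κ ^ 2 := by
    rw [measureReal_def]
    exact ENNReal.toReal_lt_of_lt_ofReal hBs
  have hd : ‖vI μ B hB - vI μ s hsm‖ < κ := by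
    rw [← dist_eq_norm, dist_vI, Real.sqrt_lt' hκ0]; exact hBs'
  have hlow : ∀ n, 1 ≤ n → ‖vI μ s hsm‖ - 2 * κ ≤ ‖av (S L φ) n (vI μ s hsm)‖ := by
    intro n hn
    have h1 := av_norm_sub (S L φ) n (vI μ B hB) (vI μ s hsm)
    rw [av_inv (S L φ) n hn B hB hSB] at h1
    have h2 := norm_sub_norm_le (vI μ B hB) (av (S L φ) n (vI μ s hsm))
    have h3 := norm_sub_norm_le (vI μ s hsm) (vI μ B hB)
    rw [norm_sub_rev] at h3
    linarith
  obtain ⟨r, hr1, hr2⟩ := exists_rat_btwn (show ‖vI μ s hsm‖ - 3 * κ < ‖vI μ s hsm‖ - 2 * κ by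
    linarith)
  have hφq := hφ (L, ⟨s, hs⟩, r)
  have hnotU : φ ∉ U (L, ⟨s, hs⟩, r) := by
    rintro ⟨n, hn, hlt⟩
    have := hlow n hn
    simp only at hlt
    linarith
  have hint := hφq.resolve_left hnotU
  rw [mem_interior_iff_mem_nhds, Metric.mem_nhds_iff] at hint
  obtain ⟨δ, hδ, hball⟩ := hint
  obtain ⟨ψ, hψF, hψd, hψ⟩ := hkey δ hδ
  let φ' : FG T := φ * ⟨ψ, hψF⟩
  have hφ'd : dist φ' φ < δ := by
    have : dist ((φ : MP μ) * ψ) ((φ : MP μ) * 1) = dist ψ 1 := dist_mul_left' _ _ _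
    rw [mul_one] at this
    rw [Subtype.dist_eq]
    change dist ((φ : MP μ) * ψ) (φ : MP μ) < δ
    rw [this]; exact hψd
  have hφ'U := hball (Metric.mem_ball.2 hφ'd)
  have hlow' : ∀ n, 1 ≤ n → ‖vI μ s hsm‖ - 3 * κ ≤ ‖av (S L φ') n (vI μ s hsm)‖ := by
    intro n hn
    by_contra hcon
    push Not at hcon
    apply hφ'U
    exact ⟨n, hn, lt_trans hcon hr1⟩
  obtain ⟨B', hB'm, hB'inv, hB's⟩ := exists_inv_set (S L φ') s hsm (3 * κ) hlow'
  have hSeq : S L φ' = lift ![A * (φ : MP μ) * ψ, T] (mk L) := by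
    change lift ![A * ((φ : MP μ) * ψ), T] (mk L) = _
    rw [mul_assoc]
  rw [hSeq] at hB'inv
  have h1 := hψ B' hB'm hB'inv
  have h2 : μ.real (symmDiff B B') ≤ μ.real (symmDiff B s) + μ.real (symmDiff s B') :=
    measureReal_symmDiff_le _
  have h3 : κ ^ 2 ≤ κ := by nlinarith
  linarith

end Pool.Agent.Helper281.Erg
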