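import Pool.Agent.Helper281.ErgWindow

set_option autoImplicit false
set_option linter.unusedSectionVars false

namespace Pool.Agent.Helper281.Erg

open MeasureTheory Set Filter Topology FreeGroup
open scoped ENNReal

variable {X : Type*} [MeasurableSpace X] {μ : Measure X}
variable [StandardBorelSpace X] [IsProbabilityMeasure μ]

/-- essential freeness of the action generated by two elements -/
def Fr (A T : MP μ) : Prop := ∀ g : F2, g ≠ 1 → μ {x : X | lift ![A, T] g • x = x} = 0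

theorem exists_k (T : MP μ) (Z : Set X) (_hZm : MeasurableSet Z)
    (hZ : μ (symmDiff {x | T • x ∈ Z} Z) ≠ 0) (K : ℕ) :
    ∃ k : ℤ, (K : ℤ) < |k| ∧ μ (symmDiff {x | (T ^ k) • x ∈ Z} Z) ≠ 0 := by
  by_contra hcon
  push Not at hcon
  apply hZ
  have h1 := hcon (K + 1) (by rw [abs_of_nonneg (by positivity)]; omega)
  have h2 := hcon (K + 2) (by rw [abs_of_nonneg (by positivity)]; omega)
  rw [measure_symmDiff_eq_zero_iff] at h1 h2 ⊢
  have h3 : {x : X | (T ^ ((K : ℤ) + 2)) • x ∈ Z} = {x | T • x ∈ {y : X | (T ^ ((K : ℤ) + 1)) • y ∈ Z}} := by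
    ext x
    simp only [mem_ofPred_eq]
    rw [← mul_smul, ← zpow_add_one, add_assoc]
    norm_num
  have h4 : {x : X | T • x ∈ {y : X | (T ^ ((K : ℤ) + 1)) • y ∈ Z}} =ᵐ[μ] {x : X | T • x ∈ Z} :=
    (gmp T).quasiMeasurePreserving.preimage_ae_eq h1
  rw [h3] at h2
  exact h4.symm.trans h2

theorem keyLemma (A T : MP μ) (hfree : Fr A T) (L : Wd) (hL : IsCyclicallyReduced L)
    (hb : NonB (mk L)) (u₀ : F2) (hu₀ : u₀ ∈ locs L) (B : Set X) (hB : MeasurableSet B)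
    (hSB : ((lift ![A, T] (mk L) : MP μ) : Equiv.Perm X) ⁻¹' B = B)
    (hZ : μ (symmDiff {x | T • x ∈ {y : X | (lift ![A, T] u₀)⁻¹ • y ∈ B}}
      {y : X | (lift ![A, T] u₀)⁻¹ • y ∈ B}) ≠ 0) :
    ∃ c > 0, ∀ δ > 0, ∃ ψ ∈ FG T, dist ψ 1 < δ ∧ ∀ B' : Set X, MeasurableSet B' →
      ((lift ![A * ψ, T] (mk L) : MP μ) : Equiv.Perm X) ⁻¹' B' = B' →
      c ≤ μ.real (symmDiff B B') := by
  classical
  set ρ : F2 →* MP μ := lift ![A, T] with hρ
  set S : MP μ := ρ (mk L) with hS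
  set Z : Set X := {y : X | (ρ u₀)⁻¹ • y ∈ B} with hZdef
  have hZm : MeasurableSet Z := smem _ hB
  have hρb : ∀ j : ℤ, ρ ((of 1) ^ j) = T ^ j := by
    intro j; rw [hρ, _root_.map_zpow]; simp
  obtain ⟨K, hK⟩ := locs_bound hb
  obtain ⟨k, hk1, hk2⟩ := exists_k T Z hZm hZ K
  have hk0 : k ≠ 0 := by rintro rfl; simp at hk1; omega
  set C : Set X := symmDiff {x | (T ^ k) • x ∈ Z} Z with hC
  have hCm : MeasurableSet C := (smem _ hZm).symmDiff hZm
  have hC0 : 0 < μ.real C := (ENNReal.toReal_pos hk2 (measure_ne_top _ _))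
  set p := (locs L).length with hp
  have hp1 : 1 ≤ p := List.length_pos_of_mem hu₀
  refine ⟨μ.real C / (18 * (p : ℝ) ^ 2), by positivity, ?_⟩
  intro δ hδ
  obtain ⟨n, hn⟩ := exists_nat_gt (2 / δ)
  have hn0 : 0 < (n : ℝ) := lt_of_le_of_lt (by positivity) hn
  have hn1 : 1 ≤ n := by exact_mod_cast hn0
  -- the forbidden elements
  let Γ0 : List F2 := ((List.range n) ×ˢ ((locs L) ×ˢ ((locs L) ×ˢ
    (([0, 1] : List ℤ) ×ˢ ([0, 1] : List ℤ))))).map (fun q : ℕ × F2 × F2 × ℤ × ℤ =>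
      (of 1 : F2) ^ (-(q.2.2.2.1 * k)) * q.2.1 * (mk L) ^ q.1 * (q.2.2.1)⁻¹ *
        (of 1 : F2) ^ (q.2.2.2.2 * k))
  let Γ : List (MP μ) := (Γ0.filter (fun g => decide (g ≠ 1))).map ρ
  have hΓlen : Γ.length ≤ n * p * p * 4 := by
    simp only [Γ, List.length_map]
    refine (List.length_filter_le _ _).trans ?_
    simp only [Γ0, List.length_map, List.length_product, List.length_range, List.length_cons,
      List.length_nil]
    rw [← hp]
    apply le_of_eq; ring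
  obtain ⟨D, hDC, hDm, hDind, hDmeas⟩ := exists_sparse (μ := μ) Γ (by
    intro γ hγ
    obtain ⟨g, hg, rfl⟩ := List.mem_map.1 hγ
    have : g ≠ 1 := by simpa using (List.mem_filter.1 hg).2
    exact hfree g this) C hCm
  have hDind' : ∀ t < n, ∀ v ∈ locs L, ∀ u ∈ locs L, ∀ e ∈ [(0 : ℤ), 1], ∀ e' ∈ [(0 : ℤ), 1],
      (of 1 : F2) ^ (-(e * k)) * v * (mk L) ^ t * u⁻¹ * (of 1 : F2) ^ (e' * k) ≠ 1 →
      ∀ x ∈ D, ρ ((of 1 : F2) ^ (-(e * k)) * v * (mk L) ^ t * u⁻¹ * (of 1 : F2) ^ (e' * k)) • x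
        ∉ D := by
    intro t ht v hv u hu e he e' he' hne x hx
    refine hDind _ (List.mem_map.2 ⟨_, List.mem_filter.2 ⟨List.mem_map.2
      ⟨(t, v, u, e, e'), ?_, rfl⟩, by simpa using hne⟩, rfl⟩) x hx
    exact List.pair_mem_product.2 ⟨List.mem_range.2 ht, List.pair_mem_product.2 ⟨hv,
      List.pair_mem_product.2 ⟨hu, List.pair_mem_product.2 ⟨he, he'⟩⟩⟩⟩
  -- the support of the swap
  let Y : Set X := {y | y ∈ D ∨ (T ^ k)⁻¹ • y ∈ D}
  have hYm : MeasurableSet Y := hDm.union (smem _ hDm)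
  have hYe : ∀ y ∈ Y, ∃ e ∈ [(0 : ℤ), 1], (T ^ (e * k))⁻¹ • y ∈ D := by
    intro y hy
    rcases hy with h | h
    · exact ⟨0, by simp, by simpa using h⟩
    · exact ⟨1, by simp, by simpa using h⟩
  have hkey : ∀ t < n, ∀ v ∈ locs L, ∀ u ∈ locs L, ∀ x : X, ρ u • x ∈ Y →
      ρ v • (S ^ t) • x ∈ Y → t = 0 ∧ u = v := by
    intro t ht v hv u hu x h1 h2
    obtain ⟨e', he', h1'⟩ := hYe _ h1
    obtain ⟨e, he, h2'⟩ := hYe _ h2
    by_contra hcon
    have hne : (of 1 : F2) ^ (-(e * k)) * v * (mk L) ^ t * u⁻¹ * (of 1 : F2) ^ (e' * k) ≠ 1 := by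
      intro h1
      have h3 : v * (mk L) ^ t * u⁻¹ = (of 1 : F2) ^ (e * k - e' * k) := by
        have h4 : (of 1 : F2) ^ (e * k) * ((of 1 : F2) ^ (-(e * k)) * v * (mk L) ^ t * u⁻¹ *
            (of 1 : F2) ^ (e' * k)) * (of 1 : F2) ^ (-(e' * k)) = v * (mk L) ^ t * u⁻¹ := by
          rw [zpow_neg, zpow_neg]; group
        rw [← h4, h1, mul_one, ← zpow_add]; congr 1
      by_cases hee : e = e'
      · rw [hee, sub_self, zpow_zero, mul_inv_eq_one] at h3
        by_cases ht0 : t = 0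
        · rw [ht0, pow_zero, mul_one] at h3
          exact hcon ⟨ht0, h3.symm⟩
        · exact locs_ne hL hv hu ht0 h3
      · have h5 : e * k - e' * k = k ∨ e * k - e' * k = -k := by
          simp only [List.mem_cons, List.not_mem_nil, or_false] at he he'
          rcases he with rfl | rfl <;> rcases he' with rfl | rfl
          · exact absurd rfl hee
          · right; ring
          · left; ring
          · exact absurd rfl hee
        have h6 : (K : ℤ) < |e * k - e' * k| := by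
          rcases h5 with h5 | h5
          · rw [h5]; exact hk1
          · rw [h5, abs_neg]; exact hk1
        have h7 := hK _ h6 u hu v hv t
        rw [zpow_natCast] at h7
        exact h7 h3
    have h8 := hDind' t ht v hv u hu e he e' he' hne _ h1'
    apply h8
    have h9 : ρ ((of 1 : F2) ^ (-(e * k)) * v * (mk L) ^ t * u⁻¹ * (of 1 : F2) ^ (e' * k)) •
        (T ^ (e' * k))⁻¹ • ρ u • x = (T ^ (e * k))⁻¹ • ρ v • (S ^ t) • x := by
      simp only [_root_.map_mul, hρb, _root_.map_inv, _root_.map_pow, ← mul_smul, ← hS]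
      congr 1
      rw [zpow_neg]
      group
    rw [h9]; exact h2'
  have hDk : ∀ x ∈ D, (T ^ k) • x ∉ D := by
    intro x hx
    have h1 := hDind' 0 hn1 u₀ hu₀ u₀ hu₀ 0 (by simp) 1 (by simp)
    have e1 : (of 1 : F2) ^ (-(0 * k)) * u₀ * (mk L) ^ 0 * u₀⁻¹ * (of 1 : F2) ^ (1 * k) =
        (of 1 : F2) ^ k := by simp
    rw [e1] at h1
    have h2 := h1 (by
      intro h
      have := of_one_zpow_inj (κ := k) (κ' := 0) (by rw [h, zpow_zero])
      exact hk0 this) x hx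
    rwa [hρb] at h2
  obtain ⟨ψ, hψF, hψinv, hψD, hψoff, hψon, hψdist⟩ := exists_swap T k D hDm hDk
  let Q : Set X := {x | ∃ u ∈ locs L, ρ u • x ∈ Y}
  set Ψ : MP μ := ((locs L).map fun u => (ρ u)⁻¹ * ψ * ρ u).prod with hΨ
  have hpair : (locs L).Pairwise (fun u v => ∀ x : X, ρ u • x ∈ Y → ρ v • x ∉ Y) := by
    refine (locs_nodup hL.isReduced).imp_of_mem ?_
    intro u v hu hv hne x h1 h2
    have := hkey 0 hn1 v hv u hu x h1 (by rw [pow_zero, one_smul]; exact h2)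
    exact hne this.2
  obtain ⟨hP1, hP2⟩ := prod_conj (fun u => ρ u) ψ Y (fun x hx => hψoff x hx) (fun x hx => hψon x hx)
    (locs L) hpair
  have hoff : ∀ x ∉ Q, Ψ • x = x := by
    intro x hx
    exact hP1 x fun u hu h => hx ⟨u, hu, h⟩
  have hon : ∀ x ∈ Q, Ψ • x ∈ Q := by
    rintro x ⟨u, hu, h⟩
    refine ⟨u, hu, ?_⟩
    have := hP2 u hu x h
    rw [← hΨ] at this
    rw [this, mul_smul, mul_smul, smul_inv_smul]
    exact hψon _ h
  have hsp : ∀ x ∈ Q, ∀ t, 0 < t → t < n → (S ^ t) • x ∉ Q := by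
    rintro x ⟨u, hu, h⟩ t ht0 ht ⟨v, hv, h'⟩
    have := (hkey t ht v hv u hu x h h').1
    omega
  let Qc : Set X := {x | ρ u₀ • x ∈ D}
  have hQcm : MeasurableSet Qc := smem _ hDm
  have hQcQ : Qc ⊆ Q := fun x hx => ⟨u₀, hu₀, Or.inl hx⟩
  have hQcmeas : μ.real Qc = μ.real D := spreR _ _ hDm
  have hformula : lift ![A * ψ, T] (mk L) = S * Ψ := word_formula A T ψ hψinv L
  refine ⟨ψ, hψF, ?_, ?_⟩
  · -- smallness
    have h1 : n * μ.real Qc ≤ μ.real (univ : Set X) := by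
      refine packing (fun t => S ^ t) Qc univ hQcm (fun _ _ _ _ => mem_univ _) ?_
      intro t ht t' ht' htt x hx hx'
      have h1 := hsp _ (hQcQ hx) (t' - t) (by omega) (by omega)
      rw [← mul_smul, ← pow_add, Nat.sub_add_cancel htt.le] at h1
      exact h1 (hQcQ hx')
    rw [hQcmeas, probReal_univ] at h1
    have h2 : n * dist ψ 1 ≤ 2 := by
      have := mul_le_mul_of_nonneg_left hψdist hn0.le
      linarith
    have h3 : 2 < n * δ := by
      rw [div_lt_iff₀ hδ] at hn; exact hn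
    have h4 : n * dist ψ 1 < n * δ := lt_of_le_of_lt h2 h3
    exact lt_of_mul_lt_mul_left h4 hn0.le
  · intro B' hB'm hB'
    rw [hformula] at hB'
    have hcr : ∀ x ∈ Qc, (x ∈ B ↔ Ψ • x ∉ B) := by
      intro x hx
      have h1 := hP2 u₀ hu₀ x (Or.inl hx)
      rw [← hΨ] at h1
      have h2 : Ψ • x = (ρ u₀)⁻¹ • (T ^ k) • ρ u₀ • x := by
        rw [h1, mul_smul, mul_smul, hψD _ hx]
      have h3 : ρ u₀ • x ∈ C := hDC hx
      rw [hC, mem_symmDiff] at h3
      simp only [mem_ofPred_eq, hZdef, inv_smul_smul] at h3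
      rw [h2]
      tauto
    have h1 := window S Ψ Q n hoff hon hsp B B' hB hB'm hSB hB' Qc hQcm hQcQ hcr
    rw [hQcmeas] at h1
    have hp0 : (1 : ℝ) ≤ p := by exact_mod_cast hp1
    have hn1' : (1 : ℝ) ≤ n := by exact_mod_cast hn1
    have h2 : μ.real C ≤ 9 * n * (p : ℝ) ^ 2 * μ.real D := by
      refine hDmeas.trans ?_
      refine mul_le_mul_of_nonneg_right ?_ measureReal_nonneg
      have h3 : (Γ.length : ℝ) ≤ n * p * p * 4 := by exact_mod_cast hΓlen
      have h4 : (1 : ℝ) ≤ n * (p : ℝ) ^ 2 := by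
        have : (1 : ℝ) ≤ (p : ℝ) ^ 2 := one_le_pow₀ hp0
        calc (1 : ℝ) = 1 * 1 := by ring
          _ ≤ n * (p : ℝ) ^ 2 := mul_le_mul hn1' this zero_le_one (by positivity)
      nlinarith
    rw [div_le_iff₀ (by positivity)]
    have h5 : 9 * n * (p : ℝ) ^ 2 * μ.real D = 9 * (p : ℝ) ^ 2 * (n * μ.real D) := by ring
    rw [h5] at h2
    have h6 : 9 * (p : ℝ) ^ 2 * (n * μ.real D) ≤ 9 * (p : ℝ) ^ 2 * (2 * μ.real (symmDiff B B')) :=
      mul_le_mul_of_nonneg_left h1 (by positivity)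
    linarith

end Pool.Agent.Helper281.Erg
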