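import Pool.Agent.Helper281.ErgGen

set_option autoImplicit false
set_option linter.unusedSectionVars false

namespace Pool.Agent.Helper281.Erg

open MeasureTheory Set Filter Topology FreeGroup
open scoped ENNReal

variable {X : Type*} [MeasurableSpace X] {μ : Measure X}

theorem ergodic_of (S : MP μ) (h : ∀ B : Set X, MeasurableSet B →
    (S : Equiv.Perm X) ⁻¹' B = B → μ B = 0 ∨ μ Bᶜ = 0) : Ergodic (S : Equiv.Perm X) μ where
  toMeasurePreserving := gmp S
  aeconst_set := by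
    intro B hB hSB
    rw [eventuallyConst_set']
    rcases h B hB hSB with h1 | h1
    · left; exact ae_eq_empty.2 h1
    · right; exact ae_eq_univ.2 h1

theorem ergodic_dich {S : MP μ} (h : Ergodic (S : Equiv.Perm X) μ) {B : Set X}
    (hB : MeasurableSet B) (hSB : (S : Equiv.Perm X) ⁻¹' B = B) : μ B = 0 ∨ μ Bᶜ = 0 := by
  rcases h.ae_empty_or_univ hB hSB with h1 | h1
  · left; exact ae_eq_empty.1 h1
  · right; exact ae_eq_univ.1 h1

theorem ergodic_dich_ae {S : MP μ} (h : Ergodic (S : Equiv.Perm X) μ) {B : Set X}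
    (hB : MeasurableSet B) (hSB : (S : Equiv.Perm X) ⁻¹' B =ᵐ[μ] B) : μ B = 0 ∨ μ Bᶜ = 0 := by
  rcases h.quasiErgodic.ae_empty_or_univ₀ hB.nullMeasurableSet hSB with h1 | h1
  · left; exact ae_eq_empty.1 h1
  · right; exact ae_eq_univ.1 h1

theorem preimage_iff {S : MP μ} {B : Set X} :
    (S : Equiv.Perm X) ⁻¹' B = B ↔ ∀ x, S • x ∈ B ↔ x ∈ B := by
  rw [Set.ext_iff]; rfl

theorem inv_zpow {S : MP μ} {B : Set X} (h : ∀ x, S • x ∈ B ↔ x ∈ B) (k : ℤ) :
    ∀ x, (S ^ k) • x ∈ B ↔ x ∈ B := by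
  induction k using Int.induction_on with
  | zero => intro x; rw [zpow_zero, one_smul]
  | succ n ih => intro x; rw [zpow_add_one, mul_smul, ih, h]
  | pred n ih =>
    intro x
    rw [zpow_sub_one, mul_smul, ih, ← h (S⁻¹ • x), smul_inv_smul]

theorem ergodic_conj {S c : MP μ} (h : Ergodic (S : Equiv.Perm X) μ) :
    Ergodic ((c * S * c⁻¹ : MP μ) : Equiv.Perm X) μ := by
  refine ergodic_of _ fun B hB hSB => ?_
  rw [preimage_iff] at hSB
  have h1 : (S : Equiv.Perm X) ⁻¹' {x | c • x ∈ B} = {x | c • x ∈ B} := by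
    rw [preimage_iff]
    intro x
    have := hSB (c • x)
    rw [mul_smul, mul_smul, inv_smul_smul] at this
    exact this
  have h2 := ergodic_dich h (smem c hB) h1
  have h3 : {x : X | c • x ∈ B}ᶜ = {x | c • x ∈ Bᶜ} := rfl
  rw [h3, spre c B hB, spre c _ hB.compl] at h2
  exact h2

theorem ergodic_of_zpow {S : MP μ} (k : ℤ) (h : Ergodic ((S ^ k : MP μ) : Equiv.Perm X) μ) :
    Ergodic (S : Equiv.Perm X) μ := by
  refine ergodic_of _ fun B hB hSB => ?_
  rw [preimage_iff] at hSB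
  exact ergodic_dich h hB (preimage_iff.2 (inv_zpow hSB k))

theorem NonB.conj {w c : F2} (h : NonB w) : NonB (c⁻¹ * w * c) := by
  intro s hs g κ hg
  apply h s hs (g * c⁻¹) κ
  rw [← hg]
  have : (c⁻¹ * w * c) ^ s = c⁻¹ * w ^ s * c := by
    have := conj_zpow (a := c⁻¹) (b := w) (i := s)
    rw [inv_inv] at this
    exact this
  rw [this]; group

theorem nonB_pow (k : ℤ) (hk : k ≠ 0) : NonB ((of 0) ^ k) := by
  intro s hs h κ he
  let χ : F2 →* Multiplicative ℤ := lift ![Multiplicative.ofAdd 1, Multiplicative.ofAdd 0]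
  have h1 := congrArg χ he
  have hc : χ (h * ((of 0) ^ k) ^ s * h⁻¹) = (χ (of 0) ^ k) ^ s := by
    rw [_root_.map_mul, _root_.map_mul, _root_.map_inv, mul_comm, ← mul_assoc, inv_mul_cancel,
      one_mul, _root_.map_zpow, _root_.map_zpow]
  rw [hc, _root_.map_zpow] at h1
  have e0 : χ (of 0) = Multiplicative.ofAdd 1 := by simp [χ]
  have e1 : χ (of 1) = 1 := by simp [χ]
  rw [e0, e1, one_zpow] at h1
  have h2 := congrArg Multiplicative.toAdd h1
  simp at h2
  rcases h2 with h2 | h2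
  · exact hs h2
  · exact hk h2

theorem locs_ne_nil {L : Wd} (h : NonB (mk L)) : locs L ≠ [] := by
  intro hl
  have key : ∀ L : Wd, locs L = [] → ∃ m : ℤ, mk L = (of 1 : F2) ^ m := by
    intro L
    induction L with
    | nil => intro _; exact ⟨0, by simp [one_eq_mk]⟩
    | cons ℓ L ih =>
      obtain ⟨x, b⟩ := ℓ
      intro h
      by_cases hx : x = 0
      · simp [locs, slocs, hx] at h
      · have h1 : locs L = [] := by
          simpa [locs, slocs, hx] using h
        obtain ⟨m, hm⟩ := ih h1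
        have hx1 : x = 1 := by omega
        subst hx1
        cases b
        · refine ⟨-1 + m, ?_⟩
          have : mk [((1 : Fin 2), false)] = (of 1 : F2)⁻¹ := by rw [of, inv_mk]; rfl
          rw [← List.singleton_append, ← mul_mk, hm, this, zpow_add, zpow_neg_one]
        · refine ⟨1 + m, ?_⟩
          have : mk [((1 : Fin 2), true)] = (of 1 : F2) := rfl
          rw [← List.singleton_append, ← mul_mk, hm, this, zpow_add, zpow_one]
  obtain ⟨m, hm⟩ := key L hl
  exact h 1 one_ne_zero 1 m (by rw [hm]; simp)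

section

variable [StandardBorelSpace X] [IsProbabilityMeasure μ]

theorem exists_powers (A T : MP μ) (hfree : Fr A T) (hT : Ergodic (T : Equiv.Perm X) μ) :
    ∃ φ ∈ FG T, ∀ g : F2, NonB g → Ergodic ((lift ![A * φ, T] g : MP μ) : Equiv.Perm X) μ := by
  obtain ⟨φ, hφ, h⟩ := exists_generic A T hfree
  refine ⟨φ, hφ, fun g hg => ?_⟩
  set L := reduceCyclically g.toWord with hL
  have hLc : IsCyclicallyReduced L := reduceCyclically.isCyclicallyReduced isReduced_toWord
  set c : F2 := mk (reduceCyclically.conjugator g.toWord) with hc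
  have hgc : g = c * mk L * c⁻¹ := by
    have := reduceCyclically.conj_conjugator_reduceCyclically g.toWord
    conv_lhs => rw [← mk_toWord (x := g), ← this]
    rw [← mul_mk, ← mul_mk, ← inv_mk]
  have hLg : mk L = c⁻¹ * g * c := by rw [hgc]; group
  have hLb : NonB (mk L) := by rw [hLg]; exact hg.conj
  have hS : Ergodic ((lift ![A * φ, T] (mk L) : MP μ) : Equiv.Perm X) μ := by
    refine ergodic_of _ fun B hB hSB => ?_
    obtain ⟨u, hu⟩ := List.exists_mem_of_ne_nil _ (locs_ne_nil hLb)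
    have h1 := h L hLc hLb B hB hSB u hu
    set Z : Set X := {y : X | (lift ![A * φ, T] u)⁻¹ • y ∈ B} with hZ
    have hZm : MeasurableSet Z := smem _ hB
    rw [measure_symmDiff_eq_zero_iff] at h1
    have h2 := ergodic_dich_ae hT hZm h1
    have h3 : Zᶜ = {y : X | (lift ![A * φ, T] u)⁻¹ • y ∈ Bᶜ} := rfl
    rw [h3, hZ, spre _ B hB, spre _ _ hB.compl] at h2
    exact h2
  have hfin := ergodic_conj (c := lift ![A * φ, T] c) hS
  have e : lift ![A * φ, T] g = lift ![A * φ, T] c * lift ![A * φ, T] (mk L) *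
      (lift ![A * φ, T] c)⁻¹ := by
    conv_lhs => rw [hgc]
    rw [_root_.map_mul, _root_.map_mul, _root_.map_inv]
  rw [e]; exact hfin

theorem exists_first (A T : MP μ) (hfree : Fr A T)
    (herg : ∀ s : Set X, MeasurableSet s → (A : Equiv.Perm X) ⁻¹' s =ᵐ[μ] s →
      (T : Equiv.Perm X) ⁻¹' s =ᵐ[μ] s → μ s = 0 ∨ μ sᶜ = 0) :
    ∃ φ ∈ FG T, Ergodic ((A * φ : MP μ) : Equiv.Perm X) μ := by
  obtain ⟨φ, hφ, h⟩ := exists_generic A T hfree
  refine ⟨φ, hφ, ?_⟩
  refine ergodic_of _ fun B hB hSB => ?_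
  have hlift : lift ![A * φ, T] (mk [(0, true)]) = A * φ := by
    have : mk [((0 : Fin 2), true)] = (of 0 : F2) := rfl
    rw [this]; simp
  have hlocs : (1 : F2) ∈ locs [(0, true)] := by simp [locs, slocs, one_eq_mk]
  have hNB : NonB (mk [(0, true)]) := by
    have := nonB_pow 1 one_ne_zero
    rw [zpow_one] at this; exact this
  have h1 := h [(0, true)] IsCyclicallyReduced.singleton hNB B hB (by rw [hlift]; exact hSB) 1 hlocs
  rw [_root_.map_one, inv_one, measure_symmDiff_eq_zero_iff] at h1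
  have hTB : (T : Equiv.Perm X) ⁻¹' B =ᵐ[μ] B := by
    simp only [one_smul] at h1
    exact h1
  have hTj : ∀ᵐ x ∂μ, ∀ j : ℤ, (T ^ j) • x ∈ B ↔ x ∈ B := by
    rw [ae_all_iff]
    have hT1 : ∀ᵐ x ∂μ, T • x ∈ B ↔ x ∈ B := by
      filter_upwards [hTB] with x hx
      exact iff_of_eq hx
    have hT1' : ∀ᵐ x ∂μ, T⁻¹ • x ∈ B ↔ x ∈ B := by
      have := (gmp T⁻¹).quasiMeasurePreserving.ae hT1
      filter_upwards [this] with x hx
      have hx' : T • (T⁻¹ • x) ∈ B ↔ T⁻¹ • x ∈ B := hx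
      rw [smul_inv_smul] at hx'
      exact hx'.symm
    intro j
    induction j using Int.induction_on with
    | zero => exact Eventually.of_forall fun x => by rw [zpow_zero, one_smul]
    | succ n ih =>
      have := (gmp T).quasiMeasurePreserving.ae ih
      filter_upwards [this, hT1] with x hx hx1
      rw [zpow_add_one, mul_smul]
      exact hx.trans hx1
    | pred n ih =>
      have := (gmp T⁻¹).quasiMeasurePreserving.ae ih
      filter_upwards [this, hT1'] with x hx hx1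
      rw [zpow_sub_one, mul_smul]
      exact hx.trans hx1
  have hAB : (A : Equiv.Perm X) ⁻¹' B =ᵐ[μ] B := by
    filter_upwards [hTj] with x hx
    apply propext
    change A • x ∈ B ↔ x ∈ B
    have h2 : A • x = (A * φ) • (φ⁻¹ • x) := by rw [mul_smul, smul_inv_smul]
    rw [h2, inv_iff hSB]
    obtain ⟨j, hj⟩ := (FG T).inv_mem hφ x
    have hj' : φ⁻¹ • x = (T ^ j) • x := hj
    rw [hj', hx j]
  exact herg B hB hAB hTB

end

section orbits

/-- elements of the full group of the action generated by two elements -/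
def Ful (A T : MP μ) : Subgroup (MP μ) where
  carrier := {f | ∀ x : X, ∃ g : F2, f • x = lift ![A, T] g • x}
  mul_mem' := by
    intro f f' hf hf' x
    obtain ⟨g', hg'⟩ := hf' x
    obtain ⟨g, hg⟩ := hf (f' • x)
    exact ⟨g * g', by rw [mul_smul, hg, hg', _root_.map_mul, mul_smul]⟩
  one_mem' := fun x => ⟨1, by rw [_root_.map_one]⟩
  inv_mem' := by
    intro f hf x
    obtain ⟨g, hg⟩ := hf (f⁻¹ • x)
    refine ⟨g⁻¹, ?_⟩
    rw [smul_inv_smul] at hg
    rw [_root_.map_inv]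
    conv_rhs => rw [hg]
    rw [inv_smul_smul]

theorem mem_Ful {A T f : MP μ} : f ∈ Ful A T ↔ ∀ x : X, ∃ g : F2, f • x = lift ![A, T] g • x :=
  Iff.rfl

theorem Ful_A (A T : MP μ) : A ∈ Ful A T := fun x => ⟨of 0, by simp⟩

theorem Ful_T (A T : MP μ) : T ∈ Ful A T := fun x => ⟨of 1, by simp⟩

theorem FG_le_Ful (A T : MP μ) : FG T ≤ Ful A T := by
  intro f hf x
  obtain ⟨j, hj⟩ := hf x
  have hj' : f • x = (T ^ j) • x := hj
  exact ⟨(of 1) ^ j, by rw [hj', _root_.map_zpow]; simp⟩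

theorem lift_mem_Ful {A T A' T' : MP μ} (hA : A ∈ Ful A' T') (hT : T ∈ Ful A' T') (g : F2) :
    lift ![A, T] g ∈ Ful A' T' := by
  refine FreeGroup.induction_on (C := fun g => lift ![A, T] g ∈ Ful A' T') g ?_ ?_ ?_ ?_
  · rw [_root_.map_one]; exact one_mem _
  · intro i
    rw [lift_apply_of]
    fin_cases i
    · exact hA
    · exact hT
  · intro i ih
    rw [_root_.map_inv]; exact inv_mem ih
  · intro x y hx hy
    rw [_root_.map_mul]; exact mul_mem hx hy

theorem Ful_le {A T A' T' : MP μ} (hA : A ∈ Ful A' T') (hT : T ∈ Ful A' T') :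
    Ful A T ≤ Ful A' T' := by
  intro f hf x
  obtain ⟨g, hg⟩ := hf x
  obtain ⟨g', hg'⟩ := lift_mem_Ful hA hT g x
  exact ⟨g', hg.trans hg'⟩

theorem Ful_swap (A T : MP μ) : Ful A T = Ful T A :=
  le_antisymm (Ful_le (Ful_T _ _) (Ful_A _ _)) (Ful_le (Ful_T _ _) (Ful_A _ _))

theorem Ful_perturb (A T φ : MP μ) (hφ : φ ∈ FG T) : Ful (A * φ) T = Ful A T := by
  refine le_antisymm (Ful_le ?_ (Ful_T _ _)) (Ful_le ?_ (Ful_T _ _))
  · exact mul_mem (Ful_A _ _) (FG_le_Ful _ _ hφ)
  · have h1 : (A * φ) * φ⁻¹ ∈ Ful (A * φ) T :=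
      mul_mem (Ful_A _ _) (FG_le_Ful _ _ (inv_mem hφ))
    rwa [mul_inv_cancel_right] at h1

theorem range_eq {A T A' T' : MP μ} (h : Ful A T = Ful A' T') (x : X) :
    Set.range (fun g : F2 => lift ![A, T] g • x) = Set.range (fun g : F2 => lift ![A', T'] g • x) := by
  have key : ∀ {A T A' T' : MP μ}, Ful A T = Ful A' T' →
      Set.range (fun g : F2 => lift ![A, T] g • x) ⊆
        Set.range (fun g : F2 => lift ![A', T'] g • x) := by
    intro A T A' T' h
    rintro _ ⟨g, rfl⟩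
    have hA : A ∈ Ful A' T' := by rw [← h]; exact Ful_A _ _
    have hT : T ∈ Ful A' T' := by rw [← h]; exact Ful_T _ _
    obtain ⟨g', hg'⟩ := lift_mem_Ful hA hT g x
    exact ⟨g', hg'.symm⟩
  exact Subset.antisymm (key h) (key h.symm)

end orbits

theorem lift_swap (A T : MP μ) (g : F2) :
    lift ![A, T] g = lift ![T, A] (lift ![of 1, of 0] g) := by
  have : lift ![A, T] = (lift ![T, A]).comp (lift ![of 1, of 0] : F2 →* F2) := by
    ext i : 1
    fin_cases i <;> simp
  rw [this]; rfl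

theorem Fr.swap {A T : MP μ} (h : Fr A T) : Fr T A := by
  intro g hg
  rw [lift_swap]
  refine h _ ?_
  intro h1
  apply hg
  have h2 : (lift ![of 1, of 0] : F2 →* F2) ((lift ![of 1, of 0] : F2 →* F2) g) = g := by
    have : ((lift ![of 1, of 0] : F2 →* F2)).comp (lift ![of 1, of 0] : F2 →* F2) =
        MonoidHom.id _ := by
      ext i : 1
      fin_cases i <;> simp
    exact DFunLike.congr_fun this g
  rw [← h2, h1, _root_.map_one]

theorem main [StandardBorelSpace X] [IsProbabilityMeasure μ] (A T : MP μ) (hfree : Fr A T)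
    (herg : ∀ s : Set X, MeasurableSet s → (A : Equiv.Perm X) ⁻¹' s =ᵐ[μ] s →
      (T : Equiv.Perm X) ⁻¹' s =ᵐ[μ] s → μ s = 0 ∨ μ sᶜ = 0) :
    ∃ A' T' : MP μ, Fr A' T' ∧ Ful A' T' = Ful A T ∧
      ∀ g : F2, g ≠ 1 → Ergodic ((lift ![A', T'] g : MP μ) : Equiv.Perm X) μ := by
  obtain ⟨φ, hφ, h1⟩ := exists_first A T hfree herg
  have f1 : Fr (A * φ) T := hfree.perturb hφ
  obtain ⟨ψ, hψ, h2⟩ := exists_powers T (A * φ) f1.swap h1
  have f2 : Fr (T * ψ) (A * φ) := f1.swap.perturb hψ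
  have h3 : ∀ k : ℤ, k ≠ 0 → Ergodic (((T * ψ) ^ k : MP μ) : Equiv.Perm X) μ := by
    intro k hk
    have := h2 ((of 0) ^ k) (nonB_pow k hk)
    rw [_root_.map_zpow, lift_apply_of] at this
    exact this
  have h3' : Ergodic ((T * ψ : MP μ) : Equiv.Perm X) μ := by
    have := h3 1 one_ne_zero
    rwa [zpow_one] at this
  obtain ⟨θ, hθ, h4⟩ := exists_powers (A * φ) (T * ψ) f2.swap h3'
  refine ⟨A * φ * θ, T * ψ, f2.swap.perturb hθ, ?_, ?_⟩
  · rw [Ful_perturb _ _ _ hθ, Ful_swap, Ful_perturb _ _ _ hψ, Ful_swap, Ful_perturb _ _ _ hφ]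
  · intro g hg
    by_cases hb : NonB g
    · exact h4 g hb
    · unfold NonB at hb
      push Not at hb
      obtain ⟨s, hs, h, κ, he⟩ := hb
      have hκ : κ ≠ 0 := by
        rintro rfl
        rw [zpow_zero] at he
        have h5 : g ^ s = 1 := by
          have : g ^ s = h⁻¹ * (h * g ^ s * h⁻¹) * h := by group
          rw [this, he]; group
        exact hg ((IsMulTorsionFree.zpow_eq_one_iff_left hs).1 h5)
      apply ergodic_of_zpow s
      have h6 : g ^ s = h⁻¹ * (of 1) ^ κ * (h⁻¹)⁻¹ := by rw [← he]; group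
      have h7 : lift ![A * φ * θ, T * ψ] g ^ s = (lift ![A * φ * θ, T * ψ] h⁻¹) * (T * ψ) ^ κ *
          (lift ![A * φ * θ, T * ψ] h⁻¹)⁻¹ := by
        rw [← _root_.map_zpow, h6, _root_.map_mul, _root_.map_mul, _root_.map_inv _ h⁻¹,
          _root_.map_zpow]
        simp
      rw [h7]
      exact ergodic_conj (h3 κ hκ)

end Pool.Agent.Helper281.Erg
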