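import Pool.Agent.Helper281.ErgBasic

set_option autoImplicit false
set_option linter.unusedSectionVars false

namespace Pool.Agent.Helper281.Erg

open MeasureTheory Set Filter Topology
open scoped ENNReal

variable {X : Type*} [MeasurableSpace X] {μ : Measure X}

/-- separation condition -/
def Sep (f : X → ℝ) (γ : X → X) (c : ℚ × Bool) (x : X) : Prop :=
  if c.2 then f x < c.1 ∧ (c.1 : ℝ) < f (γ x) else f (γ x) < c.1 ∧ (c.1 : ℝ) < f x

theorem Sep.meas {f : X → ℝ} {γ : X → X} (hf : Measurable f) (hγ : Measurable γ) (c : ℚ × Bool) :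
    MeasurableSet {x | Sep f γ c x} := by
  obtain ⟨q, b⟩ := c
  have hfγ : Measurable fun x => f (γ x) := hf.comp hγ
  cases b
  · simp only [Sep, Bool.false_eq_true, if_false]
    exact (measurableSet_lt hfγ measurable_const).inter (measurableSet_lt measurable_const hf)
  · simp only [Sep, if_true]
    exact (measurableSet_lt hf measurable_const).inter (measurableSet_lt measurable_const hfγ)

theorem Sep.not {f : X → ℝ} {γ : X → X} {c : ℚ × Bool} {x : X} (h : Sep f γ c x) :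
    ¬ Sep f γ c (γ x) := by
  obtain ⟨q, b⟩ := c
  cases b
  · simp only [Sep, Bool.false_eq_true, if_false] at h ⊢
    intro h2; linarith [h.1, h2.2]
  · simp only [Sep, if_true] at h ⊢
    intro h2; linarith [h.2, h2.1]

theorem exists_Sep {f : X → ℝ} {γ : X → X} (hf : Function.Injective f) {x : X} (hx : γ x ≠ x) :
    ∃ c, Sep f γ c x := by
  rcases lt_or_gt_of_ne (fun h => hx (hf h)) with h | h
  · obtain ⟨q, h1, h2⟩ := exists_rat_btwn h
    exact ⟨(q, false), by simp only [Sep, Bool.false_eq_true, if_false]; exact ⟨h1, h2⟩⟩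
  · obtain ⟨q, h1, h2⟩ := exists_rat_btwn h
    exact ⟨(q, true), by simp only [Sep, if_true]; exact ⟨h1, h2⟩⟩

section

variable {n : ℕ} (γ : Fin n → Equiv.Perm X) (C : Set X) (V : ℕ → Set X)

/-- greedy construction -/
def Gr : ℕ → Set X
  | 0 => ∅
  | k + 1 => Gr k ∪ (C ∩ V k ∩ {x | ∀ i, γ i x ∉ Gr k ∧ (γ i)⁻¹ x ∉ Gr k})

theorem Gr_mono : Monotone (Gr γ C V) := monotone_nat_of_le_succ fun k => by
  rw [Gr]; exact subset_union_left

theorem Gr_sub (k : ℕ) : Gr γ C V k ⊆ C := by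
  induction k with
  | zero => simp [Gr]
  | succ k ih => rw [Gr]; exact union_subset ih (fun x hx => hx.1.1)

theorem Gr_meas (hγ : ∀ i, Measurable (γ i)) (hγ' : ∀ i, Measurable ((γ i)⁻¹ : Equiv.Perm X))
    (hC : MeasurableSet C) (hV : ∀ k, MeasurableSet (V k)) (k : ℕ) :
    MeasurableSet (Gr γ C V k) := by
  induction k with
  | zero => simp [Gr]
  | succ k ih =>
    rw [Gr]
    refine ih.union ((hC.inter (hV k)).inter ?_)
    have : {x | ∀ i, γ i x ∉ Gr γ C V k ∧ (γ i)⁻¹ x ∉ Gr γ C V k} =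
        ⋂ i, ((γ i) ⁻¹' (Gr γ C V k)ᶜ ∩ ((γ i)⁻¹ : Equiv.Perm X) ⁻¹' (Gr γ C V k)ᶜ) := by
      ext x; simp only [mem_ofPred_eq, mem_iInter, mem_inter_iff, mem_preimage, mem_compl_iff]
    rw [this]
    exact MeasurableSet.iInter fun i => ((hγ i) ih.compl).inter ((hγ' i) ih.compl)

theorem exists_stage {x : X} {k : ℕ} (h : x ∈ Gr γ C V k) : ∃ m < k, x ∉ Gr γ C V m ∧
    x ∈ C ∩ V m ∩ {x | ∀ i, γ i x ∉ Gr γ C V m ∧ (γ i)⁻¹ x ∉ Gr γ C V m} := by
  induction k with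
  | zero => simp [Gr] at h
  | succ k ih =>
    by_cases hk : x ∈ Gr γ C V k
    · obtain ⟨m, hm, h1⟩ := ih hk
      exact ⟨m, by omega, h1⟩
    · rw [Gr] at h
      rcases h with h | h
      · exact absurd h hk
      · exact ⟨k, by omega, hk, h⟩

theorem Gr_indep (hV : ∀ k, ∀ i, ∀ x ∈ V k, γ i x ∉ V k) (i : Fin n) (x : X)
    (hx : x ∈ ⋃ k, Gr γ C V k) : γ i x ∉ ⋃ k, Gr γ C V k := by
  intro hy
  obtain ⟨k, hk⟩ := mem_iUnion.1 hx
  obtain ⟨l, hl⟩ := mem_iUnion.1 hy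
  obtain ⟨m, -, h1, h2⟩ := exists_stage γ C V hk
  obtain ⟨m', -, h1', h2'⟩ := exists_stage γ C V hl
  have hxs : x ∈ Gr γ C V (m + 1) := by rw [Gr]; exact Or.inr h2
  have hys : γ i x ∈ Gr γ C V (m' + 1) := by rw [Gr]; exact Or.inr h2'
  rcases lt_trichotomy m m' with h | h | h
  · have := (h2'.2 i).2
    have e : (γ i)⁻¹ (γ i x) = x := by simp
    rw [e] at this
    exact this (Gr_mono γ C V h hxs)
  · subst h
    exact hV m i x h2.1.2 h2'.1.2
  · have := (h2.2 i).1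
    exact this (Gr_mono γ C V h hys)

theorem Gr_cover : C ∩ ⋃ k, V k ⊆ (⋃ k, Gr γ C V k) ∪
    ((⋃ i, (γ i) ⁻¹' (⋃ k, Gr γ C V k)) ∪
      (⋃ i, ((γ i)⁻¹ : Equiv.Perm X) ⁻¹' (⋃ k, Gr γ C V k))) := by
  rintro x ⟨hx, hxV⟩
  obtain ⟨k, hk⟩ := mem_iUnion.1 hxV
  by_cases h : ∀ i, γ i x ∉ Gr γ C V k ∧ (γ i)⁻¹ x ∉ Gr γ C V k
  · refine Or.inl (mem_iUnion.2 ⟨k + 1, ?_⟩)
    rw [Gr]; exact Or.inr ⟨⟨hx, hk⟩, h⟩
  · push Not at h
    obtain ⟨i, hi⟩ := h
    by_cases h1 : γ i x ∈ Gr γ C V k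
    · exact Or.inr (Or.inl (mem_iUnion.2 ⟨i, mem_iUnion.2 ⟨k, h1⟩⟩))
    · exact Or.inr (Or.inr (mem_iUnion.2 ⟨i, mem_iUnion.2 ⟨k, hi h1⟩⟩))

end

variable [StandardBorelSpace X] [IsProbabilityMeasure μ]

theorem exists_sparse (Γ : List (MP μ)) (hΓ : ∀ γ ∈ Γ, μ {x | (γ : Equiv.Perm X) x = x} = 0)
    (C : Set X) (hC : MeasurableSet C) :
    ∃ D ⊆ C, MeasurableSet D ∧ (∀ γ ∈ Γ, ∀ x ∈ D, (γ : Equiv.Perm X) x ∉ D) ∧
      μ.real C ≤ (2 * Γ.length + 1) * μ.real D := by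
  obtain ⟨f, hf⟩ := exists_measurableEmbedding_real X
  let γ : Fin Γ.length → Equiv.Perm X := fun i => (Γ.get i : MP μ)
  have hγm : ∀ i, Measurable (γ i) := fun i => gm _
  have hγmi : ∀ i, Measurable ((γ i)⁻¹ : Equiv.Perm X) := fun i => gmi _
  obtain ⟨e, he⟩ := exists_surjective_nat (Fin Γ.length → ℚ × Bool)
  let V : ℕ → Set X := fun k => ⋂ i, {x | Sep f (γ i) (e k i) x}
  have hVm : ∀ k, MeasurableSet (V k) := fun k =>
    MeasurableSet.iInter fun i => Sep.meas hf.measurable (hγm i) _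
  have hV : ∀ k, ∀ i, ∀ x ∈ V k, γ i x ∉ V k := by
    intro k i x hx hx'
    have h1 := mem_iInter.1 hx i
    have h2 := mem_iInter.1 hx' i
    exact Sep.not h1 h2
  have hcov : ∀ᵐ x ∂μ, x ∈ ⋃ k, V k := by
    have h1 : ∀ᵐ x ∂μ, ∀ i, γ i x ≠ x := by
      rw [ae_all_iff]
      intro i
      have := hΓ _ (List.get_mem Γ i)
      rw [ae_iff]
      simp only [ne_eq, not_not]
      exact this
    filter_upwards [h1] with x hx
    choose c hc using fun i => exists_Sep hf.injective (hx i)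
    obtain ⟨k, hk⟩ := he c
    refine mem_iUnion.2 ⟨k, mem_iInter.2 fun i => ?_⟩
    rw [mem_ofPred_eq, hk]; exact hc i
  refine ⟨⋃ k, Gr γ C V k, iUnion_subset fun k => Gr_sub γ C V k,
    MeasurableSet.iUnion fun k => Gr_meas γ C V hγm hγmi hC hVm k, ?_, ?_⟩
  · intro g hg x hx
    obtain ⟨i, hi⟩ := List.mem_iff_get.1 hg
    have := Gr_indep γ C V hV i x hx
    rw [← hi]; exact this
  · set D := ⋃ k, Gr γ C V k with hD
    have hDm : MeasurableSet D := MeasurableSet.iUnion fun k => Gr_meas γ C V hγm hγmi hC hVm k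
    have h1 : μ.real C ≤ μ.real (D ∪ ((⋃ i, (γ i) ⁻¹' D) ∪
        (⋃ i, ((γ i)⁻¹ : Equiv.Perm X) ⁻¹' D))) := by
      refine ENNReal.toReal_mono (measure_ne_top _ _) ?_
      refine measure_mono_ae ?_
      filter_upwards [hcov] with x hx hxC
      exact Gr_cover γ C V ⟨hxC, hx⟩
    have h2 : μ.real (⋃ i, (γ i) ⁻¹' D) ≤ Γ.length * μ.real D := by
      refine (measureReal_iUnion_fintype_le _).trans ?_
      have : ∀ i, μ.real ((γ i) ⁻¹' D) = μ.real D := fun i => by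
        rw [measureReal_def, gpre _ _ hDm]; rfl
      simp [this]
    have h3 : μ.real (⋃ i, ((γ i)⁻¹ : Equiv.Perm X) ⁻¹' D) ≤ Γ.length * μ.real D := by
      refine (measureReal_iUnion_fintype_le _).trans ?_
      have : ∀ i, μ.real (((γ i)⁻¹ : Equiv.Perm X) ⁻¹' D) = μ.real D := fun i => by
        have := gpre ((Γ.get i)⁻¹) _ hDm
        rw [measureReal_def]
        exact congrArg ENNReal.toReal this
      rw [Finset.sum_congr rfl fun i _ => this i]
      simp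
    have h4 := measureReal_union_le (μ := μ) D ((⋃ i, (γ i) ⁻¹' D) ∪
        (⋃ i, ((γ i)⁻¹ : Equiv.Perm X) ⁻¹' D))
    have h5 := measureReal_union_le (μ := μ) (⋃ i, (γ i) ⁻¹' D)
        (⋃ i, ((γ i)⁻¹ : Equiv.Perm X) ⁻¹' D)
    linarith

end Pool.Agent.Helper281.Erg
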