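import Mathlib

set_option autoImplicit false

namespace Pool.Agent.Helper281.Erg

open FreeGroup

abbrev F2 := FreeGroup (Fin 2)
abbrev Wd := List (Fin 2 × Bool)

/-- suffixes giving the locations of the letters of index zero -/
def slocs : Wd → List Wd
  | [] => []
  | (x, b) :: L => if x = 0 then (if b then L else (x, b) :: L) :: slocs L else slocs L

/-- group elements giving the locations of the letters of index zero -/
def locs (L : Wd) : List F2 := (slocs L).map FreeGroup.mk

theorem slocs_suffix : ∀ (L : Wd) (s : Wd), s ∈ slocs L → s <:+ L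
  | [], s, h => by simp [slocs] at h
  | (x, b) :: L, s, h => by
    by_cases hx : x = 0
    · simp only [slocs, hx, if_true] at h
      rcases List.mem_cons.1 h with h | h
      · cases b
        · simp only [Bool.false_eq_true, if_false] at h
          rw [h, hx]
        · simp only [if_true] at h
          rw [h]; exact List.suffix_cons _ _
      · exact (slocs_suffix L s h).trans (List.suffix_cons _ _)
    · simp only [slocs, hx, if_false] at h
      exact (slocs_suffix L s h).trans (List.suffix_cons _ _)

theorem slocs_length {L s : Wd} (h : s ∈ slocs L) : s.length ≤ L.length :=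
  (slocs_suffix L s h).length_le

theorem self_mem_slocs {L : Wd} (h : L ∈ slocs L) : ∃ L', L = (0, false) :: L' := by
  match L, h with
  | [], h => simp [slocs] at h
  | (x, b) :: L, h =>
    by_cases hx : x = 0
    · cases b
      · exact ⟨L, by rw [hx]⟩
      · simp only [slocs, hx, if_true] at h
        rcases List.mem_cons.1 h with h | h
        · have := congrArg List.length h
          simp at this
        · have := slocs_length h
          simp at this
    · simp only [slocs, hx, if_false] at h
      have := slocs_length h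
      simp at this

theorem nil_mem_slocs : ∀ {L : Wd}, [] ∈ slocs L → ∃ L', L = L' ++ [(0, true)]
  | [], h => by simp [slocs] at h
  | (x, b) :: L, h => by
    by_cases hx : x = 0
    · simp only [slocs, hx, if_true] at h
      rcases List.mem_cons.1 h with h | h
      · cases b
        · simp at h
        · simp only [if_true] at h
          exact ⟨[], by rw [← h, hx]; rfl⟩
      · obtain ⟨L', hL'⟩ := nil_mem_slocs h
        exact ⟨(x, b) :: L', by rw [hL']; rfl⟩
    · simp only [slocs, hx, if_false] at h
      obtain ⟨L', hL'⟩ := nil_mem_slocs h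
      exact ⟨(x, b) :: L', by rw [hL']; rfl⟩

theorem isReduced_suffix {L s : Wd} (h : IsReduced L) (hs : s <:+ L) : IsReduced s :=
  h.suffix hs

theorem slocs_pairwise : ∀ {L : Wd}, IsReduced L →
    (slocs L).Pairwise (fun s s' => s'.length < s.length)
  | [], _ => by simp [slocs]
  | (x, b) :: L, hL => by
    have hL' : IsReduced L := isReduced_suffix hL (List.suffix_cons _ _)
    by_cases hx : x = 0
    · simp only [slocs, hx, if_true]
      refine List.Pairwise.cons ?_ (slocs_pairwise hL')
      intro s' hs'
      have h1 := slocs_length hs'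
      cases b
      · simp only [Bool.false_eq_true, if_false, List.length_cons]; omega
      · simp only [if_true]
        rcases lt_or_eq_of_le h1 with h | h
        · exact h
        · exfalso
          have h2 : s' = L := (slocs_suffix L s' hs').eq_of_length h
          subst h2
          obtain ⟨L'', hL''⟩ := self_mem_slocs hs'
          rw [hL'', hx] at hL
          have := hL
          simp [FreeGroup.IsReduced] at this
    · simp only [slocs, hx, if_false]
      exact slocs_pairwise hL'

theorem norm_mk_of_isReduced {L : Wd} (h : IsReduced L) : (mk L).norm = L.length := by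
  rw [FreeGroup.norm, toWord_mk, h.reduce_eq]

theorem locs_nodup {L : Wd} (hL : IsReduced L) : (locs L).Nodup := by
  unfold locs
  rw [List.Nodup, List.pairwise_map]
  have := slocs_pairwise hL
  refine (List.Pairwise.imp_of_mem ?_ this)
  intro a b ha hb hab h
  have h1 := norm_mk_of_isReduced (isReduced_suffix hL (slocs_suffix L a ha))
  have h2 := norm_mk_of_isReduced (isReduced_suffix hL (slocs_suffix L b hb))
  rw [h] at h1
  omega

theorem mk_pow (L : Wd) (t : ℕ) : (mk L) ^ t = mk (List.replicate t L).flatten := by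
  induction t with
  | zero => simp [one_eq_mk]
  | succ n ih => rw [pow_succ', ih, mul_mk, List.replicate_succ, List.flatten_cons]

theorem locs_ne {L : Wd} (hL : IsCyclicallyReduced L) {u v : F2} (hu : u ∈ locs L)
    (hv : v ∈ locs L) {t : ℕ} (ht : t ≠ 0) : u * (mk L) ^ t ≠ v := by
  obtain ⟨s, hs, rfl⟩ := List.mem_map.1 hu
  obtain ⟨s', hs', rfl⟩ := List.mem_map.1 hv
  intro h
  rw [mk_pow, mul_mk] at h
  have hLne : L ≠ [] := by rintro rfl; simp [slocs] at hs
  have hLpos : 0 < L.length := List.length_pos_of_ne_nil hLne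
  have hred : IsReduced (s ++ (List.replicate t L).flatten) := by
    obtain ⟨r, hr⟩ := slocs_suffix L s hs
    have h1 := (hL.flatten_replicate (t + 1)).isReduced
    rw [List.replicate_succ, List.flatten_cons] at h1
    refine isReduced_suffix h1 ⟨r, ?_⟩
    rw [← List.append_assoc, hr]
  have h1 := norm_mk_of_isReduced hred
  have h2 := norm_mk_of_isReduced (isReduced_suffix hL.isReduced (slocs_suffix L s' hs'))
  rw [h, h2] at h1
  simp only [List.length_append, List.length_flatten, List.map_replicate, List.sum_replicate,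
    smul_eq_mul] at h1
  have h3 := slocs_length hs'
  have ht1 : t = 1 := by
    rcases Nat.lt_or_ge 1 t with h4 | h4
    · have : 2 * L.length ≤ t * L.length := Nat.mul_le_mul_right _ h4
      omega
    · omega
  subst ht1
  have hs0 : s.length = 0 := by omega
  have hs'L : s'.length = L.length := by omega
  have e1 : s = [] := List.length_eq_zero_iff.1 hs0
  have e2 : s' = L := (slocs_suffix L s' hs').eq_of_length hs'L
  subst e1
  rw [e2] at hs'
  obtain ⟨L1, hL1⟩ := self_mem_slocs hs'
  obtain ⟨L2, hL2⟩ := nil_mem_slocs hs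
  have h5 := hL.2 (0, true) (by rw [hL2]; simp) (0, false) (by rw [hL1]; simp) rfl
  simp at h5

/-- no nonzero power is conjugate to a power of the second generator -/
def NonB (w : F2) : Prop := ∀ s : ℤ, s ≠ 0 → ∀ (h : F2) (κ : ℤ), h * w ^ s * h⁻¹ ≠ (of 1) ^ κ

theorem of_one_zpow_inj {κ κ' : ℤ} (h : (of 1 : F2) ^ κ = (of 1 : F2) ^ κ') : κ = κ' := by
  by_contra hne
  have h1 : (of 1 : F2) ^ (κ - κ') = 1 := by rw [zpow_sub, h, mul_inv_cancel]
  have h2 : (κ - κ') ≠ 0 := sub_ne_zero.2 hne
  have h3 := (IsMulTorsionFree.zpow_eq_one_iff_left h2).1 h1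
  exact of_ne_one _ h3

theorem locs_bound {L : Wd} (hb : NonB (mk L)) : ∃ K : ℕ, ∀ κ : ℤ, (K : ℤ) < |κ| →
    ∀ u ∈ locs L, ∀ v ∈ locs L, ∀ t : ℤ, v * (mk L) ^ t * u⁻¹ ≠ (of 1) ^ κ := by
  have hfin : Set.Finite {κ : ℤ | ∃ u ∈ locs L, ∃ v ∈ locs L, ∃ t : ℤ,
      v * (mk L) ^ t * u⁻¹ = (of 1) ^ κ} := by
    have : {κ : ℤ | ∃ u ∈ locs L, ∃ v ∈ locs L, ∃ t : ℤ, v * (mk L) ^ t * u⁻¹ = (of 1) ^ κ}
        = ⋃ u ∈ (locs L).toFinset, ⋃ v ∈ (locs L).toFinset,
          {κ : ℤ | ∃ t : ℤ, v * (mk L) ^ t * u⁻¹ = (of 1) ^ κ} := by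
      ext κ; simp
    rw [this]
    refine Set.Finite.biUnion (Finset.finite_toSet _) fun u _ => ?_
    refine Set.Finite.biUnion (Finset.finite_toSet _) fun v _ => ?_
    refine Set.Subsingleton.finite ?_
    rintro κ ⟨t, ht⟩ κ' ⟨t', ht'⟩
    have h1 : v * (mk L) ^ (t - t') * v⁻¹ = (of 1) ^ (κ - κ') := by
      rw [zpow_sub, zpow_sub, ← ht, ← ht']; group
    have h2 : t - t' = 0 := by
      by_contra h; exact hb _ h _ _ h1
    rw [h2] at h1
    have h3 : (of 1 : F2) ^ (κ - κ') = (of 1 : F2) ^ (0 : ℤ) := by rw [← h1]; simp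
    have := of_one_zpow_inj h3
    omega
  obtain ⟨M, hM⟩ := hfin.bddAbove
  obtain ⟨m, hm⟩ := hfin.bddBelow
  refine ⟨(max M (-m)).toNat, fun κ hκ u hu v hv t h => ?_⟩
  have h1 := hM (show κ ∈ _ from ⟨u, hu, v, hv, t, h⟩)
  have h2 := hm (show κ ∈ _ from ⟨u, hu, v, hv, t, h⟩)
  have h3 : max M (-m) ≤ ((max M (-m)).toNat : ℤ) := Int.self_le_toNat _
  rcases abs_cases κ with h4 | h4 <;> omega

theorem word_formula {G : Type*} [Group G] (a t ψ : G) (hψ : ψ⁻¹ = ψ) : ∀ L : Wd,
    lift ![a * ψ, t] (mk L) = lift ![a, t] (mk L) *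
      ((locs L).map (fun u => (lift ![a, t] u)⁻¹ * ψ * lift ![a, t] u)).prod
  | [] => by simp [locs, slocs]
  | (x, b) :: L => by
    have ih := word_formula a t ψ hψ L
    have hcons : ∀ f : Fin 2 → G, lift f (mk ((x, b) :: L)) =
        (cond b (f x) (f x)⁻¹) * lift f (mk L) := by
      intro f; simp [lift_mk]
    rw [hcons, hcons]
    by_cases hx : x = 0
    · subst hx
      cases b
      · have e : locs ((0, false) :: L) = mk ((0, false) :: L) :: locs L := by
          simp [locs, slocs]
        rw [e, List.map_cons, List.prod_cons, hcons, ih]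
        simp only [cond_false, Matrix.cons_val_zero, mul_inv_rev, hψ, inv_inv]
        group
      · have e : locs ((0, true) :: L) = mk L :: locs L := by simp [locs, slocs]
        rw [e, List.map_cons, List.prod_cons, ih]
        simp only [cond_true, Matrix.cons_val_zero]
        group
    · have hx1 : x = 1 := by omega
      subst hx1
      have e : locs ((1, b) :: L) = locs L := by simp [locs, slocs]
      rw [e, ih]
      cases b <;> simp [mul_assoc]

end Pool.Agent.Helper281.Erg
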