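import Pool.Agent.Helper281.ErgFull
import Pool.Agent.Helper281.ErgSparse
import Pool.Agent.Helper281.ErgWord

set_option autoImplicit false
set_option linter.unusedSectionVars false

namespace Pool.Agent.Helper281.Erg

open MeasureTheory Set Filter Topology
open scoped ENNReal

variable {X : Type*} [MeasurableSpace X] {μ : Measure X}

theorem sm (g : MP μ) : Measurable (fun x : X => g • x) := gm g

theorem spre (g : MP μ) (s : Set X) (hs : MeasurableSet s) : μ {x | g • x ∈ s} = μ s :=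
  gpre g s hs

theorem spreR (g : MP μ) (s : Set X) (hs : MeasurableSet s) : μ.real {x | g • x ∈ s} = μ.real s :=
  congrArg ENNReal.toReal (spre g s hs)

theorem smem (g : MP μ) {s : Set X} (hs : MeasurableSet s) : MeasurableSet {x | g • x ∈ s} :=
  (sm g) hs

theorem inv_iff {g : MP μ} {B : Set X} (h : (g : Equiv.Perm X) ⁻¹' B = B) (x : X) :
    g • x ∈ B ↔ x ∈ B := by
  conv_rhs => rw [← h]
  rfl

section meas

variable [IsProbabilityMeasure μ]

theorem packing {n : ℕ} (g : ℕ → MP μ) (R Δ : Set X) (hR : MeasurableSet R)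
    (hsub : ∀ t < n, ∀ x, g t • x ∈ R → x ∈ Δ)
    (hdis : ∀ t < n, ∀ t' < n, t < t' → ∀ x, g t • x ∈ R → g t' • x ∉ R) :
    n * μ.real R ≤ μ.real Δ := by
  have h1 : μ.real (⋃ t ∈ Finset.range n, {x | g t • x ∈ R}) = n * μ.real R := by
    rw [measureReal_biUnion_finset]
    · rw [Finset.sum_congr rfl fun t _ => spreR (g t) R hR]; simp
    · intro t ht t' ht' hne
      rw [Finset.coe_range, mem_Iio] at ht ht'
      rw [Function.onFun, Set.disjoint_left]
      intro x hx hx'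
      rcases lt_or_gt_of_ne hne with h | h
      · exact hdis t ht t' ht' h x hx hx'
      · exact hdis t' ht' t ht h x hx' hx
    · intro t _; exact smem (g t) hR
  rw [← h1]
  refine measureReal_mono ?_ (measure_ne_top _ _)
  intro x hx
  obtain ⟨t, ht⟩ := mem_iUnion.1 hx
  obtain ⟨ht1, ht2⟩ := mem_iUnion.1 ht
  exact hsub t (Finset.mem_range.1 ht1) x ht2

theorem window (S Ψ : MP μ) (Q : Set X) (n : ℕ)
    (hoff : ∀ x ∉ Q, Ψ • x = x) (hon : ∀ x ∈ Q, Ψ • x ∈ Q)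
    (hsp : ∀ x ∈ Q, ∀ t, 0 < t → t < n → (S ^ t) • x ∉ Q)
    (B B' : Set X) (hB : MeasurableSet B) (hB' : MeasurableSet B')
    (hSB : (S : Equiv.Perm X) ⁻¹' B = B) (hSB' : ((S * Ψ : MP μ) : Equiv.Perm X) ⁻¹' B' = B')
    (Qc : Set X) (hQc : MeasurableSet Qc) (hQcQ : Qc ⊆ Q)
    (hcr : ∀ x ∈ Qc, (x ∈ B ↔ Ψ • x ∉ B)) :
    n * μ.real Qc ≤ 2 * μ.real (symmDiff B B') := by
  classical
  set Δ := symmDiff B B' with hΔ
  have hΔm : MeasurableSet Δ := hB.symmDiff hB'
  have hmemΔ : ∀ x, x ∈ Δ ↔ ¬ (x ∈ B' ↔ x ∈ B) := by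
    intro x; rw [hΔ, mem_symmDiff]; tauto
  let R1 : Set X := Qc ∩ ⋂ t : Fin n, {x | (S ^ (t : ℕ))⁻¹ • x ∈ Δ}
  let R2 : Set X := Qc ∩ ⋂ t : Fin n, {x | (S ^ ((t : ℕ) + 1) * Ψ) • x ∈ Δ}
  have hR1m : MeasurableSet R1 := hQc.inter (MeasurableSet.iInter fun t => smem _ hΔm)
  have hR2m : MeasurableSet R2 := hQc.inter (MeasurableSet.iInter fun t => smem _ hΔm)
  have hB1 : ∀ x, S • x ∈ B ↔ x ∈ B := inv_iff hSB
  have hB2 : ∀ x, (S * Ψ) • x ∈ B' ↔ x ∈ B' := inv_iff hSB'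
  have hBt : ∀ (t : ℕ) x, (S ^ t) • x ∈ B ↔ x ∈ B := by
    intro t
    induction t with
    | zero => intro x; rw [pow_zero, one_smul]
    | succ t ih => intro x; rw [pow_succ', mul_smul, hB1, ih]
  have hsub : Qc ⊆ R1 ∪ R2 := by
    intro x hx
    have hxQ := hQcQ hx
    have hz : ∀ t < n, ((S ^ t)⁻¹ • x ∈ B' ↔ x ∈ B') := by
      intro t
      induction t with
      | zero => intro _; rw [pow_zero, inv_one, one_smul]
      | succ t ih =>
        intro ht
        rw [← ih (by omega)]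
        have h1 : (S ^ (t + 1))⁻¹ • x ∉ Q := by
          intro h
          have := hsp _ h (t + 1) (by omega) ht
          rw [smul_inv_smul] at this
          exact this hxQ
        have h2 : (S * Ψ) • ((S ^ (t + 1))⁻¹ • x) = (S ^ t)⁻¹ • x := by
          rw [mul_smul, hoff _ h1, pow_succ, mul_inv_rev, mul_smul, smul_inv_smul]
        rw [← h2, hB2]
    have hy : ∀ t < n, ((S ^ (t + 1) * Ψ) • x ∈ B' ↔ x ∈ B') := by
      intro t
      induction t with
      | zero => intro _; rw [zero_add, pow_one, hB2]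
      | succ t ih =>
        intro ht
        rw [← ih (by omega)]
        have h1 : (S ^ (t + 1) * Ψ) • x ∉ Q := by
          rw [mul_smul]
          exact hsp _ (hon x hxQ) (t + 1) (by omega) ht
        have h2 : (S * Ψ) • ((S ^ (t + 1) * Ψ) • x) = (S ^ (t + 1 + 1) * Ψ) • x := by
          rw [mul_smul S Ψ, hoff _ h1, pow_succ' S (t + 1), mul_assoc, mul_smul S]
        rw [← h2, hB2]
    by_cases hxΔ : x ∈ Δ
    · left
      refine ⟨hx, mem_iInter.2 fun t => ?_⟩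
      rw [mem_ofPred_eq, hmemΔ, hz t t.2]
      have h3 : (S ^ (t : ℕ))⁻¹ • x ∈ B ↔ x ∈ B := by
        rw [← hBt t ((S ^ (t : ℕ))⁻¹ • x), smul_inv_smul]
      rw [h3, ← hmemΔ]; exact hxΔ
    · right
      refine ⟨hx, mem_iInter.2 fun t => ?_⟩
      rw [mem_ofPred_eq, hmemΔ, hy t t.2]
      have h3 : (S ^ ((t : ℕ) + 1) * Ψ) • x ∈ B ↔ Ψ • x ∈ B := by
        rw [mul_smul, hBt]
      rw [h3]
      have h4 := hcr x hx
      rw [hmemΔ, not_not] at hxΔ
      tauto
  have e1 : n * μ.real R1 ≤ μ.real Δ := by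
    refine packing (fun t => S ^ t) R1 Δ hR1m ?_ ?_
    · intro t ht x hx
      have := mem_iInter.1 hx.2 ⟨t, ht⟩
      simp only [mem_ofPred_eq, inv_smul_smul] at this
      exact this
    · intro t ht t' ht' htt x hx hx'
      have h1 := hsp _ (hQcQ hx.1) (t' - t) (by omega) (by omega)
      rw [← mul_smul, ← pow_add, Nat.sub_add_cancel htt.le] at h1
      exact h1 (hQcQ hx'.1)
  have e2 : n * μ.real R2 ≤ μ.real Δ := by
    refine packing (fun t => (S ^ (t + 1) * Ψ)⁻¹) R2 Δ hR2m ?_ ?_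
    · intro t ht x hx
      have := mem_iInter.1 hx.2 ⟨t, ht⟩
      simp only [mem_ofPred_eq, smul_inv_smul] at this
      exact this
    · intro t ht t' ht' htt x hx hx'
      have h0 : Ψ • ((S ^ (t' + 1) * Ψ)⁻¹ • x) ∈ Q := hon _ (hQcQ hx'.1)
      have h0' : Ψ • ((S ^ (t + 1) * Ψ)⁻¹ • x) ∈ Q := hon _ (hQcQ hx.1)
      have h1 := hsp _ h0 (t' - t) (by omega) (by omega)
      have h2 : (S ^ (t' - t)) • Ψ • ((S ^ (t' + 1) * Ψ)⁻¹ • x) =
          Ψ • ((S ^ (t + 1) * Ψ)⁻¹ • x) := by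
        rw [← mul_smul, ← mul_smul, ← mul_smul]
        congr 1
        have : t' + 1 = (t + 1) + (t' - t) := by omega
        rw [this, pow_add]
        group
      rw [h2] at h1
      exact h1 h0'
  have e3 : μ.real Qc ≤ μ.real R1 + μ.real R2 :=
    (measureReal_mono hsub (measure_ne_top _ _)).trans (measureReal_union_le _ _)
  have e4 : (n : ℝ) * μ.real Qc ≤ n * μ.real R1 + n * μ.real R2 := by
    rw [← mul_add]; exact mul_le_mul_of_nonneg_left e3 (Nat.cast_nonneg _)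
  linarith

end meas

section swap

/-- swap map -/
noncomputable def swf (T : MP μ) (k : ℤ) (D : Set X) (x : X) : X :=
  open Classical in if x ∈ D then (T ^ k) • x else if (T ^ k)⁻¹ • x ∈ D then (T ^ k)⁻¹ • x else x

theorem swf_inv (T : MP μ) (k : ℤ) (D : Set X) (hD : ∀ x ∈ D, (T ^ k) • x ∉ D) :
    Function.Involutive (swf T k D) := by
  intro x
  by_cases h : x ∈ D
  · have h1 : swf T k D x = (T ^ k) • x := by rw [swf, if_pos h]
    rw [h1, swf, if_neg (hD x h), if_pos (by rwa [inv_smul_smul]), inv_smul_smul]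
  · by_cases h2 : (T ^ k)⁻¹ • x ∈ D
    · have h1 : swf T k D x = (T ^ k)⁻¹ • x := by rw [swf, if_neg h, if_pos h2]
      rw [h1, swf, if_pos h2, smul_inv_smul]
    · have h1 : swf T k D x = x := by rw [swf, if_neg h, if_neg h2]
      rw [h1, h1]

theorem swf_meas (T : MP μ) (k : ℤ) (D : Set X) (hD : MeasurableSet D) :
    Measurable (swf T k D) := by
  classical
  unfold swf
  exact Measurable.ite hD (sm _) (Measurable.ite (smem _ hD) (sm _) measurable_id)

theorem exists_swap [StandardBorelSpace X] [IsProbabilityMeasure μ] (T : MP μ) (k : ℤ)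
    (D : Set X) (hDm : MeasurableSet D) (hD : ∀ x ∈ D, (T ^ k) • x ∉ D) :
    ∃ ψ ∈ FG T, ψ⁻¹ = ψ ∧ (∀ x ∈ D, ψ • x = (T ^ k) • x) ∧
      (∀ x, ¬ (x ∈ D ∨ (T ^ k)⁻¹ • x ∈ D) → ψ • x = x) ∧
      (∀ x, (x ∈ D ∨ (T ^ k)⁻¹ • x ∈ D) → (ψ • x ∈ D ∨ (T ^ k)⁻¹ • ψ • x ∈ D)) ∧
      dist ψ 1 ≤ 2 * μ.real D := by
  let p : Equiv.Perm X := (swf_inv T k D hD).toPerm
  have hp : ∀ x, p x = swf T k D x := fun x => rfl
  have hfull : ∀ x, ∃ j : ℤ, p x = ((T ^ j : MP μ) : Equiv.Perm X) x := by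
    intro x
    rw [hp, swf]
    split_ifs
    · exact ⟨k, rfl⟩
    · exact ⟨-k, by rw [zpow_neg]; rfl⟩
    · exact ⟨0, by simp⟩
  have hmem : p ∈ MP μ := mp_of_full T p (swf_meas T k D hDm) (swf_meas T k D hDm) hfull
  have h1 : ∀ x ∈ D, (⟨p, hmem⟩ : MP μ) • x = (T ^ k) • x := by
    intro x hx
    change swf T k D x = _
    rw [swf, if_pos hx]
  have h2 : ∀ x, ¬ (x ∈ D ∨ (T ^ k)⁻¹ • x ∈ D) → (⟨p, hmem⟩ : MP μ) • x = x := by
    intro x hx
    push Not at hx
    change swf T k D x = _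
    rw [swf, if_neg hx.1, if_neg hx.2]
  refine ⟨⟨p, hmem⟩, hfull, ?_, h1, h2, ?_, ?_⟩
  · apply Subtype.ext
    exact Function.Involutive.symm_eq_self_of_involutive p (swf_inv T k D hD)
  · intro x hx
    by_cases hxD : x ∈ D
    · rw [h1 x hxD]; right; rwa [inv_smul_smul]
    · have h3 : (T ^ k)⁻¹ • x ∈ D := hx.resolve_left hxD
      left
      change swf T k D x ∈ D
      rw [swf, if_neg hxD, if_pos h3]; exact h3
  · rw [dist_def, ud]
    have : {x | p x ≠ ((1 : MP μ) : Equiv.Perm X) x} ⊆ D ∪ {x | (T ^ k)⁻¹ • x ∈ D} := by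
      intro x hx
      by_contra hc
      exact hx (h2 x hc)
    refine (measureReal_mono this (measure_ne_top _ _)).trans ?_
    refine (measureReal_union_le _ _).trans ?_
    rw [spreR _ _ hDm]
    linarith

end swap

section prod

theorem prod_conj {G : Type*} [Group G] [MulAction G X] (ρ : F2 → G) (ψ : G) (Y : Set X)
    (hY : ∀ x ∉ Y, ψ • x = x) (hY' : ∀ x ∈ Y, ψ • x ∈ Y) : ∀ (l : List F2)
    (_ : l.Pairwise (fun u v => ∀ x : X, ρ u • x ∈ Y → ρ v • x ∉ Y)),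
    (∀ x : X, (∀ u ∈ l, ρ u • x ∉ Y) → (l.map fun u => (ρ u)⁻¹ * ψ * ρ u).prod • x = x) ∧
    (∀ u ∈ l, ∀ x : X, ρ u • x ∈ Y →
      (l.map fun u => (ρ u)⁻¹ * ψ * ρ u).prod • x = ((ρ u)⁻¹ * ψ * ρ u) • x)
  | [], _ => by simp
  | v :: l, h => by
    rw [List.pairwise_cons] at h
    obtain ⟨ih1, ih2⟩ := prod_conj ρ ψ Y hY hY' l h.2
    have hfix : ∀ x : X, ρ v • x ∉ Y → ((ρ v)⁻¹ * ψ * ρ v) • x = x := by
      intro x hx
      rw [mul_smul, mul_smul, hY _ hx, inv_smul_smul]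
    constructor
    · intro x hx
      rw [List.map_cons, List.prod_cons, mul_smul, ih1 x (fun u hu => hx u (List.mem_cons_of_mem _ hu)),
        hfix x (hx v List.mem_cons_self)]
    · intro u hu x hx
      rw [List.map_cons, List.prod_cons, mul_smul]
      rcases List.mem_cons.1 hu with rfl | hu
      · rw [ih1 x (fun w hw => h.1 w hw x hx)]
      · rw [ih2 u hu x hx]
        apply hfix
        intro hc
        refine h.1 u hu _ hc ?_
        rw [mul_smul, mul_smul, smul_inv_smul]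
        exact hY' _ hx

end prod

end Pool.Agent.Helper281.Erg
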